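import Mathlib

section

/-!
# The function `ph z = log (2 sin (π z))` on the strip `0 < re z < 1`, and its primitive
-/

namespace Pool.Agent.Work.MP_b30479_gtS.VOL

set_option linter.unusedSimpArgs false

open Complex Set MeasureTheory

/-- the open strip `0 < re z < 1` -/
def strip : Set ℂ := {z | 0 < z.re ∧ z.re < 1}

lemma strip_open : IsOpen strip := by
  have h1 : IsOpen {z : ℂ | 0 < z.re} := isOpen_lt continuous_const Complex.continuous_re
  have h2 : IsOpen {z : ℂ | z.re < 1} := isOpen_lt Complex.continuous_re continuous_const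
  exact h1.inter h2

lemma strip_convex : Convex ℝ strip := by
  have h1 : Convex ℝ {z : ℂ | 0 < z.re} := convex_halfSpace_re_gt 0
  have h2 : Convex ℝ {z : ℂ | z.re < 1} := convex_halfSpace_re_lt 1
  exact h1.inter h2

/-- `log (2 sin (π z))` -/
noncomputable def ph (z : ℂ) : ℂ := Complex.log (2 * Complex.sin (Real.pi * z))

lemma sin_pi_re (z : ℂ) :
    (Complex.sin (Real.pi * z)).re = Real.sin (Real.pi * z.re) * Real.cosh (Real.pi * z.im) := by
  have e : (Real.pi : ℂ) * z = ((Real.pi * z.re : ℝ) : ℂ) + ((Real.pi * z.im : ℝ) : ℂ) * I := by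
    apply Complex.ext <;> simp
  rw [e, Complex.sin_add_mul_I, ← Complex.ofReal_sin, ← Complex.ofReal_cosh,
    ← Complex.ofReal_cos, ← Complex.ofReal_sinh]
  simp only [add_re, add_im, mul_re, mul_im, sub_re, sub_im, ofReal_re, ofReal_im, I_re, I_im]
  ring

lemma sin_pi_im (z : ℂ) :
    (Complex.sin (Real.pi * z)).im = Real.cos (Real.pi * z.re) * Real.sinh (Real.pi * z.im) := by
  have e : (Real.pi : ℂ) * z = ((Real.pi * z.re : ℝ) : ℂ) + ((Real.pi * z.im : ℝ) : ℂ) * I := by
    apply Complex.ext <;> simp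
  rw [e, Complex.sin_add_mul_I, ← Complex.ofReal_sin, ← Complex.ofReal_cosh,
    ← Complex.ofReal_cos, ← Complex.ofReal_sinh]
  simp only [add_re, add_im, mul_re, mul_im, sub_re, sub_im, ofReal_re, ofReal_im, I_re, I_im]
  ring

lemma cos_pi_re (z : ℂ) :
    (Complex.cos (Real.pi * z)).re = Real.cos (Real.pi * z.re) * Real.cosh (Real.pi * z.im) := by
  have e : (Real.pi : ℂ) * z = ((Real.pi * z.re : ℝ) : ℂ) + ((Real.pi * z.im : ℝ) : ℂ) * I := by
    apply Complex.ext <;> simp
  rw [e, Complex.cos_add_mul_I, ← Complex.ofReal_sin, ← Complex.ofReal_cosh,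
    ← Complex.ofReal_cos, ← Complex.ofReal_sinh]
  simp only [add_re, add_im, mul_re, mul_im, sub_re, sub_im, ofReal_re, ofReal_im, I_re, I_im]
  ring

lemma cos_pi_im (z : ℂ) :
    (Complex.cos (Real.pi * z)).im = -(Real.sin (Real.pi * z.re) * Real.sinh (Real.pi * z.im)) := by
  have e : (Real.pi : ℂ) * z = ((Real.pi * z.re : ℝ) : ℂ) + ((Real.pi * z.im : ℝ) : ℂ) * I := by
    apply Complex.ext <;> simp
  rw [e, Complex.cos_add_mul_I, ← Complex.ofReal_sin, ← Complex.ofReal_cosh,
    ← Complex.ofReal_cos, ← Complex.ofReal_sinh]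
  simp only [add_re, add_im, mul_re, mul_im, sub_re, sub_im, ofReal_re, ofReal_im, I_re, I_im]
  ring

lemma sin_pi_pos {x : ℝ} (h0 : 0 < x) (h1 : x < 1) : 0 < Real.sin (Real.pi * x) := by
  have := Real.pi_pos
  apply Real.sin_pos_of_pos_of_lt_pi
  · positivity
  · nlinarith only [h1, this]

lemma sin_pi_re_pos {z : ℂ} (hz : z ∈ strip) : 0 < (Complex.sin (Real.pi * z)).re := by
  rw [sin_pi_re]
  exact mul_pos (sin_pi_pos hz.1 hz.2) (Real.cosh_pos _)

lemma sin_pi_ne {z : ℂ} (hz : z ∈ strip) : Complex.sin (Real.pi * z) ≠ 0 := by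
  intro h
  have := sin_pi_re_pos hz
  rw [h] at this
  simp at this

lemma two_sin_slit {z : ℂ} (hz : z ∈ strip) : 2 * Complex.sin (Real.pi * z) ∈ slitPlane := by
  rw [Complex.mem_slitPlane_iff]
  left
  have := sin_pi_re_pos hz
  have e : (2 * Complex.sin (Real.pi * z)).re = 2 * (Complex.sin (Real.pi * z)).re := by
    simp
  rw [e]
  linarith only [this]

lemma exp_ph {z : ℂ} (hz : z ∈ strip) : Complex.exp (ph z) = 2 * Complex.sin (Real.pi * z) :=
  Complex.exp_log (mul_ne_zero two_ne_zero (sin_pi_ne hz))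

/-- the derivative of `ph` -/
noncomputable def ph' (z : ℂ) : ℂ :=
  Real.pi * Complex.cos (Real.pi * z) / Complex.sin (Real.pi * z)

lemma hasDerivAt_ph {z : ℂ} (hz : z ∈ strip) : HasDerivAt ph (ph' z) z := by
  have h1 : HasDerivAt (fun z : ℂ => 2 * Complex.sin (Real.pi * z))
      (2 * (Complex.cos (Real.pi * z) * (Real.pi * 1))) z :=
    (((hasDerivAt_id z).const_mul (Real.pi : ℂ)).csin).const_mul 2
  have h2 := h1.clog (two_sin_slit hz)
  have e : 2 * (Complex.cos (Real.pi * z) * (Real.pi * 1)) / (2 * Complex.sin (Real.pi * z)) =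
      ph' z := by
    unfold ph'
    have := sin_pi_ne hz
    field_simp
  rw [e] at h2
  exact h2

lemma differentiableOn_ph : DifferentiableOn ℂ ph strip := fun _ hz =>
  (hasDerivAt_ph hz).differentiableAt.differentiableWithinAt

lemma continuousAt_ph {z : ℂ} (hz : z ∈ strip) : ContinuousAt ph z :=
  (hasDerivAt_ph hz).continuousAt

lemma continuousAt_ph' {z : ℂ} (hz : z ∈ strip) : ContinuousAt ph' z := by
  unfold ph'
  apply ContinuousAt.div
  · fun_prop
  · fun_prop
  · exact sin_pi_ne hz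

lemma norm_ph'_le {z : ℂ} (hz : z ∈ strip) :
    ‖ph' z‖ ≤ Real.pi / Real.sin (Real.pi * z.re) := by
  have hs := sin_pi_pos hz.1 hz.2
  have h1 : ‖Complex.cos (Real.pi * z)‖ * Real.sin (Real.pi * z.re) ≤
      ‖Complex.sin (Real.pi * z)‖ := by
    apply le_of_sq_le_sq _ (norm_nonneg _)
    rw [mul_pow, Complex.sq_norm, Complex.sq_norm, Complex.normSq_apply, Complex.normSq_apply,
      sin_pi_re, sin_pi_im, cos_pi_re, cos_pi_im]
    have c1 := Real.sin_sq_add_cos_sq (Real.pi * z.re)
    have c2 := Real.cosh_sq (Real.pi * z.im)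
    set a := Real.sin (Real.pi * z.re)
    set b := Real.cos (Real.pi * z.re)
    set c := Real.cosh (Real.pi * z.im)
    set d := Real.sinh (Real.pi * z.im)
    have hb : b ^ 2 = 1 - a ^ 2 := by linarith only [c1]
    have e1 : (b * c * (b * c) + -(a * d) * -(a * d)) * a ^ 2 =
        b ^ 2 * c ^ 2 * a ^ 2 + a ^ 4 * d ^ 2 := by ring
    have e2 : a * c * (a * c) + b * d * (b * d) = a ^ 2 * c ^ 2 + b ^ 2 * d ^ 2 := by ring
    rw [e1, e2, hb, c2]
    nlinarith only [c1, sq_nonneg (a ^ 2), sq_nonneg d, mul_nonneg (sq_nonneg a) (sq_nonneg d),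
      sq_nonneg b, mul_nonneg (sq_nonneg b) (sq_nonneg d)]
  have hpos : 0 < ‖Complex.sin (Real.pi * z)‖ := norm_pos_iff.mpr (sin_pi_ne hz)
  unfold ph'
  rw [norm_div, norm_mul, Complex.norm_real, Real.norm_of_nonneg Real.pi_pos.le,
    div_le_div_iff₀ hpos hs]
  have := Real.pi_pos
  nlinarith only [h1, this]

lemma norm_ph_sub_le {z w : ℂ} (hz : z ∈ strip) (h : w.re = z.re) :
    ‖ph w - ph z‖ ≤ Real.pi / Real.sin (Real.pi * z.re) * |w.im - z.im| := by
  have hc : Convex ℝ {v : ℂ | v.re = z.re} := by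
    intro a ha b hb s t hs ht hst
    simp only [mem_ofPred_eq] at ha hb ⊢
    simp only [add_re, real_smul, mul_re, ofReal_re, ofReal_im, zero_mul, sub_zero, ha, hb]
    rw [← add_mul, hst, one_mul]
  have h1 := hc.norm_image_sub_le_of_norm_hasDerivWithin_le (𝕜 := ℂ) (f := ph) (f' := ph')
    (C := Real.pi / Real.sin (Real.pi * z.re)) (x := z) (y := w)
    (fun v hv => by
      have hv' : v ∈ strip := by
        simp only [mem_ofPred_eq] at hv
        refine ⟨?_, ?_⟩
        · rw [hv]; exact hz.1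
        · rw [hv]; exact hz.2
      exact (hasDerivAt_ph hv').hasDerivWithinAt)
    (fun v hv => by
      simp only [mem_ofPred_eq] at hv
      have hv' : v ∈ strip := by
        refine ⟨?_, ?_⟩
        · rw [hv]; exact hz.1
        · rw [hv]; exact hz.2
      have := norm_ph'_le hv'
      rw [hv] at this
      exact this)
    (by simp) (by simpa using h)
  refine h1.trans (le_of_eq ?_)
  congr 1
  have e : w - z = ((w.im - z.im : ℝ) : ℂ) * I := by
    apply Complex.ext <;> simp [h]
  rw [e, norm_mul, Complex.norm_I, mul_one, Complex.norm_real, Real.norm_eq_abs]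

lemma ph_one_sub (z : ℂ) : ph (1 - z) = ph z := by
  unfold ph
  congr 2
  rw [show (Real.pi : ℂ) * (1 - z) = Real.pi - Real.pi * z by ring, Complex.sin_pi_sub]

lemma ph_conj {z : ℂ} (hz : z ∈ strip) : ph (starRingEnd ℂ z) = starRingEnd ℂ (ph z) := by
  unfold ph
  rw [← Complex.log_conj]
  · congr 1
    rw [map_mul, ← Complex.sin_conj, map_mul, Complex.conj_ofReal, Complex.conj_ofNat]
  · have := two_sin_slit hz
    exact Complex.slitPlane_arg_ne_pi this

lemma ph_ofReal {x : ℝ} (h0 : 0 < x) (h1 : x < 1) :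
    ph x = ((Real.log (2 * Real.sin (Real.pi * x)) : ℝ) : ℂ) := by
  unfold ph
  have hs := sin_pi_pos h0 h1
  rw [Complex.ofReal_log (by positivity)]
  push_cast
  rfl

lemma strip_conj {z : ℂ} (hz : z ∈ strip) : starRingEnd ℂ z ∈ strip := by
  refine ⟨?_, ?_⟩
  · simpa using hz.1
  · simpa using hz.2

lemma strip_one_sub {z : ℂ} (hz : z ∈ strip) : 1 - z ∈ strip := by
  refine ⟨?_, ?_⟩
  · have := hz.2
    simp only [sub_re, one_re]
    linarith only [this]
  · have := hz.1
    simp only [sub_re, one_re]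
    linarith only [this]

lemma half_mem_strip : (1 / 2 : ℂ) ∈ strip := by
  refine ⟨?_, ?_⟩
  · norm_num
  · norm_num

/-- the primitive of `ph` vanishing at `1/2` -/
noncomputable def Fh (w : ℂ) : ℂ :=
  (w - 1 / 2) * ∫ t in (0 : ℝ)..1, ph (1 / 2 + t * (w - 1 / 2))

lemma seg_mem_strip {w : ℂ} (hw : w ∈ strip) {t : ℝ} (h0 : 0 ≤ t) (h1 : t ≤ 1) :
    (1 / 2 + t * (w - 1 / 2) : ℂ) ∈ strip := by
  have := strip_convex half_mem_strip hw (sub_nonneg.mpr h1) h0 (by ring)
  have e : ((1 - t) • (1 / 2 : ℂ) + t • w : ℂ) = 1 / 2 + t * (w - 1 / 2) := by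
    simp only [real_smul]
    push_cast
    ring
  rw [e] at this
  exact this

lemma exists_prim : ∃ g : ℂ → ℂ, ∀ a ∈ strip, HasDerivAt g (ph a) a := by
  obtain ⟨g, hg⟩ := strip_convex.exists_forall_hasDerivWithinAt differentiableOn_ph
  exact ⟨g, fun a ha => (hg a ha).hasDerivAt (strip_open.mem_nhds ha)⟩

lemma prim_sub_eq {g : ℂ → ℂ} (hg : ∀ a ∈ strip, HasDerivAt g (ph a) a) {w : ℂ}
    (hw : w ∈ strip) : g w - g (1 / 2) = Fh w := by
  have h1 : ∀ t ∈ uIcc (0 : ℝ) 1, HasDerivAt (fun t : ℝ => g (1 / 2 + t * (w - 1 / 2)))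
      (ph (1 / 2 + t * (w - 1 / 2)) * (w - 1 / 2)) t := by
    intro t ht
    rw [uIcc_of_le zero_le_one] at ht
    have hm := seg_mem_strip hw ht.1 ht.2
    have h2 : HasDerivAt (fun t : ℝ => (1 / 2 + t * (w - 1 / 2) : ℂ)) (w - 1 / 2) t := by
      have h3 : HasDerivAt (fun t : ℝ => ((t : ℝ) : ℂ)) 1 t := Complex.ofRealCLM.hasDerivAt
      have h4 := (h3.mul_const (w - 1 / 2)).const_add (1 / 2 : ℂ)
      simpa using h4
    exact (hg _ hm).comp_of_eq t h2 rfl
  have hint : IntervalIntegrable (fun t : ℝ => ph (1 / 2 + t * (w - 1 / 2)) * (w - 1 / 2))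
      volume 0 1 := by
    apply ContinuousOn.intervalIntegrable
    intro t ht
    rw [uIcc_of_le zero_le_one] at ht
    have hm := seg_mem_strip hw ht.1 ht.2
    have hc : ContinuousAt (fun t : ℝ => ph (1 / 2 + t * (w - 1 / 2))) t := by
      apply ContinuousAt.comp (g := ph) (f := fun t : ℝ => (1 / 2 + t * (w - 1 / 2) : ℂ))
      · exact continuousAt_ph hm
      · fun_prop
    exact (hc.mul continuousAt_const).continuousWithinAt
  have h5 := intervalIntegral.integral_eq_sub_of_hasDerivAt h1 hint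
  rw [intervalIntegral.integral_mul_const] at h5
  unfold Fh
  rw [mul_comm, h5]
  simp

lemma hasDerivAt_Fh {w : ℂ} (hw : w ∈ strip) : HasDerivAt Fh (ph w) w := by
  obtain ⟨g, hg⟩ := exists_prim
  have h1 : HasDerivAt (fun z => g z - g (1 / 2)) (ph w) w := (hg w hw).sub_const _
  apply h1.congr_of_eventuallyEq
  filter_upwards [strip_open.mem_nhds hw] with z hz
  exact (prim_sub_eq hg hz).symm

lemma differentiableOn_Fh : DifferentiableOn ℂ Fh strip := fun _ hz =>
  (hasDerivAt_Fh hz).differentiableAt.differentiableWithinAt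

lemma Fh_half : Fh (1 / 2) = 0 := by
  unfold Fh
  simp

lemma Fh_one_sub (w : ℂ) : Fh (1 - w) = -Fh w := by
  unfold Fh
  have e : ∀ t : ℝ, ph (1 / 2 + t * (1 - w - 1 / 2)) = ph (1 / 2 + t * (w - 1 / 2)) := by
    intro t
    rw [← ph_one_sub]
    congr 1
    ring
  simp_rw [e]
  ring

lemma Fh_conj {w : ℂ} (hw : w ∈ strip) : Fh (starRingEnd ℂ w) = starRingEnd ℂ (Fh w) := by
  unfold Fh
  rw [map_mul, ← intervalIntegral.intervalIntegral_conj]
  congr 1
  · simp [Complex.conj_ofNat]
  · apply intervalIntegral.integral_congr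
    intro t ht
    rw [uIcc_of_le zero_le_one] at ht
    have hm := seg_mem_strip hw ht.1 ht.2
    simp only
    rw [← ph_conj hm]
    congr 1
    simp [Complex.conj_ofNat]

end Pool.Agent.Work.MP_b30479_gtS.VOL

end

section

/-!
# The real part of the complexified potential of one angle

`phr w = - Re Fh w`, `Fh w = ∫_{1/2}^w log (2 sin π t) dt`, on the strip `0 < Re w < 1`:
derivatives, slopes in the vertical direction, behaviour at large height.
-/

namespace Pool.Agent.Work.MP_b30479_gtS.VC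

open Complex Set VOL

/-- `- Re ∫_{1/2}^w log (2 sin π t) dt` -/
noncomputable def phr (w : ℂ) : ℝ := -(Fh w).re

theorem phr_one_sub (w : ℂ) : phr (1 - w) = -phr w := by
  unfold phr
  rw [Fh_one_sub, neg_re]

theorem phr_half : phr (1 / 2) = 0 := by
  unfold phr
  rw [Fh_half, zero_re, neg_zero]

theorem mem_strip_xy {x : ℝ} (h0 : 0 < x) (h1 : x < 1) (y : ℝ) : (x + y * I : ℂ) ∈ VOL.strip := by
  refine ⟨?_, ?_⟩
  · simpa using h0
  · simpa using h1

theorem phr_conj {w : ℂ} (hw : w ∈ VOL.strip) : phr (starRingEnd ℂ w) = phr w := by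
  unfold phr
  rw [Fh_conj hw, conj_re]

theorem phr_neg_im {x : ℝ} (h0 : 0 < x) (h1 : x < 1) (y : ℝ) :
    phr (x + (-y : ℝ) * I) = phr (x + y * I) := by
  have h := phr_conj (mem_strip_xy h0 h1 y)
  rw [← h]
  congr 1
  simp

/-- the vertical slope -/
noncomputable def thr (w : ℂ) : ℝ := (2 * Complex.sin (Real.pi * w)).arg

theorem hasDerivAt_phr_im {x : ℝ} (h0 : 0 < x) (h1 : x < 1) (y : ℝ) :
    HasDerivAt (fun y : ℝ => phr (x + y * I)) (thr (x + y * I)) y := by
  have hw := mem_strip_xy h0 h1 y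
  have h2 : HasDerivAt (fun y : ℝ => (x : ℂ) + y * I) I y := by
    simpa using ((Complex.ofRealCLM.hasDerivAt (x := y)).mul_const I).const_add (x : ℂ)
  have h3 := (hasDerivAt_Fh hw).comp y h2
  have h4 := (Complex.reCLM.hasFDerivAt.comp_hasDerivAt y h3).neg
  unfold phr thr
  refine h4.congr_deriv ?_
  rw [Complex.reCLM_apply]
  unfold ph
  simp [Complex.mul_re, Complex.log_im]

theorem hasDerivAt_phr_re {x : ℝ} (h0 : 0 < x) (h1 : x < 1) (y : ℝ) :
    HasDerivAt (fun x : ℝ => phr (x + y * I))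
      (-Real.log ‖2 * Complex.sin (Real.pi * (x + y * I))‖) x := by
  have hw := mem_strip_xy h0 h1 y
  have h2 : HasDerivAt (fun x : ℝ => (x : ℂ) + y * I) 1 x := by
    simpa using (Complex.ofRealCLM.hasDerivAt (x := x)).add_const (y * I : ℂ)
  have h3 := (hasDerivAt_Fh hw).comp x h2
  have h4 := (Complex.reCLM.hasFDerivAt.comp_hasDerivAt x h3).neg
  unfold phr
  refine h4.congr_deriv ?_
  rw [Complex.reCLM_apply, mul_one]
  unfold ph
  rw [Complex.log_re]

theorem sin_xy_re (x y : ℝ) : (2 * Complex.sin (Real.pi * (x + y * I))).re =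
    2 * (Real.sin (Real.pi * x) * Real.cosh (Real.pi * y)) := by
  have h := VOL.sin_pi_re (x + y * I)
  simp only [add_re, ofReal_re, mul_re, I_re, mul_zero, ofReal_im, I_im, mul_one, sub_self,
    add_zero, add_im, mul_im, zero_add] at h
  rw [← h]
  simp

theorem sin_xy_im (x y : ℝ) : (2 * Complex.sin (Real.pi * (x + y * I))).im =
    2 * (Real.cos (Real.pi * x) * Real.sinh (Real.pi * y)) := by
  have h := VOL.sin_pi_im (x + y * I)
  simp only [add_re, ofReal_re, mul_re, I_re, mul_zero, ofReal_im, I_im, mul_one, sub_self,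
    add_zero, add_im, mul_im, zero_add] at h
  rw [← h]
  simp

theorem thr_eq_arctan {x : ℝ} (h0 : 0 < x) (h1 : x < 1) (y : ℝ) :
    thr (x + y * I) = Real.arctan (Real.cos (Real.pi * x) / Real.sin (Real.pi * x) *
      (Real.sinh (Real.pi * y) / Real.cosh (Real.pi * y))) := by
  have hs := VOL.sin_pi_pos h0 h1
  have hc := Real.cosh_pos (Real.pi * y)
  have hre := sin_xy_re x y
  have him := sin_xy_im x y
  unfold thr
  have h2 : 0 < (2 * Complex.sin (Real.pi * (x + y * I))).re := by
    rw [hre]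
    positivity
  have h3 : |(2 * Complex.sin (Real.pi * (x + y * I))).arg| < Real.pi / 2 :=
    Complex.abs_arg_lt_pi_div_two_iff.mpr (Or.inl h2)
  rw [abs_lt] at h3
  rw [← Real.arctan_tan h3.1 h3.2, Complex.tan_arg, hre, him]
  congr 1
  field_simp

theorem tan_half_sub (x : ℝ) : Real.tan (Real.pi / 2 - Real.pi * x) =
    Real.cos (Real.pi * x) / Real.sin (Real.pi * x) := by
  rw [Real.tan_pi_div_two_sub, Real.tan_eq_sin_div_cos, inv_div]

theorem abs_arctan (t : ℝ) : |Real.arctan t| = Real.arctan |t| := by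
  rcases le_total 0 t with h | h
  · rw [abs_of_nonneg h, abs_of_nonneg (Real.arctan_nonneg.mpr h)]
  · rw [abs_of_nonpos h, abs_of_nonpos (Real.arctan_le_zero.mpr h), Real.arctan_neg]

theorem abs_thr_le {x : ℝ} (h0 : 0 < x) (h1 : x < 1) (y : ℝ) :
    |thr (x + y * I)| ≤ Real.pi * |1 / 2 - x| := by
  have hpi := Real.pi_pos
  have hs := VOL.sin_pi_pos h0 h1
  have hc := Real.cosh_pos (Real.pi * y)
  rw [thr_eq_arctan h0 h1]
  have h2 : Real.arctan (Real.cos (Real.pi * x) / Real.sin (Real.pi * x)) =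
      Real.pi * (1 / 2 - x) := by
    rw [← tan_half_sub, Real.arctan_tan (by nlinarith only [h1, hpi]) (by nlinarith only [h0, hpi])]
    ring
  have h3 : |Real.arctan (Real.cos (Real.pi * x) / Real.sin (Real.pi * x))| =
      Real.pi * |1 / 2 - x| := by
    rw [h2, abs_mul, abs_of_pos hpi]
  rw [← h3, abs_arctan, abs_arctan]
  apply Real.arctan_mono
  rw [abs_mul]
  have h4 : |Real.sinh (Real.pi * y) / Real.cosh (Real.pi * y)| ≤ 1 := by
    rw [abs_div, abs_of_pos hc, div_le_one hc, abs_le]
    have := Real.sinh_lt_cosh (Real.pi * y)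
    have h5 := Real.sinh_lt_cosh (-(Real.pi * y))
    rw [Real.sinh_neg, Real.cosh_neg] at h5
    constructor <;> linarith only [h5, this]
  calc _ ≤ |Real.cos (Real.pi * x) / Real.sin (Real.pi * x)| * 1 :=
        mul_le_mul_of_nonneg_left h4 (abs_nonneg _)
    _ = _ := mul_one _

theorem thr_nonneg {x : ℝ} (h0 : 0 < x) (h1 : x ≤ 1 / 2) {y : ℝ} (hy : 0 ≤ y) :
    0 ≤ thr (x + y * I) := by
  have hpi := Real.pi_pos
  rw [thr_eq_arctan h0 (by linarith only [h0, h1])]
  rw [Real.arctan_nonneg]
  have h2 := VOL.sin_pi_pos h0 (by linarith only [h0, h1])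
  have h3 : 0 ≤ Real.cos (Real.pi * x) := Real.cos_nonneg_of_neg_pi_div_two_le_of_le
    (by nlinarith only [hpi, h0]) (by nlinarith only [h1, hpi])
  have h4 : 0 ≤ Real.sinh (Real.pi * y) := by
    rw [Real.sinh_nonneg_iff]
    positivity
  have := Real.cosh_pos (Real.pi * y)
  positivity

/-- **Lipschitz bound in the vertical direction.** -/
theorem abs_phr_sub_le {x : ℝ} (h0 : 0 < x) (h1 : x < 1) (y y' : ℝ) :
    |phr (x + y * I) - phr (x + y' * I)| ≤ Real.pi * |1 / 2 - x| * |y - y'| := by
  have h := Convex.norm_image_sub_le_of_norm_hasDerivWithin_le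
    (f := fun y : ℝ => phr (x + y * I)) (f' := fun y : ℝ => thr (x + y * I)) (s := univ)
    (C := Real.pi * |1 / 2 - x|) (x := y') (y := y)
    (fun t _ => (hasDerivAt_phr_im h0 h1 t).hasDerivWithinAt)
    (fun t _ => abs_thr_le h0 h1 t) convex_univ (mem_univ _) (mem_univ _)
  simpa [Real.norm_eq_abs] using h

/-- `phr` increases with the height, for `x ≤ 1/2` -/
theorem phr_mono {x : ℝ} (h0 : 0 < x) (h1 : x ≤ 1 / 2) {y y' : ℝ} (hy : 0 ≤ y) (hyy : y ≤ y') :
    phr (x + y * I) ≤ phr (x + y' * I) := by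
  have h : MonotoneOn (fun y : ℝ => phr (x + y * I)) (Ici 0) := by
    refine monotoneOn_of_hasDerivWithinAt_nonneg (convex_Ici 0) (f' := fun y : ℝ => thr (x + y * I))
      ?_ ?_ ?_
    · exact fun t _ => (hasDerivAt_phr_im h0 (by linarith only [h0, h1]) t).continuousAt.continuousWithinAt
    · exact fun t _ => (hasDerivAt_phr_im h0 (by linarith only [h0, h1]) t).hasDerivWithinAt
    · intro t ht
      rw [interior_Ici] at ht
      exact thr_nonneg h0 h1 (le_of_lt ht)
  exact h hy (hy.trans hyy) hyy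

theorem phr_half_im (y : ℝ) : phr (1 / 2 + y * I) = 0 := by
  have h := abs_phr_sub_le (x := 1 / 2) (by norm_num) (by norm_num) y 0
  simp only [sub_self, abs_zero, mul_zero, zero_mul, ofReal_zero, add_zero] at h
  have h2 := abs_nonpos_iff.mp h
  have e : (((1 / 2 : ℝ)) : ℂ) = 1 / 2 := by push_cast; ring
  rw [e, phr_half, sub_zero] at h2
  exact h2

/-! ### Large height -/

theorem two_sin_eq (w : ℂ) : 2 * Complex.sin (Real.pi * w) =
    I * (Complex.exp (-(Real.pi * w * I)) * (1 - Complex.exp (2 * Real.pi * I * w))) := by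
  have h : Complex.exp (-(Real.pi * w * I)) * Complex.exp (2 * Real.pi * I * w) =
      Complex.exp (Real.pi * w * I) := by
    rw [← Complex.exp_add]
    congr 1
    ring
  rw [mul_sub, mul_one, h, Complex.sin, neg_mul]
  ring

theorem log_norm_two_sin {x y : ℝ} (hy : 0 < y) :
    Real.log ‖2 * Complex.sin (Real.pi * (x + y * I))‖ =
      Real.pi * y + Real.log ‖1 - Complex.exp (2 * Real.pi * I * (x + y * I))‖ := by
  have hne : 1 - Complex.exp (2 * Real.pi * I * (x + y * I)) ≠ 0 := by
    intro h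
    have h1 : Complex.exp (2 * Real.pi * I * (x + y * I)) = 1 := (sub_eq_zero.mp h).symm
    have h2 := congrArg norm h1
    rw [Complex.norm_exp, norm_one] at h2
    simp [Real.pi_ne_zero, hy.ne'] at h2
  rw [two_sin_eq, norm_mul, norm_mul, norm_I, one_mul, Real.log_mul (by simp) (by simpa using hne)]
  congr 1
  rw [Complex.norm_exp, Real.log_exp]
  simp

theorem norm_exp_xy (x y : ℝ) : ‖Complex.exp (2 * Real.pi * I * (x + y * I))‖ =
    Real.exp (-(2 * Real.pi * y)) := by
  rw [Complex.norm_exp]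
  congr 1
  simp

/-- the exponentially small error at height `y` -/
noncomputable def kq (y : ℝ) : ℝ := Real.exp (-(2 * Real.pi * y)) / (1 - Real.exp (-(2 * Real.pi * y)))

theorem exp_lt_one' {y : ℝ} (hy : 0 < y) : Real.exp (-(2 * Real.pi * y)) < 1 := by
  rw [Real.exp_lt_one_iff]
  have := Real.pi_pos
  have : 0 < 2 * Real.pi * y := by positivity
  linarith only [this]

theorem kq_pos {y : ℝ} (hy : 0 < y) : 0 < kq y := by
  unfold kq
  have h1 := exp_lt_one' hy
  have h2 := Real.exp_pos (-(2 * Real.pi * y))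
  apply div_pos h2
  linarith only [h1]

theorem abs_log_norm_one_sub_le {q : ℂ} (hq : ‖q‖ < 1) :
    |Real.log ‖1 - q‖| ≤ ‖q‖ / (1 - ‖q‖) := by
  have h1 : 1 - ‖q‖ ≤ ‖1 - q‖ := by
    have := norm_sub_norm_le (1 : ℂ) q
    rwa [norm_one] at this
  have h2 : ‖1 - q‖ ≤ 1 + ‖q‖ := by
    have := norm_sub_le (1 : ℂ) q
    rwa [norm_one] at this
  have h0 := norm_nonneg q
  have h3 : 0 < 1 - ‖q‖ := by linarith only [hq]
  have h4 : 0 < ‖1 - q‖ := lt_of_lt_of_le h3 h1
  rw [abs_le]
  constructor
  · have h5 := Real.log_le_log h3 h1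
    have h6 := Real.one_sub_inv_le_log_of_pos h3
    have h7 : 1 - (1 - ‖q‖)⁻¹ = -(‖q‖ / (1 - ‖q‖)) := by
      field_simp
      ring
    linarith only [h5, h6, h7]
  · have h5 := Real.log_le_sub_one_of_pos h4
    have h6 : ‖q‖ ≤ ‖q‖ / (1 - ‖q‖) := by
      rw [le_div_iff₀ h3]
      nlinarith only [h1, h2]
    linarith only [h2, h5, h6]

/-- **Behaviour at large height.** -/
theorem abs_phr_sub_le_kq {x : ℝ} (h0 : 0 < x) (h1 : x < 1) {y : ℝ} (hy : 0 < y) :
    |phr (x + y * I) - Real.pi * (1 / 2 - x) * y| ≤ kq y * |x - 1 / 2| := by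
  have h := Convex.norm_image_sub_le_of_norm_hasDerivWithin_le
    (f := fun x : ℝ => phr (x + y * I) - Real.pi * (1 / 2 - x) * y)
    (f' := fun x : ℝ => -Real.log ‖2 * Complex.sin (Real.pi * (x + y * I))‖ + Real.pi * y)
    (s := Ioo 0 1)
    (C := kq y) (x := 1 / 2) (y := x)
    (by
      intro t ht
      have h2 := hasDerivAt_phr_re ht.1 ht.2 y
      have h3 : HasDerivAt (fun x : ℝ => Real.pi * (1 / 2 - x) * y) (-(Real.pi * y)) t := by
        have := (((hasDerivAt_id t).const_sub (1 / 2)).const_mul Real.pi).mul_const y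
        refine this.congr_deriv ?_
        ring
      refine ((h2.sub h3).congr_deriv ?_).hasDerivWithinAt
      ring)
    (by
      intro t ht
      rw [log_norm_two_sin hy, Real.norm_eq_abs]
      have h4 : -(Real.pi * y + Real.log ‖1 - Complex.exp (2 * Real.pi * I * (t + y * I))‖) +
          Real.pi * y = -Real.log ‖1 - Complex.exp (2 * Real.pi * I * (t + y * I))‖ := by
        ring
      rw [h4, abs_neg]
      have h5 := norm_exp_xy t y
      have h6 := abs_log_norm_one_sub_le (q := Complex.exp (2 * Real.pi * I * (t + y * I)))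
        (by rw [h5]; exact exp_lt_one' hy)
      rw [h5] at h6
      exact h6)
    (convex_Ioo 0 1) ⟨by norm_num, by norm_num⟩ ⟨h0, h1⟩
  have h2 : phr (((1 / 2 : ℝ) : ℂ) + y * I) - Real.pi * (1 / 2 - 1 / 2) * y = 0 := by
    have := phr_half_im y
    have e : (((1 / 2 : ℝ)) : ℂ) = 1 / 2 := by push_cast; ring
    rw [e, this]
    ring
  simp only [h2, sub_zero, Real.norm_eq_abs] at h
  exact h

theorem kq_tendsto : Filter.Tendsto kq Filter.atTop (nhds 0) := by
  have h1 : Filter.Tendsto (fun y : ℝ => Real.exp (-(2 * Real.pi * y))) Filter.atTop (nhds 0) := by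
    refine Real.tendsto_exp_atBot.comp ?_
    have : Filter.Tendsto (fun y : ℝ => (-(2 * Real.pi)) * y) Filter.atTop Filter.atBot :=
      Filter.Tendsto.const_mul_atTop_of_neg (by have := Real.pi_pos; linarith only [this]) Filter.tendsto_id
    refine this.congr fun y => ?_
    ring
  have h2 := h1.div (h1.const_sub 1) (by norm_num)
  rw [zero_div] at h2
  exact h2

/-- `phr` lies above its asymptote for `x ≤ 1/2` -/
theorem asymptote_le_phr {x : ℝ} (h0 : 0 < x) (h1 : x ≤ 1 / 2) (y : ℝ) :
    Real.pi * (1 / 2 - x) * y ≤ phr (x + y * I) := by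
  have hpi := Real.pi_pos
  -- the difference is antitone with limit `0`
  have key : ∀ t : ℝ, y ≤ t → 0 < t → -(kq t * |x - 1 / 2|) ≤
      phr (x + y * I) - Real.pi * (1 / 2 - x) * y := by
    intro t hyt ht
    have h2 := abs_phr_sub_le_kq h0 (by linarith only [h0, h1]) ht
    have h3 := abs_phr_sub_le h0 (by linarith only [h0, h1]) t y
    rw [abs_of_nonneg (show (0 : ℝ) ≤ 1 / 2 - x by linarith only [h1]),
      abs_of_nonneg (show 0 ≤ t - y by linarith only [hyt])] at h3
    have h4 := (abs_le.mp h2).1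
    have h5 := (abs_le.mp h3).2
    nlinarith only [h4, h5]
  have h2 : Filter.Tendsto (fun t => -(kq t * |x - 1 / 2|)) Filter.atTop (nhds 0) := by
    simpa using (kq_tendsto.mul_const |x - 1 / 2|).neg
  have h3 := le_of_tendsto h2 (b := phr (x + y * I) - Real.pi * (1 / 2 - x) * y) (by
    filter_upwards [Filter.eventually_ge_atTop y, Filter.eventually_gt_atTop 0] with t h4 h5
    exact key t h4 h5)
  linarith only [h3]

/-! ### Small height -/

theorem tanh_le {t : ℝ} (ht : 0 ≤ t) : Real.sinh t / Real.cosh t ≤ t := by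
  have h1 := Real.cosh_pos t
  rw [div_le_iff₀ h1]
  -- `sinh t ≤ t cosh t`
  have h : MonotoneOn (fun t : ℝ => t * Real.cosh t - Real.sinh t) (Ici 0) := by
    refine monotoneOn_of_hasDerivWithinAt_nonneg (convex_Ici 0)
      (f' := fun t : ℝ => t * Real.sinh t) ?_ ?_ ?_
    · exact Continuous.continuousOn (by fun_prop)
    · intro u _
      have h2 := ((hasDerivAt_id u).mul (Real.hasDerivAt_cosh u)).sub (Real.hasDerivAt_sinh u)
      refine (h2.congr_deriv ?_).hasDerivWithinAt
      simp
    · intro u hu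
      rw [interior_Ici] at hu
      have hu0 : 0 ≤ u := le_of_lt hu
      have := Real.sinh_nonneg_iff.mpr hu0
      positivity
  have h2 := h (mem_Ici.mpr le_rfl) (mem_Ici.mpr ht) ht
  simp only [zero_mul, Real.sinh_zero, sub_zero] at h2
  linarith only [h2]

theorem abs_tanh_le (t : ℝ) : |Real.sinh t / Real.cosh t| ≤ |t| := by
  rcases le_total 0 t with h | h
  · have h1 := tanh_le h
    have h2 := Real.sinh_nonneg_iff.mpr h
    have h3 := Real.cosh_pos t
    rw [abs_of_nonneg h, abs_of_nonneg (by positivity)]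
    exact h1
  · have h0 : 0 ≤ -t := by linarith only [h]
    have h1 := tanh_le h0
    have h2 := Real.sinh_nonneg_iff.mpr h0
    have h3 := Real.cosh_pos (-t)
    have e : Real.sinh t / Real.cosh t = -(Real.sinh (-t) / Real.cosh (-t)) := by
      rw [Real.sinh_neg, Real.cosh_neg]
      ring
    rw [abs_of_nonpos h, e, abs_neg, abs_of_nonneg (by positivity)]
    exact h1

theorem abs_arctan_le (t : ℝ) : |Real.arctan t| ≤ |t| := by
  rw [abs_arctan]
  have h := Real.le_tan (Real.arctan_nonneg.mpr (abs_nonneg t)) (Real.arctan_lt_pi_div_two |t|)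
  rwa [Real.tan_arctan] at h

/-- the slope is `O(height)` -/
theorem abs_thr_le_mul {x : ℝ} (h0 : 0 < x) (h1 : x < 1) (y : ℝ) :
    |thr (x + y * I)| ≤ |Real.cos (Real.pi * x) / Real.sin (Real.pi * x)| * (Real.pi * |y|) := by
  rw [thr_eq_arctan h0 h1]
  refine (abs_arctan_le _).trans ?_
  rw [abs_mul]
  refine mul_le_mul_of_nonneg_left ?_ (abs_nonneg _)
  refine (abs_tanh_le _).trans ?_
  rw [abs_mul, abs_of_pos Real.pi_pos]

/-- **Quadratic dependence on the height.** -/
theorem abs_phr_sub_real_le {x : ℝ} (h0 : 0 < x) (h1 : x < 1) (y : ℝ) :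
    |phr (x + y * I) - phr x| ≤
      |Real.cos (Real.pi * x) / Real.sin (Real.pi * x)| * (Real.pi * y ^ 2 / 2) := by
  -- it is enough to treat `0 ≤ y`
  have key : ∀ y : ℝ, 0 ≤ y → |phr (x + y * I) - phr x| ≤
      |Real.cos (Real.pi * x) / Real.sin (Real.pi * x)| * (Real.pi * y ^ 2 / 2) := by
    intro y hy
    have h := image_norm_le_of_norm_deriv_right_le_deriv_boundary
      (f := fun t : ℝ => phr (x + t * I) - phr x) (f' := fun t : ℝ => thr (x + t * I))
      (a := 0) (b := y)
      (B := fun t : ℝ => |Real.cos (Real.pi * x) / Real.sin (Real.pi * x)| * (Real.pi * t ^ 2 / 2))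
      (B' := fun t : ℝ => |Real.cos (Real.pi * x) / Real.sin (Real.pi * x)| * (Real.pi * t))
      (fun t _ => ((hasDerivAt_phr_im h0 h1 t).sub_const _).continuousAt.continuousWithinAt)
      (fun t _ => ((hasDerivAt_phr_im h0 h1 t).sub_const _).hasDerivWithinAt)
      (by simp)
      (by
        intro t
        have h3 := (((hasDerivAt_pow 2 t).const_mul Real.pi).div_const 2).const_mul
          |Real.cos (Real.pi * x) / Real.sin (Real.pi * x)|
        refine h3.congr_deriv ?_
        push_cast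
        ring)
      (by
        intro t ht
        have h3 := abs_thr_le_mul h0 h1 t
        rw [abs_of_nonneg ht.1] at h3
        exact h3)
    have := h ⟨hy, le_rfl⟩
    simpa [Real.norm_eq_abs] using this
  rcases le_total 0 y with hy | hy
  · exact key y hy
  · have h2 := key (-y) (by linarith only [hy])
    rw [phr_neg_im h0 h1 y] at h2
    simpa using h2

end Pool.Agent.Work.MP_b30479_gtS.VC

end

section

/-!
# The kernel `1/(exp(2πny)+1)` and a contour integral
-/

namespace Pool.Agent.Work.MP_b30479_gtS.VOL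

set_option linter.unusedSimpArgs false

open Complex Set MeasureTheory Filter Topology

/-- `1/(e^{2πny}+1)` -/
noncomputable def kap (n y : ℝ) : ℝ := 1 / (Real.exp (2 * Real.pi * n * y) + 1)

lemma kap_pos (n y : ℝ) : 0 < kap n y := by
  unfold kap
  positivity

lemma kap_le (n y : ℝ) : kap n y ≤ Real.exp (-(2 * Real.pi * n) * y) := by
  unfold kap
  rw [div_le_iff₀ (by positivity), mul_add, ← Real.exp_add]
  have e : -(2 * Real.pi * n) * y + 2 * Real.pi * n * y = 0 := by ring
  rw [e, Real.exp_zero]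
  have := Real.exp_pos (-(2 * Real.pi * n) * y)
  linarith only [this]

lemma kap_cont (n : ℝ) : Continuous (kap n) := by
  unfold kap
  apply Continuous.div
  · fun_prop
  · fun_prop
  · intro y
    positivity

lemma int_exp {c : ℝ} (hc : 0 < c) : IntegrableOn (fun y : ℝ => Real.exp (-c * y)) (Ioi 0) :=
  exp_neg_integrableOn_Ioi 0 hc

lemma int_mul_exp {c : ℝ} (hc : 0 < c) :
    IntegrableOn (fun y : ℝ => y * Real.exp (-c * y)) (Ioi 0) := by
  have h := integrableOn_rpow_mul_exp_neg_mul_rpow (p := 1) (s := 1) (b := c) (by norm_num)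
    (by norm_num) hc
  simpa using h

lemma integral_mul_exp {c : ℝ} (hc : 0 < c) :
    ∫ y in Ioi (0 : ℝ), y * Real.exp (-c * y) = 1 / c ^ 2 := by
  have h := Real.integral_rpow_mul_exp_neg_mul_Ioi (a := 2) (r := c) (by norm_num) hc
  have e : ∫ y in Ioi (0 : ℝ), y * Real.exp (-c * y) =
      ∫ t in Ioi (0 : ℝ), t ^ ((2 : ℝ) - 1) * Real.exp (-(c * t)) := by
    apply setIntegral_congr_fun measurableSet_Ioi
    intro y _
    simp only
    rw [show (2 : ℝ) - 1 = 1 by norm_num, Real.rpow_one, neg_mul]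
  rw [e, h, Real.Gamma_two, mul_one]
  rw [show (2 : ℝ) = ((2 : ℕ) : ℝ) by norm_num, Real.rpow_natCast]
  rw [one_div_pow]

lemma int_kap {n : ℝ} (hn : 0 < n) {f : ℝ → ℂ} (hf : ContinuousOn f (Ioi 0)) {A B : ℝ}
    (hb : ∀ y > 0, ‖f y‖ ≤ A + B * y) :
    IntegrableOn (fun y => f y * (kap n y : ℂ)) (Ioi 0) := by
  have hc : 0 < 2 * Real.pi * n := by
    have := Real.pi_pos
    positivity
  have hg : IntegrableOn (fun y : ℝ => A * Real.exp (-(2 * Real.pi * n) * y) +
      B * (y * Real.exp (-(2 * Real.pi * n) * y))) (Ioi 0) :=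
    ((int_exp hc).const_mul A).add ((int_mul_exp hc).const_mul B)
  apply Integrable.mono' hg
  · apply ContinuousOn.aestronglyMeasurable _ measurableSet_Ioi
    apply hf.mul
    exact (Complex.continuous_ofReal.comp (kap_cont n)).continuousOn
  · rw [ae_restrict_iff' measurableSet_Ioi]
    filter_upwards with y hy
    rw [norm_mul, Complex.norm_real, Real.norm_of_nonneg (kap_pos n y).le]
    have h1 := hb y hy
    have h2 := kap_le n y
    have h3 := kap_pos n y
    have h4 := Real.exp_pos (-(2 * Real.pi * n) * y)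
    calc ‖f y‖ * kap n y ≤ (A + B * y) * kap n y := mul_le_mul_of_nonneg_right h1 h3.le
      _ ≤ (A + B * y) * Real.exp (-(2 * Real.pi * n) * y) :=
          mul_le_mul_of_nonneg_left h2 ((norm_nonneg _).trans h1)
      _ = _ := by ring

/-- the denominator -/
noncomputable def Ep (n : ℝ) (u : ℂ) : ℂ := 1 - Complex.exp (-(2 * Real.pi * n * I) * u)

lemma Ep_zero (n : ℝ) : Ep n 0 = 0 := by
  unfold Ep
  simp

lemma hasDerivAt_Ep (n : ℝ) (u : ℂ) :
    HasDerivAt (Ep n) (2 * Real.pi * n * I * Complex.exp (-(2 * Real.pi * n * I) * u)) u := by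
  unfold Ep
  have h1 : HasDerivAt (fun u : ℂ => -(2 * Real.pi * n * I) * u) (-(2 * Real.pi * n * I) * 1) u :=
    (hasDerivAt_id u).const_mul _
  have h2 := h1.cexp.const_sub 1
  have e : 2 * Real.pi * n * I * Complex.exp (-(2 * Real.pi * n * I) * u) =
      -(Complex.exp (-(2 * Real.pi * n * I) * u) * (-(2 * Real.pi * n * I) * 1)) := by ring
  rw [e]
  exact h2

lemma Ep_ne {n : ℝ} (hn : 0 < n) {u : ℂ} (hu : |u.re| ≤ 1 / (2 * n)) (h0 : u ≠ 0) :
    Ep n u ≠ 0 := by
  intro h
  unfold Ep at h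
  have h1 : Complex.exp (-(2 * Real.pi * n * I) * u) = 1 := (sub_eq_zero.mp h).symm
  rw [Complex.exp_eq_one_iff] at h1
  obtain ⟨k, hk⟩ := h1
  have hpi : (Real.pi : ℂ) ≠ 0 := by exact_mod_cast Real.pi_ne_zero
  have h2 : (n : ℂ) * u = -(k : ℂ) := by
    have h3 : (2 * Real.pi * I : ℂ) * (n * u + k) = 0 := by
      linear_combination -hk
    have h4 : (2 * Real.pi * I : ℂ) ≠ 0 := Complex.two_pi_I_ne_zero
    have h5 := (mul_eq_zero.mp h3).resolve_left h4
    linear_combination h5
  have h3 : n * u.re = -(k : ℝ) := by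
    have := congrArg Complex.re h2
    simpa using this
  have h4 : n * u.im = 0 := by
    have := congrArg Complex.im h2
    simpa using this
  have h5 : |(k : ℝ)| ≤ 1 / 2 := by
    have e : |(k : ℝ)| = n * |u.re| := by
      rw [← abs_neg, ← h3, abs_mul, abs_of_pos hn]
    rw [e]
    calc n * |u.re| ≤ n * (1 / (2 * n)) := mul_le_mul_of_nonneg_left hu hn.le
      _ = 1 / 2 := by field_simp
  have h6 : k = 0 := by
    by_contra hk0
    have : (1 : ℤ) ≤ |k| := Int.one_le_abs hk0
    have h7 : (1 : ℝ) ≤ |(k : ℝ)| := by exact_mod_cast this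
    linarith only [h5, h7]
  rw [h6] at h3
  apply h0
  apply Complex.ext
  · have : n * u.re = 0 := by simpa using h3
    simpa using (mul_eq_zero.mp this).resolve_left hn.ne'
  · simpa using (mul_eq_zero.mp h4).resolve_left hn.ne'

lemma dslope_Ep_ne {n : ℝ} (hn : 0 < n) {u : ℂ} (hu : |u.re| ≤ 1 / (2 * n)) :
    dslope (Ep n) 0 u ≠ 0 := by
  by_cases h0 : u = 0
  · rw [h0, dslope_same, (hasDerivAt_Ep n 0).deriv]
    have h1 : (Real.pi : ℂ) ≠ 0 := by exact_mod_cast Real.pi_ne_zero
    have h2 : (n : ℂ) ≠ 0 := by exact_mod_cast hn.ne'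
    simp [h1, h2, Complex.I_ne_zero]
  · rw [dslope_of_ne _ h0, slope_def_field, Ep_zero]
    apply div_ne_zero
    · rw [sub_zero]
      exact Ep_ne hn hu h0
    · rw [sub_zero]
      exact h0

/-- the quotient -/
noncomputable def Vq (n : ℝ) (p : ℂ → ℂ) (u : ℂ) : ℂ := dslope p 0 u / dslope (Ep n) 0 u

lemma Vq_of_ne {n : ℝ} {p : ℂ → ℂ} {u : ℂ} (h0 : u ≠ 0) :
    Vq n p u = (p u - p 0) / Ep n u := by
  unfold Vq
  rw [dslope_of_ne _ h0, dslope_of_ne _ h0, slope_def_field, slope_def_field, Ep_zero]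
  simp only [sub_zero]
  rw [div_div_div_cancel_right₀ h0]

lemma Vq_diff {n : ℝ} (hn : 0 < n) {p : ℂ → ℂ} {Ω : Set ℂ} (hΩ : IsOpen Ω)
    (hsub : ∀ u : ℂ, |u.re| ≤ 1 / (2 * n) → u ∈ Ω) (hp : DifferentiableOn ℂ p Ω) :
    DifferentiableOn ℂ (Vq n p) {u : ℂ | |u.re| ≤ 1 / (2 * n)} := by
  have h0 : (0 : ℂ) ∈ Ω := hsub 0 (by simp; positivity)
  have h1 : DifferentiableOn ℂ (dslope p 0) Ω :=
    (Complex.differentiableOn_dslope (hΩ.mem_nhds h0)).mpr hp
  have h2 : DifferentiableOn ℂ (dslope (Ep n) 0) univ :=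
    (Complex.differentiableOn_dslope univ_mem).mpr
      (fun u _ => (hasDerivAt_Ep n u).differentiableAt.differentiableWithinAt)
  intro u hu
  have hu' : |u.re| ≤ 1 / (2 * n) := hu
  apply DifferentiableWithinAt.div
  · exact (h1 u (hsub u hu')).mono (fun v hv => hsub v hv)
  · exact (h2 u (mem_univ _)).mono (subset_univ _)
  · exact dslope_Ep_ne hn hu'

lemma Ep_side {n : ℝ} (hn : 0 < n) (y : ℝ) :
    Ep n (((1 / (2 * n) : ℝ) : ℂ) + y * I) = ((Real.exp (2 * Real.pi * n * y) + 1 : ℝ) : ℂ) := by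
  unfold Ep
  have hn' : (n : ℂ) ≠ 0 := by exact_mod_cast hn.ne'
  have e : -(2 * Real.pi * n * I : ℂ) * (((1 / (2 * n) : ℝ) : ℂ) + y * I) =
      ((2 * Real.pi * n * y : ℝ) : ℂ) - Real.pi * I := by
    push_cast
    field_simp
    ring_nf
    rw [Complex.I_sq]
    ring
  rw [e, Complex.exp_sub, Complex.exp_pi_mul_I, ← Complex.ofReal_exp]
  push_cast
  ring

lemma Ep_side' {n : ℝ} (hn : 0 < n) (y : ℝ) :
    Ep n (((-(1 / (2 * n)) : ℝ) : ℂ) + y * I) =
      ((Real.exp (2 * Real.pi * n * y) + 1 : ℝ) : ℂ) := by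
  unfold Ep
  have hn' : (n : ℂ) ≠ 0 := by exact_mod_cast hn.ne'
  have e : -(2 * Real.pi * n * I : ℂ) * (((-(1 / (2 * n)) : ℝ) : ℂ) + y * I) =
      ((2 * Real.pi * n * y : ℝ) : ℂ) + Real.pi * I := by
    push_cast
    field_simp
    ring_nf
    rw [Complex.I_sq]
    ring
  rw [e, Complex.exp_add, Complex.exp_pi_mul_I, ← Complex.ofReal_exp]
  push_cast
  ring

lemma Ep_norm_ge (n : ℝ) (u : ℂ) : Real.exp (2 * Real.pi * n * u.im) - 1 ≤ ‖Ep n u‖ := by
  unfold Ep
  have h1 := norm_sub_norm_le (Complex.exp (-(2 * Real.pi * n * I) * u)) 1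
  rw [norm_sub_rev, norm_one, Complex.norm_exp] at h1
  have e : (-(2 * Real.pi * n * I) * u : ℂ).re = 2 * Real.pi * n * u.im := by
    have e2 : (-(2 * Real.pi * n * I) * u : ℂ) = (((-(2 * Real.pi * n) : ℝ) : ℂ) * (I * u)) := by
      push_cast
      ring
    rw [e2, Complex.re_ofReal_mul]
    simp
  rw [e] at h1
  exact h1

/-- the contour integral lemma -/
theorem contour {n : ℝ} (hn : 0 < n) {p : ℂ → ℂ} {Ω : Set ℂ} (hΩ : IsOpen Ω)
    (hsub : ∀ u : ℂ, |u.re| ≤ 1 / (2 * n) → u ∈ Ω) (hp : DifferentiableOn ℂ p Ω) {A B : ℝ}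
    (hb : ∀ u : ℂ, |u.re| ≤ 1 / (2 * n) → ‖p u - p 0‖ ≤ A + B * |u.im|) :
    ∫ x in (-(1 / (2 * n)))..(1 / (2 * n)), Vq n p x =
      -I * ((∫ y in Ioi (0 : ℝ), (p (((1 / (2 * n) : ℝ) : ℂ) + y * I) - p 0) * (kap n y : ℂ)) -
        ∫ y in Ioi (0 : ℝ), (p (((-(1 / (2 * n)) : ℝ) : ℂ) + y * I) - p 0) * (kap n y : ℂ)) := by
  set h : ℝ := 1 / (2 * n) with hh
  have hh0 : 0 < h := by positivity
  have hV := Vq_diff hn hΩ hsub hp
  have hside1 : ∀ y : ℝ, Vq n p ((h : ℂ) + y * I) = (p ((h : ℂ) + y * I) - p 0) *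
      (kap n y : ℂ) := by
    intro y
    rw [Vq_of_ne, Ep_side hn y]
    · unfold kap
      push_cast
      rw [one_div, div_eq_mul_inv]
    · intro h0
      have := congrArg Complex.re h0
      simp at this
      exact hh0.ne' this
  have hside2 : ∀ y : ℝ, Vq n p (((-h : ℝ) : ℂ) + y * I) =
      (p (((-h : ℝ) : ℂ) + y * I) - p 0) * (kap n y : ℂ) := by
    intro y
    rw [Vq_of_ne, Ep_side' hn y]
    · unfold kap
      push_cast
      rw [one_div, div_eq_mul_inv]
    · intro h0
      have := congrArg Complex.re h0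
      simp at this
      exact hh0.ne' this
  -- the rectangle identity
  have hrect : ∀ T : ℝ, 0 ≤ T → (∫ x in (-h)..h, Vq n p x) =
      (∫ x in (-h)..h, Vq n p (x + T * I)) -
        I * (∫ y in (0 : ℝ)..T, Vq n p ((h : ℂ) + y * I)) +
        I * (∫ y in (0 : ℝ)..T, Vq n p (((-h : ℝ) : ℂ) + y * I)) := by
    intro T hT
    have h1 := Complex.integral_boundary_rect_eq_zero_of_differentiableOn (Vq n p)
      (((-h : ℝ) : ℂ)) ((h : ℂ) + T * I) (by
        apply hV.mono
        intro u hu
        rw [Complex.mem_reProdIm] at hu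
        have h2 := hu.1
        simp only [ofReal_re, add_re, mul_re, I_re, mul_zero, ofReal_im, I_im, mul_one, sub_self,
          add_zero] at h2
        rw [uIcc_of_le (by linarith only [hh0])] at h2
        exact abs_le.mpr h2)
    simp only [ofReal_re, add_re, mul_re, I_re, mul_zero, ofReal_im, I_im, mul_one, sub_self,
      add_zero, add_im, mul_im, zero_add, ofReal_zero, zero_mul, smul_eq_mul] at h1
    linear_combination h1
  -- growth
  have hAB : ∀ T : ℝ, 0 ≤ T → 0 ≤ A + B * T := by
    intro T hT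
    have := hb (T * I) (by simp; positivity)
    simp only [mul_im, ofReal_re, I_im, mul_one, ofReal_im, I_re, mul_zero, add_zero,
      abs_of_nonneg hT] at this
    exact (norm_nonneg _).trans this
  have htop : Tendsto (fun T : ℝ => ∫ x in (-h)..h, Vq n p (x + T * I)) atTop (𝓝 0) := by
    have hc : 0 < 2 * Real.pi * n := by
      have := Real.pi_pos
      positivity
    have hlim : Tendsto (fun T : ℝ => (A + B * T) * Real.exp (-(2 * Real.pi * n) * T) * 2 *
        (2 * h)) atTop (𝓝 0) := by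
      have l1 : Tendsto (fun T : ℝ => Real.exp (-(2 * Real.pi * n) * T)) atTop (𝓝 0) := by
        apply Real.tendsto_exp_atBot.comp
        apply Tendsto.const_mul_atTop_of_neg (by linarith only [hc]) tendsto_id
      have l2 : Tendsto (fun T : ℝ => T * Real.exp (-(2 * Real.pi * n) * T)) atTop (𝓝 0) := by
        have := Real.tendsto_pow_mul_exp_neg_atTop_nhds_zero 1
        have l3 : Tendsto (fun T : ℝ => (2 * Real.pi * n) * T) atTop atTop :=
          Tendsto.const_mul_atTop hc tendsto_id
        have l4 := (this.comp l3).const_mul (1 / (2 * Real.pi * n))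
        rw [mul_zero] at l4
        refine l4.congr (fun T => ?_)
        simp only [Function.comp, pow_one]
        rw [neg_mul]
        field_simp
      have l5 := (((l1.const_mul A).add (l2.const_mul B)).mul_const 2).mul_const (2 * h)
      rw [mul_zero, mul_zero, add_zero, zero_mul, zero_mul] at l5
      refine l5.congr (fun T => ?_)
      ring
    apply squeeze_zero_norm' _ hlim
    filter_upwards [eventually_ge_atTop (1 / n)] with T hT
    have hT0 : 0 < T := lt_of_lt_of_le (by positivity) hT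
    have hexp : 2 ≤ Real.exp (2 * Real.pi * n * T) := by
      have h1 : 1 ≤ n * T := by
        rw [div_le_iff₀ hn] at hT
        linarith only [hT]
      have h2 : 1 ≤ 2 * Real.pi * n * T := by
        have := Real.pi_gt_three
        nlinarith only [hn, this, hc, h1]
      have h3 := Real.add_one_le_exp (2 * Real.pi * n * T)
      linarith only [h2, h3]
    have hbd : ∀ x ∈ Set.uIoc (-h) h, ‖Vq n p (x + T * I)‖ ≤
        (A + B * T) * Real.exp (-(2 * Real.pi * n) * T) * 2 := by
      intro x hx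
      rw [uIoc_of_le (by linarith only [hh0])] at hx
      have hxa : |x| ≤ h := abs_le.mpr ⟨hx.1.le, hx.2⟩
      have hne : (x + T * I : ℂ) ≠ 0 := by
        intro h0
        have := congrArg Complex.im h0
        simp at this
        exact hT0.ne' this
      rw [Vq_of_ne hne, norm_div]
      have h1 := hb (x + T * I) (by simpa using hxa)
      have h2 := Ep_norm_ge n (x + T * I)
      have e1 : (x + T * I : ℂ).im = T := by simp
      rw [e1] at h1 h2
      rw [abs_of_pos hT0] at h1
      have h3 : Real.exp (2 * Real.pi * n * T) / 2 ≤ ‖Ep n (x + T * I)‖ := by linarith only [hexp, h2]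
      have h4 : 0 < Real.exp (2 * Real.pi * n * T) / 2 := by positivity
      calc ‖p (x + T * I) - p 0‖ / ‖Ep n (x + T * I)‖ ≤
          (A + B * T) / (Real.exp (2 * Real.pi * n * T) / 2) :=
            div_le_div₀ (hAB T hT0.le) h1 h4 h3
        _ = _ := by
            rw [neg_mul, Real.exp_neg]
            field_simp
    have h1 := intervalIntegral.norm_integral_le_of_norm_le_const hbd
    refine h1.trans (le_of_eq ?_)
    rw [abs_of_pos (by linarith only [hh0])]
    ring
  have hcont1 : ContinuousOn (fun y : ℝ => p ((h : ℂ) + y * I) - p 0) (Ioi 0) := by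
    apply ContinuousOn.sub _ continuousOn_const
    apply hp.continuousOn.comp (by fun_prop)
    intro y _
    apply hsub
    simp [abs_of_pos hh0]
  have hcont2 : ContinuousOn (fun y : ℝ => p (((-h : ℝ) : ℂ) + y * I) - p 0) (Ioi 0) := by
    apply ContinuousOn.sub _ continuousOn_const
    apply hp.continuousOn.comp (by fun_prop)
    intro y _
    apply hsub
    simp [abs_of_pos hh0]
  have hi1 := int_kap hn hcont1 (A := A) (B := B) (by
    intro y hy
    have := hb ((h : ℂ) + y * I) (by simp [abs_of_pos hh0])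
    simpa [abs_of_pos hy] using this)
  have hi2 := int_kap hn hcont2 (A := A) (B := B) (by
    intro y hy
    have := hb (((-h : ℝ) : ℂ) + y * I) (by simp [abs_of_pos hh0])
    simpa [abs_of_pos hy] using this)
  have ht1 := intervalIntegral_tendsto_integral_Ioi 0 hi1 tendsto_id
  have ht2 := intervalIntegral_tendsto_integral_Ioi 0 hi2 tendsto_id
  have hlim := (htop.sub (ht1.const_mul I)).add (ht2.const_mul I)
  have hconst : Tendsto (fun _ : ℝ => ∫ x in (-h)..h, Vq n p x) atTop
      (𝓝 (∫ x in (-h)..h, Vq n p x)) := tendsto_const_nhds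
  have heq := tendsto_nhds_unique_of_eventuallyEq hconst hlim (by
    filter_upwards [eventually_ge_atTop 0] with T hT
    rw [hrect T hT]
    simp only [id]
    congr 2
    · congr 1
      apply intervalIntegral.integral_congr
      intro y _
      exact hside1 y
    · apply intervalIntegral.integral_congr
      intro y _
      exact hside2 y)
  rw [heq]
  ring

end Pool.Agent.Work.MP_b30479_gtS.VOL

end

section

/-!
# The exact discrete primitive of `ph`

`M n w = n F(w) + J n w` satisfies `M(w + 1/(2n)) - M(w - 1/(2n)) = ph w`.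
-/

namespace Pool.Agent.Work.MP_b30479_gtS.VOL

set_option linter.unusedSimpArgs false

open Complex Set MeasureTheory Filter Topology

/-- the correction term -/
noncomputable def J (n : ℝ) (w : ℂ) : ℂ :=
  n * I * ∫ y in Ioi (0 : ℝ), (ph (w + y * I) - ph (w - y * I)) * (kap n y : ℂ)

/-- the discrete primitive -/
noncomputable def M (n : ℝ) (w : ℂ) : ℂ := n * Fh w + J n w

lemma strip_add_I {w : ℂ} (hw : w ∈ strip) (y : ℝ) : w + y * I ∈ strip := by
  refine ⟨?_, ?_⟩
  · simpa using hw.1
  · simpa using hw.2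

lemma strip_sub_I {w : ℂ} (hw : w ∈ strip) (y : ℝ) : w - y * I ∈ strip := by
  refine ⟨?_, ?_⟩
  · simpa using hw.1
  · simpa using hw.2

lemma cont_add_I {w : ℂ} (hw : w ∈ strip) : Continuous (fun y : ℝ => ph (w + y * I)) := by
  rw [continuous_iff_continuousAt]
  intro y
  apply ContinuousAt.comp (g := ph) (f := fun y : ℝ => (w + y * I : ℂ))
  · exact continuousAt_ph (strip_add_I hw y)
  · fun_prop

lemma cont_sub_I {w : ℂ} (hw : w ∈ strip) : Continuous (fun y : ℝ => ph (w - y * I)) := by
  rw [continuous_iff_continuousAt]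
  intro y
  apply ContinuousAt.comp (g := ph) (f := fun y : ℝ => (w - y * I : ℂ))
  · exact continuousAt_ph (strip_sub_I hw y)
  · fun_prop

lemma norm_add_sub_le {w : ℂ} (hw : w ∈ strip) {y : ℝ} (hy : 0 ≤ y) :
    ‖ph (w + y * I) - ph (w - y * I)‖ ≤ 2 * Real.pi / Real.sin (Real.pi * w.re) * y := by
  have h1 := norm_ph_sub_le (strip_sub_I hw y) (w := w + y * I) (by simp)
  refine h1.trans (le_of_eq ?_)
  have e1 : (w - y * I).re = w.re := by simp
  have e2 : (w + y * I).im - (w - y * I).im = 2 * y := by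
    simp
    ring
  rw [e1, e2, abs_of_nonneg (by positivity)]
  ring

lemma J_integrable {n : ℝ} (hn : 0 < n) {w : ℂ} (hw : w ∈ strip) :
    IntegrableOn (fun y : ℝ => (ph (w + y * I) - ph (w - y * I)) * (kap n y : ℂ)) (Ioi 0) :=
  int_kap hn ((cont_add_I hw).sub (cont_sub_I hw)).continuousOn (A := 0)
    (B := 2 * Real.pi / Real.sin (Real.pi * w.re)) (by
      intro y hy
      rw [zero_add]
      exact norm_add_sub_le hw hy.le)

theorem norm_J_le {n : ℝ} (hn : 0 < n) {w : ℂ} (hw : w ∈ strip) :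
    ‖J n w‖ ≤ 1 / (2 * Real.pi * n * Real.sin (Real.pi * w.re)) := by
  have hs := sin_pi_pos hw.1 hw.2
  have hpi := Real.pi_pos
  have hc : 0 < 2 * Real.pi * n := by positivity
  unfold J
  rw [norm_mul, norm_mul, Complex.norm_I, mul_one, Complex.norm_real, Real.norm_of_nonneg hn.le]
  have h1 : ‖∫ y in Ioi (0 : ℝ), (ph (w + y * I) - ph (w - y * I)) * (kap n y : ℂ)‖ ≤
      ∫ y in Ioi (0 : ℝ), (2 * Real.pi / Real.sin (Real.pi * w.re)) *
        (y * Real.exp (-(2 * Real.pi * n) * y)) := by
    apply norm_integral_le_of_norm_le ((int_mul_exp hc).const_mul _)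
    rw [ae_restrict_iff' measurableSet_Ioi]
    filter_upwards with y hy
    have hy' : 0 < y := hy
    rw [norm_mul, Complex.norm_real, Real.norm_of_nonneg (kap_pos n y).le]
    have h2 := norm_add_sub_le hw hy'.le
    calc ‖ph (w + y * I) - ph (w - y * I)‖ * kap n y ≤
        (2 * Real.pi / Real.sin (Real.pi * w.re) * y) * Real.exp (-(2 * Real.pi * n) * y) :=
          mul_le_mul h2 (kap_le n y) (kap_pos n y).le (by positivity)
      _ = _ := by ring
  rw [integral_const_mul, integral_mul_exp hc] at h1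
  calc n * ‖∫ y in Ioi (0 : ℝ), (ph (w + y * I) - ph (w - y * I)) * (kap n y : ℂ)‖ ≤
      n * ((2 * Real.pi / Real.sin (Real.pi * w.re)) * (1 / (2 * Real.pi * n) ^ 2)) :=
        mul_le_mul_of_nonneg_left h1 hn.le
    _ = _ := by
        field_simp

/-- uniform bound up to distance `1/(2n)` from the ends -/
theorem norm_J_le_unif {n : ℝ} (hn : 1 ≤ n) {w : ℂ} (h0 : 1 / (2 * n) ≤ w.re)
    (h1 : w.re ≤ 1 - 1 / (2 * n)) : ‖J n w‖ ≤ 1 / (2 * Real.pi) := by
  have hn0 : 0 < n := by linarith only [hn]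
  have hh : 0 < 1 / (2 * n) := by positivity
  have hw : w ∈ strip := ⟨by linarith only [h0, hh], by linarith only [h1, hh]⟩
  have hpi := Real.pi_pos
  refine (norm_J_le hn0 hw).trans ?_
  have key : ∀ x : ℝ, 1 / (2 * n) ≤ x → x ≤ 1 / 2 → 1 ≤ n * Real.sin (Real.pi * x) := by
    intro x hx hx2
    have hx0 : 0 < x := lt_of_lt_of_le hh hx
    have h2 := Real.mul_le_sin (x := Real.pi * x) (by positivity) (by nlinarith only [h0, h1, hh, hpi, hx2])
    have e : 2 / Real.pi * (Real.pi * x) = 2 * x := by field_simp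
    rw [e] at h2
    have h3 : 1 ≤ n * (2 * x) := by
      rw [div_le_iff₀ (by positivity)] at hx
      linarith only [hx]
    have h4 := mul_le_mul_of_nonneg_left h2 hn0.le
    linarith only [h3, h4]
  have h2 : 1 ≤ n * Real.sin (Real.pi * w.re) := by
    rcases le_total w.re (1 / 2) with h | h
    · exact key w.re h0 h
    · have := key (1 - w.re) (by linarith only [h1]) (by linarith only [h])
      rw [show Real.pi * (1 - w.re) = Real.pi - Real.pi * w.re by ring, Real.sin_pi_sub] at this
      exact this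
  apply div_le_div_of_nonneg_left (by norm_num) (by positivity)
  have h3 : 2 * Real.pi * n * Real.sin (Real.pi * w.re) =
      2 * Real.pi * (n * Real.sin (Real.pi * w.re)) := by ring
  rw [h3]
  have h4 := mul_le_mul_of_nonneg_left h2 (by positivity : 0 ≤ 2 * Real.pi)
  linarith only [h4]

lemma J_one_sub (n : ℝ) (w : ℂ) : J n (1 - w) = -J n w := by
  unfold J
  rw [← mul_neg, ← integral_neg]
  congr 1
  apply integral_congr_ae
  filter_upwards with y
  have e1 : ph (1 - w + y * I) = ph (w - y * I) := by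
    rw [← ph_one_sub]
    congr 1
    ring
  have e2 : ph (1 - w - y * I) = ph (w + y * I) := by
    rw [← ph_one_sub]
    congr 1
    ring
  rw [e1, e2]
  ring

lemma J_conj {n : ℝ} {w : ℂ} (hw : w ∈ strip) :
    J n (starRingEnd ℂ w) = starRingEnd ℂ (J n w) := by
  unfold J
  rw [map_mul, map_mul, Complex.conj_ofReal, Complex.conj_I, ← integral_conj, mul_neg,
    neg_mul, ← mul_neg, ← integral_neg]
  congr 1
  apply integral_congr_ae
  filter_upwards with y
  have e1 : ph (starRingEnd ℂ w + y * I) = starRingEnd ℂ (ph (w - y * I)) := by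
    rw [← ph_conj (strip_sub_I hw y)]
    congr 1
    simp
  have e2 : ph (starRingEnd ℂ w - y * I) = starRingEnd ℂ (ph (w + y * I)) := by
    rw [← ph_conj (strip_add_I hw y)]
    congr 1
    simp
    ring
  rw [e1, e2, map_mul, map_sub, Complex.conj_ofReal]
  ring

lemma M_one_sub (n : ℝ) (w : ℂ) : M n (1 - w) = -M n w := by
  unfold M
  rw [J_one_sub, Fh_one_sub]
  ring

lemma M_conj {n : ℝ} {w : ℂ} (hw : w ∈ strip) :
    M n (starRingEnd ℂ w) = starRingEnd ℂ (M n w) := by
  unfold M
  rw [J_conj hw, Fh_conj hw, map_add, map_mul, Complex.conj_ofReal]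

lemma ofReal_mem_strip {x : ℝ} (h0 : 0 < x) (h1 : x < 1) : (x : ℂ) ∈ strip :=
  ⟨by simpa using h0, by simpa using h1⟩

lemma M_ofReal (n : ℝ) {x : ℝ} (h0 : 0 < x) (h1 : x < 1) : M n x = (((M n x).re : ℝ) : ℂ) := by
  have h := M_conj (n := n) (ofReal_mem_strip h0 h1)
  rw [Complex.conj_ofReal] at h
  exact (Complex.conj_eq_iff_re.mp h.symm).symm

/-- the derivative of `J` -/
noncomputable def J' (n : ℝ) (w : ℂ) : ℂ :=
  n * I * ∫ y in Ioi (0 : ℝ), (ph' (w + y * I) - ph' (w - y * I)) * (kap n y : ℂ)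

theorem hasDerivAt_J {n : ℝ} (hn : 0 < n) {w : ℂ} (hw : w ∈ strip) :
    HasDerivAt (J n) (J' n w) w := by
  have hpi := Real.pi_pos
  have hc : 0 < 2 * Real.pi * n := by positivity
  have hs := sin_pi_pos hw.1 hw.2
  set C : ℝ := Real.pi / Real.sin (Real.pi * w.re) + 1 with hC
  have hs1 : {z : ℂ | z ∈ strip ∧ Real.pi / Real.sin (Real.pi * z.re) < C} ∈ 𝓝 w := by
    have h1 : ContinuousAt (fun z : ℂ => Real.pi / Real.sin (Real.pi * z.re)) w := by
      apply ContinuousAt.div
      · fun_prop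
      · fun_prop
      · exact hs.ne'
    have h2 : ∀ᶠ z in 𝓝 w, Real.pi / Real.sin (Real.pi * z.re) < C :=
      h1.eventually (gt_mem_nhds (by rw [hC]; linarith only []))
    filter_upwards [strip_open.mem_nhds hw, h2] with z hz1 hz2
    exact ⟨hz1, hz2⟩
  have key := hasDerivAt_integral_of_dominated_loc_of_deriv_le
    (μ := volume.restrict (Ioi (0 : ℝ)))
    (F := fun (z : ℂ) (y : ℝ) => (ph (z + y * I) - ph (z - y * I)) * (kap n y : ℂ))
    (F' := fun (z : ℂ) (y : ℝ) => (ph' (z + y * I) - ph' (z - y * I)) * (kap n y : ℂ))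
    (x₀ := w) (s := {z : ℂ | z ∈ strip ∧ Real.pi / Real.sin (Real.pi * z.re) < C})
    (bound := fun y => (2 * C) * Real.exp (-(2 * Real.pi * n) * y)) hs1
    (by
      filter_upwards [strip_open.mem_nhds hw] with z hz
      exact (((cont_add_I hz).sub (cont_sub_I hz)).mul
        (Complex.continuous_ofReal.comp (kap_cont n))).aestronglyMeasurable)
    (J_integrable hn hw)
    (by
      apply Continuous.aestronglyMeasurable
      apply Continuous.mul _ (Complex.continuous_ofReal.comp (kap_cont n))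
      apply Continuous.sub
      · rw [continuous_iff_continuousAt]
        intro y
        apply ContinuousAt.comp (g := ph') (f := fun y : ℝ => (w + y * I : ℂ))
        · exact continuousAt_ph' (strip_add_I hw y)
        · fun_prop
      · rw [continuous_iff_continuousAt]
        intro y
        apply ContinuousAt.comp (g := ph') (f := fun y : ℝ => (w - y * I : ℂ))
        · exact continuousAt_ph' (strip_sub_I hw y)
        · fun_prop)
    (by
      filter_upwards with y z hz
      have h1 := norm_ph'_le (strip_add_I hz.1 y)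
      have h2 := norm_ph'_le (strip_sub_I hz.1 y)
      have e1 : (z + y * I).re = z.re := by simp
      have e2 : (z - y * I).re = z.re := by simp
      rw [e1] at h1
      rw [e2] at h2
      rw [norm_mul, Complex.norm_real, Real.norm_of_nonneg (kap_pos n y).le]
      have h3 : ‖ph' (z + y * I) - ph' (z - y * I)‖ ≤ 2 * C := by
        have := norm_sub_le (ph' (z + y * I)) (ph' (z - y * I))
        linarith only [hz, h1, h2, this, hz.2]
      exact mul_le_mul h3 (kap_le n y) (kap_pos n y).le ((norm_nonneg _).trans h3))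
    ((int_exp hc).const_mul (2 * C))
    (by
      filter_upwards with y z hz
      have h1 : HasDerivAt (fun z : ℂ => ph (z + y * I)) (ph' (z + y * I)) z :=
        (hasDerivAt_ph (strip_add_I hz.1 y)).comp_add_const z _
      have h2 : HasDerivAt (fun z : ℂ => ph (z - y * I)) (ph' (z - y * I)) z :=
        (hasDerivAt_ph (strip_sub_I hz.1 y)).comp_sub_const z _
      exact (h1.sub h2).mul_const _)
  exact key.2.const_mul (n * I : ℂ)

theorem hasDerivAt_M {n : ℝ} (hn : 0 < n) {w : ℂ} (hw : w ∈ strip) :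
    HasDerivAt (M n) (n * ph w + J' n w) w :=
  ((hasDerivAt_Fh hw).const_mul (n : ℂ)).add (hasDerivAt_J hn hw)

theorem differentiableOn_M {n : ℝ} (hn : 0 < n) : DifferentiableOn ℂ (M n) strip :=
  fun _ hz => (hasDerivAt_M hn hz).differentiableAt.differentiableWithinAt

theorem norm_J'_le {n : ℝ} (hn : 0 < n) {w : ℂ} (hw : w ∈ strip) :
    ‖J' n w‖ ≤ 1 / Real.sin (Real.pi * w.re) := by
  have hs := sin_pi_pos hw.1 hw.2
  have hpi := Real.pi_pos
  have hc : 0 < 2 * Real.pi * n := by positivity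
  unfold J'
  rw [norm_mul, norm_mul, Complex.norm_I, mul_one, Complex.norm_real, Real.norm_of_nonneg hn.le]
  have h1 : ‖∫ y in Ioi (0 : ℝ), (ph' (w + y * I) - ph' (w - y * I)) * (kap n y : ℂ)‖ ≤
      ∫ y in Ioi (0 : ℝ), (2 * Real.pi / Real.sin (Real.pi * w.re)) *
        Real.exp (-(2 * Real.pi * n) * y) := by
    apply norm_integral_le_of_norm_le ((int_exp hc).const_mul _)
    filter_upwards with y
    rw [norm_mul, Complex.norm_real, Real.norm_of_nonneg (kap_pos n y).le]
    have h1 := norm_ph'_le (strip_add_I hw y)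
    have h2 := norm_ph'_le (strip_sub_I hw y)
    have e1 : (w + y * I).re = w.re := by simp
    have e2 : (w - y * I).re = w.re := by simp
    rw [e1] at h1
    rw [e2] at h2
    have h3 : ‖ph' (w + y * I) - ph' (w - y * I)‖ ≤
        2 * Real.pi / Real.sin (Real.pi * w.re) := by
      have := norm_sub_le (ph' (w + y * I)) (ph' (w - y * I))
      calc _ ≤ _ := this
        _ ≤ _ := add_le_add h1 h2
        _ = _ := by ring
    exact mul_le_mul h3 (kap_le n y) (kap_pos n y).le (by positivity)
  have h2 : ∫ y in Ioi (0 : ℝ), Real.exp (-(2 * Real.pi * n) * y) = 1 / (2 * Real.pi * n) := by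
    have := integral_exp_mul_Ioi (a := -(2 * Real.pi * n)) (by linarith only [hc]) 0
    rw [this, mul_zero, Real.exp_zero, neg_div_neg_eq]
  rw [integral_const_mul, h2] at h1
  calc n * ‖∫ y in Ioi (0 : ℝ), (ph' (w + y * I) - ph' (w - y * I)) * (kap n y : ℂ)‖ ≤
      n * ((2 * Real.pi / Real.sin (Real.pi * w.re)) * (1 / (2 * Real.pi * n))) :=
        mul_le_mul_of_nonneg_left h1 hn.le
    _ = _ := by
        field_simp

lemma growth {n : ℝ} (hn : 0 < n) {w : ℂ} (h0 : 1 / (2 * n) < w.re)
    (h1 : w.re < 1 - 1 / (2 * n)) :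
    ∃ A B : ℝ, ∀ u : ℂ, |u.re| ≤ 1 / (2 * n) → ‖ph (w + u) - ph w‖ ≤ A + B * |u.im| := by
  have hh : 0 < 1 / (2 * n) := by positivity
  have hK : IsCompact (Icc (-(1 / (2 * n))) (1 / (2 * n))) := isCompact_Icc
  have hmem : ∀ x ∈ Icc (-(1 / (2 * n))) (1 / (2 * n)), (w + (x : ℂ)) ∈ strip := by
    intro x hx
    refine ⟨?_, ?_⟩
    · simp only [add_re, ofReal_re]
      linarith only [h0, hx, hx.1]
    · simp only [add_re, ofReal_re]
      linarith only [h1, hx, hx.2]
  have hc1 : ContinuousOn (fun x : ℝ => ph (w + (x : ℂ)) - ph w)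
      (Icc (-(1 / (2 * n))) (1 / (2 * n))) := by
    intro x hx
    apply ContinuousAt.continuousWithinAt
    apply ContinuousAt.sub _ continuousAt_const
    apply ContinuousAt.comp (g := ph) (f := fun x : ℝ => (w + x : ℂ))
    · exact continuousAt_ph (hmem x hx)
    · fun_prop
  have hc2 : ContinuousOn (fun x : ℝ => Real.pi / Real.sin (Real.pi * (w.re + x)))
      (Icc (-(1 / (2 * n))) (1 / (2 * n))) := by
    intro x hx
    apply ContinuousAt.continuousWithinAt
    apply ContinuousAt.div
    · fun_prop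
    · fun_prop
    · have := hmem x hx
      have h2 := sin_pi_pos this.1 this.2
      simp only [add_re, ofReal_re] at h2
      exact h2.ne'
  obtain ⟨A, hA⟩ := hK.exists_bound_of_continuousOn hc1
  obtain ⟨B, hB⟩ := hK.exists_bound_of_continuousOn hc2
  refine ⟨A, B, fun u hu => ?_⟩
  have hx : u.re ∈ Icc (-(1 / (2 * n))) (1 / (2 * n)) := abs_le.mp hu
  have h2 := hA _ hx
  have h3 := norm_ph_sub_le (hmem _ hx) (w := w + u) (by simp)
  have e1 : (w + (u.re : ℂ)).re = w.re + u.re := by simp
  have e2 : (w + u).im - (w + (u.re : ℂ)).im = u.im := by simp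
  rw [e1, e2] at h3
  have h4 : Real.pi / Real.sin (Real.pi * (w.re + u.re)) ≤ B :=
    (le_abs_self _).trans (hB _ hx)
  have h5 : ‖ph (w + u) - ph w‖ ≤ ‖ph (w + u) - ph (w + (u.re : ℂ))‖ +
      ‖ph (w + (u.re : ℂ)) - ph w‖ := by
    have e3 : ph (w + u) - ph w = (ph (w + u) - ph (w + (u.re : ℂ))) +
      (ph (w + (u.re : ℂ)) - ph w) := by ring
    rw [e3]
    exact norm_add_le _ _
  have h6 := mul_le_mul_of_nonneg_right h4 (abs_nonneg u.im)
  linarith only [h2, h3, h5, h6]

/-- the exact difference equation -/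
theorem M_step {n : ℝ} (hn : 0 < n) {w : ℂ} (h0 : 1 / (2 * n) < w.re)
    (h1 : w.re < 1 - 1 / (2 * n)) :
    M n (w + ((1 / (2 * n) : ℝ) : ℂ)) - M n (w - ((1 / (2 * n) : ℝ) : ℂ)) = ph w := by
  have hh : 0 < 1 / (2 * n) := by positivity
  set h : ℝ := 1 / (2 * n) with hhd
  have hws : w ∈ strip := ⟨by linarith only [h0, hh], by linarith only [h1, hh]⟩
  have hwp : w + (h : ℂ) ∈ strip := by
    refine ⟨?_, ?_⟩
    · simp only [add_re, ofReal_re]
      linarith only [h0, hh]
    · simp only [add_re, ofReal_re]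
      linarith only [h1]
  have hwm : w - (h : ℂ) ∈ strip := by
    refine ⟨?_, ?_⟩
    · simp only [sub_re, ofReal_re]
      linarith only [h0]
    · simp only [sub_re, ofReal_re]
      linarith only [h1, hh]
  obtain ⟨A, B, hAB⟩ := growth hn h0 h1
  -- first contour
  have c1 := contour hn (p := fun u => ph (w + u)) (Ω := {u | w + u ∈ strip})
    (strip_open.preimage (by fun_prop))
    (by
      intro u hu
      rw [abs_le] at hu
      refine ⟨?_, ?_⟩
      · simp only [add_re]
        linarith only [h0, hu, hu.1]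
      · simp only [add_re]
        linarith only [h1, hu, hu.2])
    (by
      intro u hu
      exact ((hasDerivAt_ph hu).comp_const_add w u).differentiableAt.differentiableWithinAt)
    (A := A) (B := B) (by
      intro u hu
      have := hAB u hu
      simpa using this)
  have c2 := contour hn (p := fun u => ph (w - u)) (Ω := {u | w - u ∈ strip})
    (strip_open.preimage (by fun_prop))
    (by
      intro u hu
      rw [abs_le] at hu
      refine ⟨?_, ?_⟩
      · simp only [sub_re]
        linarith only [h0, hu, hu.2]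
      · simp only [sub_re]
        linarith only [h1, hu, hu.1])
    (by
      intro u hu
      exact ((hasDerivAt_ph hu).comp_const_sub w u).differentiableAt.differentiableWithinAt)
    (A := A) (B := B) (by
      intro u hu
      have := hAB (-u) (by simpa using hu)
      simpa [sub_eq_add_neg] using this)
  rw [← hhd] at c1 c2
  simp only [add_zero, sub_zero] at c1 c2
  -- the pieces
  have i1 : IntegrableOn (fun y : ℝ => ph (w + h + y * I) * (kap n y : ℂ)) (Ioi 0) := by
    apply int_kap hn (cont_add_I hwp).continuousOn (A := ‖ph (w + h)‖)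
      (B := Real.pi / Real.sin (Real.pi * (w + h).re))
    intro y hy
    have h2 := norm_ph_sub_le hwp (w := w + h + y * I) (by simp)
    have e1 : (w + h + y * I : ℂ).im - (w + h).im = y := by simp
    rw [e1, abs_of_pos hy] at h2
    have h3 := norm_sub_norm_le (ph (w + h + y * I)) (ph (w + h))
    linarith only [h2, h3]
  have i2 : IntegrableOn (fun y : ℝ => ph (w + h - y * I) * (kap n y : ℂ)) (Ioi 0) := by
    apply int_kap hn (cont_sub_I hwp).continuousOn (A := ‖ph (w + h)‖)
      (B := Real.pi / Real.sin (Real.pi * (w + h).re))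
    intro y hy
    have h2 := norm_ph_sub_le hwp (w := w + h - y * I) (by simp)
    have e1 : (w + h - y * I : ℂ).im - (w + h).im = -y := by simp
    rw [e1, abs_neg, abs_of_pos hy] at h2
    have h3 := norm_sub_norm_le (ph (w + h - y * I)) (ph (w + h))
    linarith only [h2, h3]
  have i3 : IntegrableOn (fun y : ℝ => ph (w - h + y * I) * (kap n y : ℂ)) (Ioi 0) := by
    apply int_kap hn (cont_add_I hwm).continuousOn (A := ‖ph (w - h)‖)
      (B := Real.pi / Real.sin (Real.pi * (w - h).re))
    intro y hy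
    have h2 := norm_ph_sub_le hwm (w := w - h + y * I) (by simp)
    have e1 : (w - h + y * I : ℂ).im - (w - h).im = y := by simp
    rw [e1, abs_of_pos hy] at h2
    have h3 := norm_sub_norm_le (ph (w - h + y * I)) (ph (w - h))
    linarith only [h2, h3]
  have i4 : IntegrableOn (fun y : ℝ => ph (w - h - y * I) * (kap n y : ℂ)) (Ioi 0) := by
    apply int_kap hn (cont_sub_I hwm).continuousOn (A := ‖ph (w - h)‖)
      (B := Real.pi / Real.sin (Real.pi * (w - h).re))
    intro y hy
    have h2 := norm_ph_sub_le hwm (w := w - h - y * I) (by simp)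
    have e1 : (w - h - y * I : ℂ).im - (w - h).im = -y := by simp
    rw [e1, abs_neg, abs_of_pos hy] at h2
    have h3 := norm_sub_norm_le (ph (w - h - y * I)) (ph (w - h))
    linarith only [h2, h3]
  have i5 : IntegrableOn (fun y : ℝ => ph w * (kap n y : ℂ)) (Ioi 0) := by
    apply int_kap hn continuousOn_const (A := ‖ph w‖) (B := 0)
    intro y _
    simp
  -- evaluate the four integrals in the contour formulas
  have s1 : ∫ y in Ioi (0 : ℝ), (ph (w + ((h : ℂ) + y * I)) - ph w) * (kap n y : ℂ) =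
      (∫ y in Ioi (0 : ℝ), ph (w + h + y * I) * (kap n y : ℂ)) -
        ∫ y in Ioi (0 : ℝ), ph w * (kap n y : ℂ) := by
    rw [← integral_sub i1 i5]
    apply integral_congr_ae
    filter_upwards with y
    rw [add_assoc]
    ring
  have s2 : ∫ y in Ioi (0 : ℝ), (ph (w + (((-h : ℝ) : ℂ) + y * I)) - ph w) * (kap n y : ℂ) =
      (∫ y in Ioi (0 : ℝ), ph (w - h + y * I) * (kap n y : ℂ)) -
        ∫ y in Ioi (0 : ℝ), ph w * (kap n y : ℂ) := by
    rw [← integral_sub i3 i5]
    apply integral_congr_ae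
    filter_upwards with y
    have e : w + (((-h : ℝ) : ℂ) + y * I) = w - h + y * I := by
      push_cast
      ring
    rw [e]
    ring
  have s3 : ∫ y in Ioi (0 : ℝ), (ph (w - ((h : ℂ) + y * I)) - ph w) * (kap n y : ℂ) =
      (∫ y in Ioi (0 : ℝ), ph (w - h - y * I) * (kap n y : ℂ)) -
        ∫ y in Ioi (0 : ℝ), ph w * (kap n y : ℂ) := by
    rw [← integral_sub i4 i5]
    apply integral_congr_ae
    filter_upwards with y
    have e : w - ((h : ℂ) + y * I) = w - h - y * I := by ring
    rw [e]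
    ring
  have s4 : ∫ y in Ioi (0 : ℝ), (ph (w - (((-h : ℝ) : ℂ) + y * I)) - ph w) * (kap n y : ℂ) =
      (∫ y in Ioi (0 : ℝ), ph (w + h - y * I) * (kap n y : ℂ)) -
        ∫ y in Ioi (0 : ℝ), ph w * (kap n y : ℂ) := by
    rw [← integral_sub i2 i5]
    apply integral_congr_ae
    filter_upwards with y
    have e : w - (((-h : ℝ) : ℂ) + y * I) = w + h - y * I := by
      push_cast
      ring
    rw [e]
    ring
  rw [s1, s2] at c1
  rw [s3, s4] at c2
  -- the two J values
  have j1 : J n (w + h) = n * I * ((∫ y in Ioi (0 : ℝ), ph (w + h + y * I) * (kap n y : ℂ)) -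
      ∫ y in Ioi (0 : ℝ), ph (w + h - y * I) * (kap n y : ℂ)) := by
    unfold J
    rw [← integral_sub i1 i2]
    congr 1
    apply integral_congr_ae
    filter_upwards with y
    ring
  have j2 : J n (w - h) = n * I * ((∫ y in Ioi (0 : ℝ), ph (w - h + y * I) * (kap n y : ℂ)) -
      ∫ y in Ioi (0 : ℝ), ph (w - h - y * I) * (kap n y : ℂ)) := by
    unfold J
    rw [← integral_sub i3 i4]
    congr 1
    apply integral_congr_ae
    filter_upwards with y
    ring
  -- the sum of the two real integrals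
  have hreal : (∫ x in (-h)..h, Vq n (fun u => ph (w + u)) x) +
      (∫ x in (-h)..h, Vq n (fun u => ph (w - u)) x) =
      Fh (w + h) - Fh (w - h) - 2 * h * ph w := by
    have e1 : (∫ x in (-h)..h, Vq n (fun u => ph (w - u)) x) =
        ∫ x in (-h)..h, Vq n (fun u => ph (w - u)) ((-x : ℝ) : ℂ) := by
      rw [intervalIntegral.integral_comp_neg (fun x : ℝ => Vq n (fun u => ph (w - u)) (x : ℂ))]
      simp
    have hcontV : ∀ (p : ℂ → ℂ) (Ω : Set ℂ), IsOpen Ω → (∀ u : ℂ, |u.re| ≤ 1 / (2 * n) → u ∈ Ω) →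
        DifferentiableOn ℂ p Ω → ContinuousOn (fun x : ℝ => Vq n p x) (uIcc (-h) h) := by
      intro p Ω hΩ hsub hp
      apply (Vq_diff hn hΩ hsub hp).continuousOn.comp (by fun_prop)
      intro x hx
      rw [uIcc_of_le (by linarith only [hh])] at hx
      have : |x| ≤ h := abs_le.mpr hx
      change |((x : ℝ) : ℂ).re| ≤ 1 / (2 * n)
      rw [ofReal_re, ← hhd]
      exact this
    have k1 : IntervalIntegrable (fun x : ℝ => Vq n (fun u => ph (w + u)) x) volume (-h) h := by
      apply ContinuousOn.intervalIntegrable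
      apply hcontV _ {u | w + u ∈ strip} (strip_open.preimage (by fun_prop))
      · intro u hu
        rw [abs_le] at hu
        refine ⟨?_, ?_⟩
        · simp only [add_re]
          linarith only [h0, hu, hu.1]
        · simp only [add_re]
          linarith only [h1, hu, hu.2]
      · intro u hu
        exact ((hasDerivAt_ph hu).comp_const_add w u).differentiableAt.differentiableWithinAt
    have k2 : IntervalIntegrable (fun x : ℝ => Vq n (fun u => ph (w - u)) ((-x : ℝ) : ℂ))
        volume (-h) h := by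
      apply ContinuousOn.intervalIntegrable
      have := hcontV (fun u => ph (w - u)) {u | w - u ∈ strip} (strip_open.preimage (by fun_prop))
        (by
          intro u hu
          rw [abs_le] at hu
          refine ⟨?_, ?_⟩
          · simp only [sub_re]
            linarith only [h0, hu, hu.2]
          · simp only [sub_re]
            linarith only [h1, hu, hu.1])
        (by
          intro u hu
          exact ((hasDerivAt_ph hu).comp_const_sub w u).differentiableAt.differentiableWithinAt)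
      apply this.comp (by fun_prop)
      intro x hx
      rw [uIcc_of_le (by linarith only [hh])] at hx ⊢
      exact ⟨by linarith only [hx, hx.2], by linarith only [hx, hx.1]⟩
    rw [e1, ← intervalIntegral.integral_add k1 k2]
    have e2 : ∫ x in (-h)..h, (Vq n (fun u => ph (w + u)) x +
        Vq n (fun u => ph (w - u)) ((-x : ℝ) : ℂ)) = ∫ x in (-h)..h, (ph (w + x) - ph w) := by
      apply intervalIntegral.integral_congr_ae
      have h0' : ∀ᵐ x : ℝ, x ≠ 0 := by
        simp [ae_iff, measure_singleton]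
      filter_upwards [h0'] with x hx0 hx
      rw [uIoc_of_le (by linarith only [hh])] at hx
      have hxc : (x : ℂ) ≠ 0 := by exact_mod_cast hx0
      have hxn : ((-x : ℝ) : ℂ) ≠ 0 := by
        push_cast
        exact neg_ne_zero.mpr hxc
      rw [Vq_of_ne hxc, Vq_of_ne hxn]
      simp only [add_zero, sub_zero]
      have e3 : w - ((-x : ℝ) : ℂ) = w + x := by
        push_cast
        ring
      rw [e3]
      have n1 : Ep n x ≠ 0 := by
        apply Ep_ne hn _ hxc
        rw [ofReal_re, ← hhd]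
        exact abs_le.mpr ⟨hx.1.le, hx.2⟩
      have n2 : Ep n ((-x : ℝ) : ℂ) ≠ 0 := by
        apply Ep_ne hn _ hxn
        rw [ofReal_re, abs_neg, ← hhd]
        exact abs_le.mpr ⟨hx.1.le, hx.2⟩
      have e4 : 1 / Ep n x + 1 / Ep n ((-x : ℝ) : ℂ) = 1 := by
        rw [div_add_div _ _ n1 n2, div_eq_one_iff_eq (mul_ne_zero n1 n2)]
        unfold Ep
        have e5 : Complex.exp (-(2 * Real.pi * n * I) * x) *
            Complex.exp (-(2 * Real.pi * n * I) * ((-x : ℝ) : ℂ)) = 1 := by
          rw [← Complex.exp_add, ← Complex.exp_zero]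
          congr 1
          push_cast
          ring
        linear_combination -e5
      rw [div_eq_mul_one_div, div_eq_mul_one_div (ph (w + x) - ph w) (Ep n ((-x : ℝ) : ℂ)),
        ← mul_add, e4, mul_one]
    have e3 : ∫ x in (-h)..h, (ph (w + x) - ph w) = Fh (w + h) - Fh (w - h) - 2 * h * ph w := by
      have hd : ∀ x ∈ uIcc (-h) h, HasDerivAt (fun x : ℝ => Fh (w + x) - x * ph w)
          (ph (w + x) - ph w) x := by
        intro x hx
        rw [uIcc_of_le (by linarith only [hh])] at hx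
        have hm : w + (x : ℂ) ∈ strip := by
          refine ⟨?_, ?_⟩
          · simp only [add_re, ofReal_re]
            linarith only [h0, hx, hx.1]
          · simp only [add_re, ofReal_re]
            linarith only [h1, hx, hx.2]
        have hx1 : HasDerivAt (fun t : ℝ => ((t : ℝ) : ℂ)) 1 x := Complex.ofRealCLM.hasDerivAt
        have hx2 : HasDerivAt (fun t : ℝ => w + (t : ℂ)) 1 x := hx1.const_add w
        have hx3 := (hasDerivAt_Fh hm).comp_of_eq x hx2 rfl
        have hx4 := hx3.fun_sub (hx1.mul_const (ph w))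
        simpa using hx4
      have hi : IntervalIntegrable (fun x : ℝ => ph (w + x) - ph w) volume (-h) h := by
        apply ContinuousOn.intervalIntegrable
        intro x hx
        rw [uIcc_of_le (by linarith only [hh])] at hx
        have hm : w + (x : ℂ) ∈ strip := by
          refine ⟨?_, ?_⟩
          · simp only [add_re, ofReal_re]
            linarith only [h0, hx, hx.1]
          · simp only [add_re, ofReal_re]
            linarith only [h1, hx, hx.2]
        apply ContinuousAt.continuousWithinAt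
        apply ContinuousAt.sub _ continuousAt_const
        apply ContinuousAt.comp (g := ph) (f := fun x : ℝ => (w + x : ℂ))
        · exact continuousAt_ph hm
        · fun_prop
      rw [intervalIntegral.integral_eq_sub_of_hasDerivAt hd hi]
      push_cast
      rw [← sub_eq_add_neg]
      ring
    rw [e2, e3]
  rw [c1, c2] at hreal
  unfold M
  rw [j1, j2]
  have hnh : (n : ℂ) * (2 * h) = 1 := by
    rw [hhd]
    push_cast
    have : (n : ℂ) ≠ 0 := by exact_mod_cast hn.ne'
    field_simp
  linear_combination (-(n : ℂ)) * hreal + ph w * hnh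

end Pool.Agent.Work.MP_b30479_gtS.VOL

end
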