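import Pool.Agent.Work.MP_b30479_gt.TBS.TB.Tt
import Pool.Agent.Work.MP_b30479_gt.TBS.VOL.Ph
import Pool.Agent.Work.MP_b30479_gt.TBS.LT.Defs

section

/-!
# Products of sines through the discrete primitive
-/

namespace Pool.Agent.Work.MP_b30479_gtS.VOL

open Complex Set Finset AX

/-- products of `2 sin` along an arithmetic progression of step `1/n` -/
theorem prod_two_sin {n : ℝ} (hn : 0 < n) (ζ : ℂ) (j d : ℕ)
    (h0 : 0 < ((j : ℝ) + 1 / 2) / n + ζ.re) (h1 : ((j : ℝ) + d + 1 / 2) / n + ζ.re < 1) :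
    ∏ l ∈ range d, 2 * Complex.sin (Real.pi * (((j : ℂ) + l + 1) / n + ζ)) =
      Complex.exp (M n (((j : ℂ) + d + 1 / 2) / n + ζ) - M n (((j : ℂ) + 1 / 2) / n + ζ)) := by
  have hnc : (n : ℂ) ≠ 0 := by exact_mod_cast hn.ne'
  induction d with
  | zero => simp
  | succ d ih =>
    have h1' : ((j : ℝ) + d + 1 / 2) / n + ζ.re < 1 := by
      refine lt_of_le_of_lt ?_ h1
      push_cast
      gcongr
      linarith only []
    rw [prod_range_succ, ih h1']
    set w : ℂ := ((j : ℂ) + d + 1) / n + ζ with hw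
    have hre : w.re = ((j : ℝ) + d + 1) / n + ζ.re := by
      have e : w = ((((j : ℝ) + d + 1) / n : ℝ) : ℂ) + ζ := by
        rw [hw]
        push_cast
        ring
      rw [e, add_re, ofReal_re]
    have hd : (0 : ℝ) ≤ d := Nat.cast_nonneg d
    have hw0 : 1 / (2 * n) < w.re := by
      rw [hre]
      have e1 : ((j : ℝ) + d + 1) / n = ((j : ℝ) + 1 / 2) / n + d / n + 1 / (2 * n) := by
        field_simp
        ring
      have h2 : 0 ≤ (d : ℝ) / n := by positivity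
      rw [e1]
      linarith only [h0, h2]
    have hw1 : w.re < 1 - 1 / (2 * n) := by
      rw [hre]
      have e1 : ((j : ℝ) + (d + 1 : ℕ) + 1 / 2) / n = ((j : ℝ) + d + 1) / n + 1 / (2 * n) := by
        push_cast
        field_simp
        ring
      rw [e1] at h1
      linarith only [h1]
    have hs := M_step hn hw0 hw1
    have hws : w ∈ strip := by
      have : 0 < 1 / (2 * n) := by positivity
      exact ⟨by linarith only [hw0, this], by linarith only [hw1, this]⟩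
    have e2 : w + ((1 / (2 * n) : ℝ) : ℂ) = ((j : ℂ) + (d + 1 : ℕ) + 1 / 2) / n + ζ := by
      rw [hw]
      push_cast
      field_simp
      ring
    have e3 : w - ((1 / (2 * n) : ℝ) : ℂ) = ((j : ℂ) + d + 1 / 2) / n + ζ := by
      rw [hw]
      push_cast
      field_simp
      ring
    rw [e2, e3] at hs
    rw [← exp_ph hws, ← hs, ← Complex.exp_add]
    congr 1
    ring

/-- the real value of the primitive at the half-integer points -/
noncomputable def mR (n : ℕ) (m : ℝ) : ℝ := (M n (((m + 1 / 2) / n : ℝ) : ℂ)).re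

lemma M_half_pt {n : ℕ} {m : ℝ} (h0 : -(1 / 2) < m) (h1 : m + 1 / 2 < n) :
    M n (((m + 1 / 2) / n : ℝ) : ℂ) = ((mR n m : ℝ) : ℂ) := by
  have hn : (0 : ℝ) < n := by linarith only [h0, h1]
  apply M_ofReal
  · apply div_pos _ hn
    linarith only [h0]
  · rw [div_lt_one hn]
    exact h1

lemma mR_refl {n : ℕ} (hn : 0 < n) (m : ℝ) : mR n (n - 1 - m) = -mR n m := by
  unfold mR
  have hn' : (n : ℝ) ≠ 0 := by exact_mod_cast hn.ne'
  have e : (((((n : ℝ) - 1 - m + 1 / 2) / n : ℝ)) : ℂ) = 1 - ((((m + 1 / 2) / n : ℝ)) : ℂ) := by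
    have e1 : ((n : ℝ) - 1 - m + 1 / 2) / n = 1 - (m + 1 / 2) / n := by
      field_simp
      ring
    rw [e1]
    push_cast
    ring
  rw [e]
  have h := M_one_sub n ((((m + 1 / 2) / n : ℝ)) : ℂ)
  have h2 := congrArg Complex.re h
  simpa using h2

lemma fS_eq_exp_sub {n m : ℕ} (hm : m < n) : fS n m = Real.exp (mR n m - mR n 0) := by
  have hn : 0 < n := by omega
  have hn' : (0 : ℝ) < n := by exact_mod_cast hn
  have hm' : (m : ℝ) + 1 ≤ n := by exact_mod_cast hm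
  have h := prod_two_sin hn' 0 0 m (by
      simp only [zero_re, add_zero, Nat.cast_zero, zero_add]
      positivity) (by
      simp only [zero_re, add_zero, Nat.cast_zero, zero_add]
      rw [div_lt_one hn']
      linarith only [hm'])
  have e1 : (((0 : ℕ) : ℂ) + (m : ℂ) + 1 / 2) / ((n : ℝ) : ℂ) + 0 =
      ((((m : ℝ) + 1 / 2) / n : ℝ) : ℂ) := by
    push_cast
    ring
  have e2 : (((0 : ℕ) : ℂ) + 1 / 2) / ((n : ℝ) : ℂ) + 0 =
      ((((0 : ℝ) + 1 / 2) / n : ℝ) : ℂ) := by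
    push_cast
    ring
  rw [e1, e2, M_half_pt (by have := Nat.cast_nonneg (α := ℝ) m; linarith only []) (by linarith only [hm']),
    M_half_pt (by norm_num) (by
      have : (1 : ℝ) ≤ n := by exact_mod_cast hn
      linarith only [hn', hm']), ← Complex.ofReal_sub, ← Complex.ofReal_exp] at h
  have h3 : ((fS n m : ℝ) : ℂ) = ((Real.exp (mR n m - mR n 0) : ℝ) : ℂ) := by
    rw [← h]
    unfold fS
    rw [Complex.ofReal_prod]
    apply Finset.prod_congr rfl
    intro l _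
    push_cast
    congr 2
    ring
  exact_mod_cast h3

lemma exp_neg_mR_zero {n : ℕ} (hn : 0 < n) : Real.exp (-mR n 0) = √(n : ℝ) := by
  have h1 := fS_eq_exp_sub (n := n) (m := n - 1) (by omega)
  have h2 := fS_refl (n := n) (m := 0) hn
  have h3 : fS n 0 = 1 := by simp [fS]
  rw [h3, one_mul, Nat.sub_zero] at h2
  rw [h2] at h1
  have h4 : mR n ((n - 1 : ℕ) : ℝ) = -mR n 0 := by
    have := mR_refl hn 0
    rw [Nat.cast_sub (by omega), Nat.cast_one, ← this]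
    congr 1
    ring
  rw [h4] at h1
  have h5 : (n : ℝ) = Real.exp (-mR n 0) ^ 2 := by
    rw [h1, ← Real.exp_nat_mul]
    congr 1
    push_cast
    ring
  rw [h5, Real.sqrt_sq (Real.exp_pos _).le]

/-- the exact formula `f(m) = √n exp(M((m+1/2)/n))` -/
theorem fS_eq {n m : ℕ} (hm : m < n) : fS n m = √(n : ℝ) * Real.exp (mR n m) := by
  rw [fS_eq_exp_sub hm, sub_eq_add_neg, Real.exp_add, exp_neg_mR_zero (by omega), mul_comm]

/-- complex form -/
theorem fS_eq_cexp {n m : ℕ} (hm : m < n) :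
    ((fS n m : ℝ) : ℂ) = ((√(n : ℝ) : ℝ) : ℂ) * Complex.exp (M n ((((m : ℝ) + 1 / 2) / n : ℝ) : ℂ)) := by
  have hm' : (m : ℝ) + 1 ≤ n := by exact_mod_cast hm
  rw [fS_eq hm, M_half_pt (by have := Nat.cast_nonneg (α := ℝ) m; linarith only []) (by linarith only [hm'])]
  push_cast
  rfl

/-- `f(k)/f(j)` as an exponential -/
theorem fS_div {n j k : ℕ} (hj : j < n) (hk : k < n) :
    fS n k / fS n j = Real.exp (mR n k - mR n j) := by
  have hs : 0 < √(n : ℝ) := Real.sqrt_pos.mpr (by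
    have : 0 < n := by omega
    exact_mod_cast this)
  rw [fS_eq hj, fS_eq hk, Real.exp_sub, mul_div_mul_left _ _ hs.ne']

end Pool.Agent.Work.MP_b30479_gtS.VOL

end

section

/-!
# The interpolation `Pn` of `f(k) = ∏_{l ≤ k} 2 sin(π l / n)`

`Pn n w` is holomorphic on `-1/n < Re w < 2 + 1/(2n)` and `Pn n (k/n) = fS n k`.
-/

namespace Pool.Agent.Work.MP_b30479_gtS.G2

open Finset VOL AX Complex

/-! ### the product of sines -/

theorem two_sin_exp (z : ℂ) : 2 * Complex.sin (Real.pi * z) =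
    I * cexp (-(Real.pi * z * I)) * (1 - cexp (2 * Real.pi * I * z)) := by
  have h2 : cexp (-(Real.pi * z * I)) * cexp (2 * Real.pi * I * z) = cexp (Real.pi * z * I) := by
    rw [← Complex.exp_add]
    congr 1
    ring
  rw [Complex.sin, mul_sub, mul_one, mul_assoc I, h2,
    show -(Real.pi * z) * I = -(Real.pi * z * I) by ring]
  ring

theorem prod_one_sub_root {n : ℕ} (hn : 0 < n) (x : ℂ) :
    ∏ j ∈ range n, (1 - x * cexp (2 * Real.pi * I * (j / n))) = 1 - x ^ n := by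
  have hn' : (n : ℂ) ≠ 0 := by exact_mod_cast hn.ne'
  have hp : IsPrimitiveRoot (cexp (2 * Real.pi * I / n)) n :=
    Complex.isPrimitiveRoot_exp n hn.ne'
  have hcard : Polynomial.nthRootsFinset n (1 : ℂ) =
      (range n).image fun j => cexp (2 * Real.pi * I / n) ^ j := by
    symm
    apply Finset.eq_of_subset_of_card_le
    · intro z hz
      obtain ⟨j, hj, rfl⟩ := Finset.mem_image.1 hz
      rw [Polynomial.mem_nthRootsFinset hn, ← pow_mul, mul_comm j n, pow_mul, hp.pow_eq_one, one_pow]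
    · rw [hp.card_nthRootsFinset, Finset.card_image_of_injOn, card_range]
      intro a ha b hb hab
      exact hp.pow_inj (mem_range.1 ha) (mem_range.1 hb) hab
  have h1 := hp.pow_sub_pow_eq_prod_sub_mul (1 : ℂ) x hn
  rw [one_pow, hcard, Finset.prod_image (fun a ha b hb hab =>
    hp.pow_inj (mem_range.1 ha) (mem_range.1 hb) hab)] at h1
  rw [h1]
  refine Finset.prod_congr rfl fun j _ => ?_
  rw [← Complex.exp_nat_mul, mul_comm x]
  congr 3
  field_simp

/-- `∏_{j<n} 2 sin π(u + j/n) = 2 sin(π n u)` -/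
theorem prod_two_sin_full {n : ℕ} (hn : 0 < n) (u : ℂ) :
    ∏ j ∈ range n, 2 * Complex.sin (Real.pi * (u + j / n)) = 2 * Complex.sin (Real.pi * (n * u)) := by
  have hn' : (n : ℂ) ≠ 0 := by exact_mod_cast hn.ne'
  have h1 : ∀ j ∈ range n, 2 * Complex.sin (Real.pi * (u + j / n)) =
      (I * cexp (-(Real.pi * u * I)) * cexp (-(Real.pi * (j / n) * I))) *
        (1 - cexp (2 * Real.pi * I * u) * cexp (2 * Real.pi * I * (j / n))) := by
    intro j _
    rw [two_sin_exp, mul_assoc I (cexp (-(Real.pi * u * I))), ← Complex.exp_add, ← Complex.exp_add]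
    congr 3
    · ring
    · ring
  rw [Finset.prod_congr rfl h1, Finset.prod_mul_distrib, prod_one_sub_root hn, two_sin_exp,
    ← Complex.exp_nat_mul, show (n : ℂ) * (2 * Real.pi * I * u) = 2 * Real.pi * I * (n * u) by ring]
  congr 1
  have h2 : ∀ m : ℕ, ∏ j ∈ range m, (I * cexp (-(Real.pi * u * I)) * cexp (-(Real.pi * (j / n) * I)))
      = I ^ m * cexp (-(Real.pi * (m * u) * I)) *
        cexp (-(Real.pi * (m * (m - 1) / (2 * n)) * I)) := by
    intro m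
    induction m with
    | zero => simp
    | succ m ih =>
      rw [Finset.prod_range_succ, ih]
      have e : ∀ a b c d e f g : ℂ, a + b + (e + f) = c + d → g * cexp a * cexp b * (I * cexp e * cexp f)
          = (g * I) * cexp c * cexp d := by
        intro a b c d e f g h
        calc _ = g * I * (cexp a * cexp b * (cexp e * cexp f)) := by ring
          _ = g * I * (cexp c * cexp d) := by
            rw [← Complex.exp_add, ← Complex.exp_add, ← Complex.exp_add, ← Complex.exp_add, h]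
          _ = _ := by ring
      rw [pow_succ]
      apply e
      push_cast
      field_simp
      ring
  rw [h2 n]
  have h3 : I ^ n * cexp (-(Real.pi * (n * (n - 1) / (2 * n)) * I)) = I := by
    have e1 : I ^ n = cexp (n * (Real.pi / 2 * I)) := by
      rw [Complex.exp_nat_mul, Complex.exp_pi_div_two_mul_I]
    rw [e1, ← Complex.exp_add]
    have e2 : (n : ℂ) * (Real.pi / 2 * I) + -(Real.pi * (n * (n - 1) / (2 * n)) * I) =
        Real.pi / 2 * I := by
      field_simp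
      ring
    rw [e2, Complex.exp_pi_div_two_mul_I]
  calc _ = (I ^ n * cexp (-(Real.pi * (n * (n - 1) / (2 * n)) * I))) *
        cexp (-(Real.pi * (n * u) * I)) := by ring
    _ = _ := by rw [h3]

/-! ### the definition -/

/-- the exponential of the discrete primitive -/
noncomputable def Qn (n : ℕ) (w : ℂ) : ℂ := ((√(n : ℝ) : ℝ) : ℂ) * cexp (M n (w + 1 / (2 * n)))

/-- `Pn` on `-1/n < Re w < 1 + 1/(2n)` -/
noncomputable def P1 (n : ℕ) (w : ℂ) : ℂ :=
  if w.re ≤ 1 / 2 then Qn n (w + 1 / n) / (2 * Complex.sin (Real.pi * (w + 1 / n)))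
  else Qn n (w - 1 / n) * (2 * Complex.sin (Real.pi * w))

/-- the interpolation of `fS n k` -/
noncomputable def Pn (n : ℕ) (w : ℂ) : ℂ :=
  if w.re ≤ 1 then P1 n w else -(2 * Complex.sin (Real.pi * (n * (w - 1)))) * P1 n (w - 1)

/-- the interpolation of `1 / fS n k` -/
noncomputable def Rn (n : ℕ) (w : ℂ) : ℂ := Pn n (1 - 1 / n - w) / n

theorem re_one_div (n : ℕ) : ((1 : ℂ) / n).re = 1 / n := by
  have : (1 : ℂ) / n = ((1 / (n : ℝ) : ℝ) : ℂ) := by push_cast; rfl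
  rw [this, ofReal_re]

theorem re_one_div_two (n : ℕ) : ((1 : ℂ) / (2 * n)).re = 1 / (2 * n) := by
  have : (1 : ℂ) / (2 * n) = ((1 / (2 * (n : ℝ)) : ℝ) : ℂ) := by push_cast; rfl
  rw [this, ofReal_re]

theorem half_n {n : ℕ} (hn : 4 ≤ n) : 0 < 1 / (n : ℝ) ∧ 1 / (2 * (n : ℝ)) = 1 / n / 2 ∧
    1 / (n : ℝ) ≤ 1 / 4 := by
  have h0 : (4 : ℝ) ≤ n := by exact_mod_cast hn
  refine ⟨by positivity, by field_simp, ?_⟩
  apply div_le_div_of_nonneg_left (by norm_num) (by norm_num) h0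

/-- the step of `Qn` -/
theorem Qn_step {n : ℕ} (hn : 4 ≤ n) {w : ℂ} (h0 : -(1 / (2 * (n : ℝ))) < w.re)
    (h1 : w.re < 1 - 3 / (2 * (n : ℝ))) :
    Qn n (w + 1 / n) = Qn n w * (2 * Complex.sin (Real.pi * (w + 1 / n))) := by
  obtain ⟨a1, a2, a3⟩ := half_n hn
  have hn0 : (0 : ℝ) < n := by
    have : 0 < n := by omega
    exact_mod_cast this
  have hnc : (n : ℂ) ≠ 0 := by exact_mod_cast hn0.ne'
  have a4 : 3 / (2 * (n : ℝ)) = 3 * (1 / n / 2) := by field_simp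
  have hre : (w + 1 / n).re = w.re + 1 / n := by rw [add_re, re_one_div]
  have h := M_step hn0 (w := w + 1 / n) (by rw [hre]; linarith only [h0, a2]) (by rw [hre]; linarith only [h1, a2, a4])
  have hs : w + 1 / n ∈ strip := ⟨by rw [hre]; linarith only [h0, a1, a2], by rw [hre]; linarith only [h1, a1, a4]⟩
  rw [← exp_ph hs, ← h, Qn, Qn, mul_assoc, ← Complex.exp_add]
  congr 2
  have e1 : w + 1 / n + ((1 / (2 * (n : ℝ)) : ℝ) : ℂ) = w + 1 / n + 1 / (2 * n) := by push_cast; rfl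
  have e2 : w + 1 / n - ((1 / (2 * (n : ℝ)) : ℝ) : ℂ) = w + 1 / (2 * n) := by
    push_cast
    field_simp
    ring
  rw [e1, e2]
  ring

theorem sin_ne {z : ℂ} (h0 : 0 < z.re) (h1 : z.re < 1) : 2 * Complex.sin (Real.pi * z) ≠ 0 :=
  mul_ne_zero two_ne_zero (sin_pi_ne ⟨h0, h1⟩)

theorem P1_left {n : ℕ} (hn : 4 ≤ n) {w : ℂ} (h0 : -(1 / (n : ℝ)) < w.re)
    (h1 : w.re < 1 - 3 / (2 * (n : ℝ))) :
    P1 n w = Qn n (w + 1 / n) / (2 * Complex.sin (Real.pi * (w + 1 / n))) := by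
  obtain ⟨a1, a2, a3⟩ := half_n hn
  have a4 : 3 / (2 * (n : ℝ)) = 3 * (1 / n / 2) := by field_simp
  unfold P1
  split_ifs with h
  · rfl
  · push Not at h
    have e1 : (w - 1 / n).re = w.re - 1 / n := by rw [sub_re, re_one_div]
    have e2 : (w + 1 / n).re = w.re + 1 / n := by rw [add_re, re_one_div]
    have s1 := Qn_step hn (w := w - 1 / n) (by rw [e1]; linarith only [a2, a3, h]) (by rw [e1]; linarith only [h1, a1])
    have s2 := Qn_step hn (w := w) (by linarith only [h0, a2, h]) h1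
    rw [sub_add_cancel] at s1
    rw [s2, s1, mul_div_assoc, div_self, mul_one]
    exact sin_ne (by rw [e2]; linarith only [h0]) (by rw [e2]; linarith only [h1, a1, a4])

theorem P1_right {n : ℕ} (hn : 4 ≤ n) {w : ℂ} (h0 : 1 / (2 * (n : ℝ)) < w.re) :
    P1 n w = Qn n (w - 1 / n) * (2 * Complex.sin (Real.pi * w)) := by
  obtain ⟨a1, a2, a3⟩ := half_n hn
  unfold P1
  split_ifs with h
  · have e1 : (w - 1 / n).re = w.re - 1 / n := by rw [sub_re, re_one_div]
    have e2 : (w + 1 / n).re = w.re + 1 / n := by rw [add_re, re_one_div]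
    have a4 : 3 / (2 * (n : ℝ)) = 3 * (1 / n / 2) := by field_simp
    have s1 := Qn_step hn (w := w - 1 / n) (by rw [e1]; linarith only [h0, a2]) (by rw [e1]; linarith only [a1, a3, h, a4])
    have s2 := Qn_step hn (w := w) (by linarith only [h0, a1, a2]) (by linarith only [a1, a3, h, a4])
    rw [sub_add_cancel] at s1
    rw [s2, s1, mul_div_assoc, div_self, mul_one]
    exact sin_ne (by rw [e2]; linarith only [h0, a1, a2]) (by rw [e2]; linarith only [a1, a3, h])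
  · rfl

theorem P1_eq {n : ℕ} (hn : 4 ≤ n) {w : ℂ} (h0 : -(1 / (2 * (n : ℝ))) < w.re)
    (h1 : w.re < 1 - 1 / (2 * (n : ℝ))) : P1 n w = Qn n w := by
  obtain ⟨a1, a2, a3⟩ := half_n hn
  have e1 : (w - 1 / n).re = w.re - 1 / n := by rw [sub_re, re_one_div]
  have e2 : (w + 1 / n).re = w.re + 1 / n := by rw [add_re, re_one_div]
  have a4 : 3 / (2 * (n : ℝ)) = 3 * (1 / n / 2) := by field_simp
  unfold P1
  split_ifs with h
  · have s2 := Qn_step hn (w := w) h0 (by linarith only [a1, a3, a4, h])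
    rw [s2, mul_div_assoc, div_self, mul_one]
    exact sin_ne (by rw [e2]; linarith only [h0, a1, a2]) (by rw [e2]; linarith only [a1, a3, h])
  · push Not at h
    have s1 := Qn_step hn (w := w - 1 / n) (by rw [e1]; linarith only [a1, a2, a3, h]) (by rw [e1]; linarith only [h1, a2, a4])
    rw [sub_add_cancel] at s1
    exact s1.symm

theorem differentiableAt_Qn {n : ℕ} (hn : 4 ≤ n) {w : ℂ} (h0 : -(1 / (2 * (n : ℝ))) < w.re)
    (h1 : w.re < 1 - 1 / (2 * (n : ℝ))) : DifferentiableAt ℂ (Qn n) w := by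
  have hn0 : (0 : ℝ) < n := by
    have : 0 < n := by omega
    exact_mod_cast this
  have hs : w + 1 / (2 * n) ∈ strip := by
    refine ⟨?_, ?_⟩
    · rw [add_re, re_one_div_two]; linarith only [h0]
    · rw [add_re, re_one_div_two]; linarith only [h1]
  have h2 : DifferentiableAt ℂ (fun w : ℂ => M n (w + 1 / (2 * n))) w := by
    have h3 : HasDerivAt (fun w : ℂ => w + 1 / (2 * (n : ℂ))) 1 w := (hasDerivAt_id w).add_const _
    exact ((hasDerivAt_M hn0 hs).comp w h3).differentiableAt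
  unfold Qn
  exact (h2.cexp).const_mul _

theorem Qn_ne_zero {n : ℕ} (hn : 4 ≤ n) (w : ℂ) : Qn n w ≠ 0 := by
  have hn0 : (0 : ℝ) < n := by
    have : 0 < n := by omega
    exact_mod_cast this
  unfold Qn
  exact mul_ne_zero (by exact_mod_cast (Real.sqrt_pos.2 hn0).ne') (Complex.exp_ne_zero _)

theorem differentiableAt_P1 {n : ℕ} (hn : 4 ≤ n) {w : ℂ} (h0 : -(1 / (n : ℝ)) < w.re)
    (h1 : w.re < 1 + 1 / (2 * (n : ℝ))) : DifferentiableAt ℂ (P1 n) w := by
  obtain ⟨a1, a2, a3⟩ := half_n hn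
  have a4 : 3 / (2 * (n : ℝ)) = 3 * (1 / n / 2) := by field_simp
  rcases le_or_gt w.re (1 / 2) with h | h
  · have hev : P1 n =ᶠ[nhds w] fun w => Qn n (w + 1 / n) /
        (2 * Complex.sin (Real.pi * (w + 1 / n))) := by
      have hop : IsOpen {w : ℂ | -(1 / (n : ℝ)) < w.re ∧ w.re < 1 - 3 / (2 * (n : ℝ))} :=
        (isOpen_lt continuous_const continuous_re).inter (isOpen_lt continuous_re continuous_const)
      filter_upwards [hop.mem_nhds ⟨h0, by linarith only [a1, a3, a4, h]⟩] with z hz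
      exact P1_left hn hz.1 hz.2
    refine DifferentiableAt.congr_of_eventuallyEq ?_ hev
    have e2 : (w + 1 / n).re = w.re + 1 / n := by rw [add_re, re_one_div]
    refine DifferentiableAt.div ?_ (by fun_prop) (sin_ne (by rw [e2]; linarith only [h0]) (by rw [e2]; linarith only [a1, a3, h]))
    have h3 : DifferentiableAt ℂ (fun w : ℂ => w + 1 / (n : ℂ)) w := by fun_prop
    exact (differentiableAt_Qn hn (by rw [e2]; linarith only [h0, a1, a2]) (by rw [e2]; linarith only [a1, a2, a3, h])).comp w h3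
  · have hev : P1 n =ᶠ[nhds w] fun w => Qn n (w - 1 / n) * (2 * Complex.sin (Real.pi * w)) := by
      have hop : IsOpen {w : ℂ | 1 / (2 * (n : ℝ)) < w.re} :=
        isOpen_lt continuous_const continuous_re
      filter_upwards [hop.mem_nhds (show 1 / (2 * (n : ℝ)) < w.re by linarith only [a1, a2, a3, h])] with z hz
      exact P1_right hn hz
    refine DifferentiableAt.congr_of_eventuallyEq ?_ hev
    have e1 : (w - 1 / n).re = w.re - 1 / n := by rw [sub_re, re_one_div]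
    refine DifferentiableAt.mul ?_ (by fun_prop)
    have h3 : DifferentiableAt ℂ (fun w : ℂ => w - 1 / (n : ℂ)) w := by fun_prop
    exact (differentiableAt_Qn hn (by rw [e1]; linarith only [a1, a2, a3, h]) (by rw [e1]; linarith only [h1, a2])).comp w h3

theorem P1_ne_zero {n : ℕ} (hn : 4 ≤ n) {w : ℂ} (h0 : -(1 / (n : ℝ)) < w.re) (h1 : w.re < 1) :
    P1 n w ≠ 0 := by
  obtain ⟨a1, a2, a3⟩ := half_n hn
  have e2 : (w + 1 / n).re = w.re + 1 / n := by rw [add_re, re_one_div]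
  unfold P1
  split_ifs with h
  · exact div_ne_zero (Qn_ne_zero hn _) (sin_ne (by rw [e2]; linarith only [h0]) (by rw [e2]; linarith only [a1, a3, h]))
  · push Not at h
    exact mul_ne_zero (Qn_ne_zero hn _) (sin_ne (by linarith only [a1, a3, h]) h1)

/-- the values of `Qn` at both ends of the strip -/
theorem Qn_shift {n : ℕ} (hn : 4 ≤ n) {u : ℂ} (h0 : -(3 / (2 * (n : ℝ))) < u.re)
    (h1 : u.re < 1 / (2 * (n : ℝ))) :
    Qn n (u + 1 - 1 / n) = Qn n (u + 1 / n) *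
      ∏ j ∈ range (n - 2), 2 * Complex.sin (Real.pi * (u + (j + 2 : ℕ) / n)) := by
  obtain ⟨a1, a2, a3⟩ := half_n hn
  have hn0 : (0 : ℝ) < n := by
    have : 0 < n := by omega
    exact_mod_cast this
  have hnc : (n : ℂ) ≠ 0 := by exact_mod_cast hn0.ne'
  have a4 : 3 / (2 * (n : ℝ)) = 3 * (1 / n / 2) := by field_simp
  have key : ∀ m : ℕ, m ≤ n - 2 → Qn n (u + 1 / n + m / n) = Qn n (u + 1 / n) *
      ∏ j ∈ range m, 2 * Complex.sin (Real.pi * (u + (j + 2 : ℕ) / n)) := by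
    intro m
    induction m with
    | zero => intro _; simp
    | succ m ih =>
      intro hm
      rw [Finset.prod_range_succ, ← mul_assoc, ← ih (by omega)]
      have e1 : u + 1 / n + (m + 1 : ℕ) / n = (u + 1 / n + m / n) + 1 / n := by
        push_cast
        ring
      have e2 : (u + 1 / n + m / n).re = u.re + 1 / n + m / n := by
        rw [add_re, add_re, re_one_div]
        congr 1
        have : (m : ℂ) / n = ((m / n : ℝ) : ℂ) := by push_cast; rfl
        rw [this, ofReal_re]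
      have hm0 : (0 : ℝ) ≤ m / n := by positivity
      have hm1 : (m : ℝ) / n ≤ 1 - 3 / n := by
        have h3 : (m : ℝ) + 3 ≤ n := by
          have : m + 3 ≤ n := by omega
          exact_mod_cast this
        rw [div_le_iff₀ hn0]
        have : (1 - 3 / (n : ℝ)) * n = n - 3 := by field_simp
        rw [this]
        linarith only [h3]
      have a5 : 3 / (n : ℝ) = 3 * (1 / n) := by ring
      rw [e1, Qn_step hn (by rw [e2]; linarith only [h0, a2, a4, hm0]) (by rw [e2]; linarith only [h1, a2, a4, hm1, a5])]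
      congr 3
      push_cast
      ring
  have h := key (n - 2) le_rfl
  rw [← h]
  congr 1
  have : ((n - 2 : ℕ) : ℂ) = n - 2 := by
    rw [Nat.cast_sub (by omega)]
    norm_num
  rw [this]
  field_simp
  ring

/-- quasi-periodicity -/
theorem P1_add_one {n : ℕ} (hn : 4 ≤ n) {u : ℂ} (h0 : -(1 / (n : ℝ)) < u.re)
    (h1 : u.re < 1 / (2 * (n : ℝ))) :
    P1 n (u + 1) = -(2 * Complex.sin (Real.pi * (n * u))) * P1 n u := by
  obtain ⟨a1, a2, a3⟩ := half_n hn
  have hn0 : (0 : ℝ) < n := by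
    have : 0 < n := by omega
    exact_mod_cast this
  have hnc : (n : ℂ) ≠ 0 := by exact_mod_cast hn0.ne'
  have a4 : 3 / (2 * (n : ℝ)) = 3 * (1 / n / 2) := by field_simp
  have e0 : (u + 1).re = u.re + 1 := by simp
  have e2 : (u + 1 / n).re = u.re + 1 / n := by rw [add_re, re_one_div]
  have hs := sin_ne (z := u + 1 / n) (by rw [e2]; linarith only [h0]) (by rw [e2]; linarith only [h0, h1, a2, a3])
  rw [P1_right hn (by rw [e0]; linarith only [h0, h1, a2, a3]), P1_left hn h0 (by linarith only [h0, h1, a2, a3, a4]), Qn_shift hn (by linarith only [h0, h1, a2, a4]) h1,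
    ← prod_two_sin_full (by omega) u]
  obtain ⟨m, rfl⟩ : ∃ m, n = m + 2 := ⟨n - 2, by omega⟩
  rw [show m + 2 - 2 = m by omega, Finset.prod_range_succ', Finset.prod_range_succ']
  have e3 : Complex.sin (Real.pi * (u + 1)) = -Complex.sin (Real.pi * u) := by
    rw [mul_add, mul_one, Complex.sin_add_pi]
  rw [e3]
  have e4 : u + ((0 + 1 : ℕ) : ℂ) / ((m + 2 : ℕ) : ℂ) = u + 1 / ((m + 2 : ℕ) : ℂ) := by
    simp
  have e5 : u + ((0 : ℕ) : ℂ) / ((m + 2 : ℕ) : ℂ) = u := by simp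
  rw [e4, e5]
  have e6 : ∏ k ∈ range m, 2 * Complex.sin (Real.pi * (u + ((k + 1 + 1 : ℕ) : ℂ) / ((m + 2 : ℕ) : ℂ)))
      = ∏ k ∈ range m, 2 * Complex.sin (Real.pi * (u + ((k + 2 : ℕ) : ℂ) / ((m + 2 : ℕ) : ℂ))) := rfl
  rw [e6]
  have hs' : Complex.sin (Real.pi * (u + 1 / ((m + 2 : ℕ) : ℂ))) ≠ 0 := fun h => hs (by rw [h, mul_zero])
  have key : ∀ q p s0 s1 : ℂ, s1 ≠ 0 →
      q * p * (2 * -s0) = -(p * (2 * s1) * (2 * s0)) * (q / (2 * s1)) := by
    intro q p s0 s1 h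
    field_simp
  exact key _ _ _ _ hs'

theorem Pn_eq_P1 {n : ℕ} (hn : 4 ≤ n) {w : ℂ} (h1 : w.re < 1 + 1 / (2 * (n : ℝ))) :
    Pn n w = P1 n w := by
  obtain ⟨a1, a2, a3⟩ := half_n hn
  unfold Pn
  split_ifs with h
  · rfl
  · push Not at h
    have e : (w - 1).re = w.re - 1 := by simp
    have := P1_add_one hn (u := w - 1) (by rw [e]; linarith only [a1, h]) (by rw [e]; linarith only [h1])
    rw [sub_add_cancel] at this
    exact this.symm

theorem Pn_eq_two {n : ℕ} (hn : 4 ≤ n) {w : ℂ} (h1 : 1 - 1 / (n : ℝ) < w.re) :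
    Pn n w = -(2 * Complex.sin (Real.pi * (n * (w - 1)))) * P1 n (w - 1) := by
  obtain ⟨a1, a2, a3⟩ := half_n hn
  unfold Pn
  split_ifs with h
  · have e : (w - 1).re = w.re - 1 := by simp
    have := P1_add_one hn (u := w - 1) (by rw [e]; linarith only [h1]) (by rw [e]; linarith only [a1, a2, h])
    rw [sub_add_cancel] at this
    exact this
  · rfl

theorem Pn_eq_Qn {n : ℕ} (hn : 4 ≤ n) {w : ℂ} (h0 : -(1 / (2 * (n : ℝ))) < w.re)
    (h1 : w.re < 1 - 1 / (2 * (n : ℝ))) : Pn n w = Qn n w := by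
  obtain ⟨a1, a2, a3⟩ := half_n hn
  rw [Pn_eq_P1 hn (by linarith only [h1, a1, a2]), P1_eq hn h0 h1]

/-- `Pn` is holomorphic on `-1/n < Re w < 2 + 1/(2n)` -/
theorem differentiableAt_Pn {n : ℕ} (hn : 4 ≤ n) {w : ℂ} (h0 : -(1 / (n : ℝ)) < w.re)
    (h1 : w.re < 2 + 1 / (2 * (n : ℝ))) : DifferentiableAt ℂ (Pn n) w := by
  obtain ⟨a1, a2, a3⟩ := half_n hn
  rcases le_or_gt w.re 1 with h | h
  · have hev : Pn n =ᶠ[nhds w] P1 n := by
      have hop : IsOpen {w : ℂ | w.re < 1 + 1 / (2 * (n : ℝ))} :=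
        isOpen_lt continuous_re continuous_const
      filter_upwards [hop.mem_nhds (show w.re < 1 + 1 / (2 * (n : ℝ)) by linarith only [a1, a2, h])] with z hz
      exact Pn_eq_P1 hn hz
    exact (differentiableAt_P1 hn h0 (by linarith only [a1, a2, h])).congr_of_eventuallyEq hev
  · have hev : Pn n =ᶠ[nhds w] fun w => -(2 * Complex.sin (Real.pi * (n * (w - 1)))) *
        P1 n (w - 1) := by
      have hop : IsOpen {w : ℂ | 1 - 1 / (n : ℝ) < w.re} :=
        isOpen_lt continuous_const continuous_re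
      filter_upwards [hop.mem_nhds (show 1 - 1 / (n : ℝ) < w.re by linarith only [a1, h])] with z hz
      exact Pn_eq_two hn hz
    refine DifferentiableAt.congr_of_eventuallyEq ?_ hev
    have e : (w - 1).re = w.re - 1 := by simp
    refine DifferentiableAt.mul (by fun_prop) ?_
    have h3 : DifferentiableAt ℂ (fun w : ℂ => w - 1) w := by fun_prop
    exact (differentiableAt_P1 hn (by rw [e]; linarith only [a1, h]) (by rw [e]; linarith only [h1])).comp w h3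

theorem Pn_ne_zero {n : ℕ} (hn : 4 ≤ n) {w : ℂ} (h0 : -(1 / (n : ℝ)) < w.re) (h1 : w.re < 1) :
    Pn n w ≠ 0 := by
  obtain ⟨a1, a2, a3⟩ := half_n hn
  rw [Pn_eq_P1 hn (by linarith only [h1, a1, a2])]
  exact P1_ne_zero hn h0 h1

/-- the functional equation -/
theorem Pn_step {n : ℕ} (hn : 4 ≤ n) {w : ℂ} (h0 : -(1 / (n : ℝ)) < w.re) (h1 : w.re < 1) :
    Pn n (w + 1 / n) = 2 * Complex.sin (Real.pi * (w + 1 / n)) * Pn n w := by
  obtain ⟨a1, a2, a3⟩ := half_n hn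
  have e2 : (w + 1 / n).re = w.re + 1 / n := by rw [add_re, re_one_div]
  have a4 : 3 / (2 * (n : ℝ)) = 3 * (1 / n / 2) := by field_simp
  rcases lt_or_ge w.re (1 - 3 / (2 * (n : ℝ))) with h | h
  · have hs := sin_ne (z := w + 1 / n) (by rw [e2]; linarith only [h0]) (by rw [e2]; linarith only [a1, a4, h])
    rw [Pn_eq_Qn hn (w := w + 1 / n) (by rw [e2]; linarith only [h0, a1, a2]) (by rw [e2]; linarith only [a2, a4, h]),
      Pn_eq_P1 hn (w := w) (by linarith only [a1, a2, a4, h]), P1_left hn h0 h, mul_comm, div_mul_cancel₀ _ hs]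
  rcases lt_or_ge w.re (1 - 1 / (2 * (n : ℝ))) with h' | h'
  · rw [Pn_eq_P1 hn (w := w + 1 / n) (by rw [e2]; linarith only [a2, h']), P1_right hn (by rw [e2]; linarith only [h0, a2, a3, a4, h]),
      add_sub_cancel_right, Pn_eq_Qn hn (by linarith only [h0, a2, a3, a4, h]) h']
    ring
  · -- `w + 1/n` beyond `1`
    have e3 : (w + 1 / n - 1).re = w.re + 1 / n - 1 := by rw [sub_re, e2, one_re]
    have e4 : (w - 1).re = w.re - 1 := by rw [sub_re, one_re]
    have hw : 2 * Complex.sin (Real.pi * (n * (w + 1 / n - 1))) =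
        -(2 * Complex.sin (Real.pi * (n * (w - 1)))) := by
      have hn0 : (n : ℂ) ≠ 0 := by
        have : n ≠ 0 := by omega
        exact_mod_cast this
      have : (Real.pi : ℂ) * (n * (w + 1 / n - 1)) = Real.pi * (n * (w - 1)) + Real.pi := by
        field_simp
        ring
      rw [this, Complex.sin_add_pi]
      ring
    rw [Pn_eq_two hn (w := w + 1 / n) (by rw [e2]; linarith only [a1, a2, h']), Pn_eq_two hn (w := w) (by linarith only [h1, a2, h']),
      hw]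
    have h5 : P1 n (w + 1 / n - 1) = Qn n (w + 1 / n - 1) :=
      P1_eq hn (by rw [e3]; linarith only [a1, h']) (by rw [e3]; linarith only [h1, a1, a2, a3])
    have h6 : P1 n (w - 1) = Qn n (w - 1 + 1 / n) / (2 * Complex.sin (Real.pi * (w - 1 + 1 / n))) :=
      P1_left hn (by rw [e4]; linarith only [h1, a2, h']) (by rw [e4]; linarith only [h1, a2, a3, a4, h'])
    have e5 : w + 1 / n - 1 = w - 1 + 1 / n := by ring
    have e6 : Complex.sin (Real.pi * (w - 1 + 1 / n)) = -Complex.sin (Real.pi * (w + 1 / n)) := by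
      have : (Real.pi : ℂ) * (w - 1 + 1 / n) = Real.pi * (w + 1 / n) - Real.pi := by ring
      rw [this, Complex.sin_sub_pi]
    have hs : Complex.sin (Real.pi * (w - 1 + 1 / n)) ≠ 0 := by
      have := sin_ne (z := w - 1 + 1 / n) (by rw [← e5, e3]; linarith only [h1, a2, h']) (by rw [← e5, e3]; linarith only [h1, a3])
      exact fun h => this (by rw [h, mul_zero])
    rw [h5, h6, e5, e6]
    rw [e6] at hs
    have hs' : Complex.sin (Real.pi * (w + 1 / n)) ≠ 0 := fun h => hs (by rw [h, neg_zero])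
    field_simp

theorem Pn_nat {n : ℕ} (hn : 4 ≤ n) {k : ℕ} (hk : k < n) : Pn n (k / n) = ((fS n k : ℝ) : ℂ) := by
  obtain ⟨a1, a2, a3⟩ := half_n hn
  have hn0 : (0 : ℝ) < n := by
    have : 0 < n := by omega
    exact_mod_cast this
  have hnc : (n : ℂ) ≠ 0 := by exact_mod_cast hn0.ne'
  have hre : ((k : ℂ) / n).re = k / n := by
    have : (k : ℂ) / n = ((k / n : ℝ) : ℂ) := by push_cast; rfl
    rw [this, ofReal_re]
  have h1 : (k : ℝ) / n ≤ 1 - 1 / n := by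
    rw [div_le_iff₀ hn0]
    have : (1 - 1 / (n : ℝ)) * n = n - 1 := by field_simp
    rw [this]
    have : (k : ℝ) + 1 ≤ n := by exact_mod_cast hk
    linarith only [this]
  have h0 : (0 : ℝ) ≤ k / n := by positivity
  rw [Pn_eq_Qn hn (by rw [hre]; linarith only [a1, a2, h0]) (by rw [hre]; linarith only [a1, a2, h1]), Qn, fS_eq_cexp hk]
  congr 3
  push_cast
  field_simp

theorem Pn_nat_zero {n : ℕ} (hn : 4 ≤ n) {k : ℕ} (hk : n ≤ k) : Pn n (k / n) = 0 := by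
  obtain ⟨a1, a2, a3⟩ := half_n hn
  have hn0 : (0 : ℝ) < n := by
    have : 0 < n := by omega
    exact_mod_cast this
  have hnc : (n : ℂ) ≠ 0 := by exact_mod_cast hn0.ne'
  have hre : ((k : ℂ) / n).re = k / n := by
    have : (k : ℂ) / n = ((k / n : ℝ) : ℂ) := by push_cast; rfl
    rw [this, ofReal_re]
  have h1 : 1 ≤ (k : ℝ) / n := by
    rw [le_div_iff₀ hn0, one_mul]
    exact_mod_cast hk
  rw [Pn_eq_two hn (by rw [hre]; linarith only [a1, h1])]
  have : (Real.pi : ℂ) * (n * ((k : ℂ) / n - 1)) = ((k - n : ℕ) : ℂ) * Real.pi := by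
    rw [Nat.cast_sub hk]
    field_simp
  rw [this, Complex.sin_nat_mul_pi]
  simp

/-- the reflection formula -/
theorem Pn_refl {n : ℕ} (hn : 4 ≤ n) {w : ℂ} (h0 : -(1 / (n : ℝ)) < w.re) (h1 : w.re < 1) :
    Pn n w * Pn n (1 - 1 / n - w) = n := by
  obtain ⟨a1, a2, a3⟩ := half_n hn
  have hn0 : (0 : ℝ) < n := by
    have : 0 < n := by omega
    exact_mod_cast this
  have hnc : (n : ℂ) ≠ 0 := by exact_mod_cast hn0.ne'
  have hsq : ((√(n : ℝ) : ℝ) : ℂ) * ((√(n : ℝ) : ℝ) : ℂ) = n := by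
    rw [← Complex.ofReal_mul, Real.mul_self_sqrt hn0.le]
    simp
  -- the middle of the strip
  have mid : ∀ v : ℂ, -(1 / (2 * (n : ℝ))) < v.re → v.re < 1 - 1 / (2 * (n : ℝ)) →
      Pn n v * Pn n (1 - 1 / n - v) = n := by
    intro v b0 b1
    have e : (1 - 1 / n - v).re = 1 - 1 / n - v.re := by rw [sub_re, sub_re, re_one_div, one_re]
    rw [Pn_eq_Qn hn b0 b1, Pn_eq_Qn hn (by rw [e]; linarith only [a2, b1]) (by rw [e]; linarith only [a2, b0]), Qn, Qn]
    have e2 : 1 - 1 / n - v + 1 / (2 * n) = 1 - (v + 1 / (2 * n)) := by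
      field_simp
      ring
    rw [e2, M_one_sub]
    calc _ = (((√(n : ℝ) : ℝ) : ℂ) * ((√(n : ℝ) : ℝ) : ℂ)) *
          (cexp (M n (v + 1 / (2 * n))) * cexp (-M n (v + 1 / (2 * n)))) := by ring
      _ = n := by rw [hsq, ← Complex.exp_add, add_neg_cancel, Complex.exp_zero, mul_one]
  have e2 : (w + 1 / n).re = w.re + 1 / n := by rw [add_re, re_one_div]
  have e1 : (w - 1 / n).re = w.re - 1 / n := by rw [sub_re, re_one_div]
  rcases lt_or_ge (-(1 / (2 * (n : ℝ)))) w.re with h | h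
  · rcases lt_or_ge w.re (1 - 1 / (2 * (n : ℝ))) with h' | h'
    · exact mid w h h'
    · -- near `1`
      have m := mid (w - 1 / n) (by rw [e1]; linarith only [a3, h']) (by rw [e1]; linarith only [h1, a1, a2])
      have s1 := Pn_step hn (w := w - 1 / n) (by rw [e1]; linarith only [h0, a2, a3, h']) (by rw [e1]; linarith only [h1, a1])
      have e3 : (1 - 1 / n - w).re = 1 - 1 / n - w.re := by rw [sub_re, sub_re, re_one_div, one_re]
      have s2 := Pn_step hn (w := 1 - 1 / n - w) (by rw [e3]; linarith only [h1]) (by rw [e3]; linarith only [h0])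
      rw [sub_add_cancel] at s1
      have e4 : 1 - 1 / n - w + 1 / n = 1 - w := by ring
      have e5 : 1 - 1 / n - (w - 1 / n) = 1 - w := by ring
      rw [e4] at s2
      rw [e5, s2] at m
      have e6 : Complex.sin (Real.pi * (1 - w)) = Complex.sin (Real.pi * w) := by
        have : (Real.pi : ℂ) * (1 - w) = Real.pi - Real.pi * w := by ring
        rw [this, Complex.sin_pi_sub]
      rw [e6] at m
      rw [s1]
      linear_combination m
  · have m := mid (w + 1 / n) (by rw [e2]; linarith only [h0, a2, h]) (by rw [e2]; linarith only [h0, a2, a3, h])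
    have s1 := Pn_step hn (w := w) h0 h1
    have e3 : (1 - 1 / n - (w + 1 / n)).re = 1 - 1 / n - (w.re + 1 / n) := by
      rw [sub_re, sub_re, re_one_div, one_re, e2]
    have s2 := Pn_step hn (w := 1 - 1 / n - (w + 1 / n)) (by rw [e3]; linarith only [h0, a2, a3, h]) (by rw [e3]; linarith only [h0, a2, h])
    rw [sub_add_eq_sub_sub, sub_add_cancel] at s2
    rw [s1, sub_add_eq_sub_sub] at m
    have e6 : Complex.sin (Real.pi * (1 - 1 / n - w)) = Complex.sin (Real.pi * (w + 1 / n)) := by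
      have : (Real.pi : ℂ) * (1 - 1 / n - w) = Real.pi - Real.pi * (w + 1 / n) := by ring
      rw [this, Complex.sin_pi_sub]
    rw [s2, e6]
    linear_combination m

/-! ### the reciprocal -/

theorem Rn_mul {n : ℕ} (hn : 4 ≤ n) {w : ℂ} (h0 : -(1 / (n : ℝ)) < w.re) (h1 : w.re < 1) :
    Rn n w * Pn n w = 1 := by
  have hnc : (n : ℂ) ≠ 0 := by
    have : n ≠ 0 := by omega
    exact_mod_cast this
  rw [Rn, div_mul_eq_mul_div, mul_comm, Pn_refl hn h0 h1, div_self hnc]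

theorem Rn_eq {n : ℕ} (hn : 4 ≤ n) {w : ℂ} (h0 : -(1 / (n : ℝ)) < w.re) (h1 : w.re < 1) :
    Rn n w = (Pn n w)⁻¹ := eq_inv_of_mul_eq_one_left (Rn_mul hn h0 h1)

theorem differentiableAt_Rn {n : ℕ} (hn : 4 ≤ n) {w : ℂ} (h0 : -1 - 3 / (2 * (n : ℝ)) < w.re)
    (h1 : w.re < 1) : DifferentiableAt ℂ (Rn n) w := by
  obtain ⟨a1, a2, a3⟩ := half_n hn
  have a4 : 3 / (2 * (n : ℝ)) = 3 * (1 / n / 2) := by field_simp
  have e3 : (1 - 1 / n - w).re = 1 - 1 / n - w.re := by rw [sub_re, sub_re, re_one_div, one_re]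
  have h := differentiableAt_Pn hn (w := 1 - 1 / n - w) (by rw [e3]; linarith only [h1]) (by rw [e3]; linarith only [h0, a2, a4])
  have h3 : DifferentiableAt ℂ (fun w : ℂ => 1 - 1 / (n : ℂ) - w) w := by fun_prop
  unfold Rn
  exact (h.comp w h3).div_const _

theorem Rn_nat {n : ℕ} (hn : 4 ≤ n) {k : ℕ} (hk : k < n) :
    Rn n (k / n) = ((1 / fS n k : ℝ) : ℂ) := by
  obtain ⟨a1, a2, a3⟩ := half_n hn
  have hn0 : (0 : ℝ) < n := by
    have : 0 < n := by omega
    exact_mod_cast this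
  have hre : ((k : ℂ) / n).re = k / n := by
    have : (k : ℂ) / n = ((k / n : ℝ) : ℂ) := by push_cast; rfl
    rw [this, ofReal_re]
  have h1 : (k : ℝ) / n < 1 := by
    rw [div_lt_one hn0]
    exact_mod_cast hk
  have h0 : (0 : ℝ) ≤ k / n := by positivity
  rw [Rn_eq hn (by rw [hre]; linarith only [a1, h0]) (by rw [hre]; exact h1), Pn_nat hn hk]
  push_cast
  rw [one_div]

theorem Rn_neg_nat {n : ℕ} (hn : 4 ≤ n) {k : ℕ} (hk : 1 ≤ k) : Rn n (-(k / n)) = 0 := by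
  have hnc : (n : ℂ) ≠ 0 := by
    have : n ≠ 0 := by omega
    exact_mod_cast this
  have h := Pn_nat_zero hn (k := n - 1 + k) (by omega)
  have e : (((n - 1 + k : ℕ) : ℂ) / n) = 1 - 1 / n - -(k / n) := by
    rw [Nat.cast_add, Nat.cast_sub (by omega)]
    push_cast
    field_simp
    ring
  rw [e] at h
  rw [Rn, h, zero_div]

end Pool.Agent.Work.MP_b30479_gtS.G2

end

section

/-!
# Exact interpolation of the summand, and expansion of the exponent
-/

namespace Pool.Agent.Work.MP_b30479_gtS.LT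

open Finset VOL AX MeasureTheory

theorem PP_factor {n : ℕ} (hn : 0 < n) (l : ℕ) (ζ : ℂ) :
    2 * Complex.cos (2 * Real.pi * ζ) + ((2 * Real.cos (2 * Real.pi * (l + 1 / 2) / n) : ℝ) : ℂ) =
      (2 * Complex.sin (Real.pi * ((((0 : ℕ) : ℂ) + l + 1) / ((n : ℝ) : ℂ) +
        (1 / 2 - ((1 / (2 * (n : ℝ)) : ℝ) : ℂ) + ζ)))) *
      (2 * Complex.sin (Real.pi * ((((0 : ℕ) : ℂ) + l + 1) / ((n : ℝ) : ℂ) +
        (1 / 2 - ((1 / (2 * (n : ℝ)) : ℝ) : ℂ) - ζ)))) := by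
  have hN : (n : ℂ) ≠ 0 := by exact_mod_cast hn.ne'
  set v : ℂ := ((l : ℂ) + 1 / 2) / (n : ℂ) with hv
  have e1 : Real.pi * ((((0 : ℕ) : ℂ) + l + 1) / ((n : ℝ) : ℂ) +
      (1 / 2 - ((1 / (2 * (n : ℝ)) : ℝ) : ℂ) + ζ)) = Real.pi * (v + ζ) + Real.pi / 2 := by
    rw [hv]
    push_cast
    field_simp
    ring
  have e2 : Real.pi * ((((0 : ℕ) : ℂ) + l + 1) / ((n : ℝ) : ℂ) +
      (1 / 2 - ((1 / (2 * (n : ℝ)) : ℝ) : ℂ) - ζ)) = Real.pi * (v - ζ) + Real.pi / 2 := by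
    rw [hv]
    push_cast
    field_simp
    ring
  rw [e1, e2, Complex.sin_add_pi_div_two, Complex.sin_add_pi_div_two]
  have e3 : 2 * Real.pi * ζ = Real.pi * (v + ζ) - Real.pi * (v - ζ) := by ring
  have e4 : ((2 * Real.cos (2 * Real.pi * (l + 1 / 2) / n) : ℝ) : ℂ) =
      2 * Complex.cos (Real.pi * (v + ζ) + Real.pi * (v - ζ)) := by
    push_cast
    congr 2
    rw [hv]
    field_simp
    ring
  rw [e3, e4, Complex.cos_sub, Complex.cos_add]
  ring

theorem PP_eq {n y : ℕ} (hn : 0 < n) {ζ : ℂ} (h : (y : ℝ) / n + |ζ.re| < 1 / 2) :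
    PP n y ζ = Complex.exp (M n ((y : ℂ) / n + 1 / 2 + ζ) + M n ((y : ℂ) / n + 1 / 2 - ζ)) := by
  have hn0 : (0 : ℝ) < n := by exact_mod_cast hn
  have hnc0 : (n : ℂ) ≠ 0 := by exact_mod_cast hn.ne'
  have hy0 : 0 ≤ (y : ℝ) / n := by positivity
  obtain ⟨ha, hb⟩ := abs_le.mp (le_refl |ζ.re|)
  have hre1 : (1 / 2 - ((1 / (2 * (n : ℝ)) : ℝ) : ℂ) + ζ).re = 1 / 2 - 1 / (2 * n) + ζ.re := by
    rw [Complex.add_re, Complex.sub_re, Complex.ofReal_re]
    norm_num
  have hre2 : (1 / 2 - ((1 / (2 * (n : ℝ)) : ℝ) : ℂ) - ζ).re = 1 / 2 - 1 / (2 * n) - ζ.re := by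
    rw [Complex.sub_re, Complex.sub_re, Complex.ofReal_re]
    norm_num
  have hhalf : (((0 : ℕ) : ℝ) + 1 / 2) / n = 1 / (2 * n) := by
    rw [Nat.cast_zero]
    field_simp
    norm_num
  have hhalf' : (((0 : ℕ) : ℝ) + y + 1 / 2) / n = y / n + 1 / (2 * n) := by
    rw [Nat.cast_zero]
    field_simp
    ring
  have P1 := VOL.prod_two_sin hn0 (1 / 2 - ((1 / (2 * (n : ℝ)) : ℝ) : ℂ) + ζ) 0 y
    (by rw [hre1, hhalf]; linarith only [h, hy0, ha]) (by rw [hre1, hhalf']; linarith only [h, hb])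
  have P2 := VOL.prod_two_sin hn0 (1 / 2 - ((1 / (2 * (n : ℝ)) : ℝ) : ℂ) - ζ) 0 y
    (by rw [hre2, hhalf]; linarith only [h, hy0, hb]) (by rw [hre2, hhalf']; linarith only [h, ha])
  have q1 : (((0 : ℕ) : ℂ) + y + 1 / 2) / ((n : ℝ) : ℂ) +
      (1 / 2 - ((1 / (2 * (n : ℝ)) : ℝ) : ℂ) + ζ) = (y : ℂ) / n + 1 / 2 + ζ := by
    push_cast
    field_simp
    ring
  have q2 : (((0 : ℕ) : ℂ) + 1 / 2) / ((n : ℝ) : ℂ) +
      (1 / 2 - ((1 / (2 * (n : ℝ)) : ℝ) : ℂ) + ζ) = 1 / 2 + ζ := by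
    push_cast
    field_simp
    ring
  have q3 : (((0 : ℕ) : ℂ) + y + 1 / 2) / ((n : ℝ) : ℂ) +
      (1 / 2 - ((1 / (2 * (n : ℝ)) : ℝ) : ℂ) - ζ) = (y : ℂ) / n + 1 / 2 - ζ := by
    push_cast
    field_simp
    ring
  have q4 : (((0 : ℕ) : ℂ) + 1 / 2) / ((n : ℝ) : ℂ) +
      (1 / 2 - ((1 / (2 * (n : ℝ)) : ℝ) : ℂ) - ζ) = 1 - (1 / 2 + ζ) := by
    push_cast
    field_simp
    ring
  rw [q1, q2] at P1
  rw [q3, q4, VOL.M_one_sub] at P2
  unfold PP
  rw [Finset.prod_congr rfl fun l _ => PP_factor hn l ζ, Finset.prod_mul_distrib, P1, P2,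
    ← Complex.exp_add]
  congr 1
  ring

theorem term_eq {n y : ℕ} (hn : 0 < n) (hy : y < n) {ζ ζ' : ℂ} (h : (y : ℝ) / n + |ζ.re| < 1 / 2)
    (h' : (y : ℝ) / n + |ζ'.re| < 1 / 2) :
    term n y ζ ζ' = 1 / (n : ℂ) ^ 2 * Complex.exp (Tn n ((y : ℂ) / n) ζ ζ') := by
  have hn0 : (0 : ℝ) < n := by exact_mod_cast hn
  have hnc0 : (n : ℂ) ≠ 0 := by exact_mod_cast hn.ne'
  have hf : ((fS n y ^ 4 : ℝ) : ℂ) =
      (n : ℂ) ^ 2 * Complex.exp (4 * VOL.M n ((y : ℂ) / n + 1 / (2 * n))) := by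
    have h1 := VOL.fS_eq_cexp hy
    have h2 : (((√(n : ℝ) : ℝ) : ℂ)) ^ 4 = (n : ℂ) ^ 2 := by
      rw [← Complex.ofReal_pow, show (√(n : ℝ)) ^ 4 = ((√(n : ℝ)) ^ 2) ^ 2 by ring,
        Real.sq_sqrt hn0.le]
      push_cast
      rfl
    rw [Complex.ofReal_pow, h1, mul_pow, ← Complex.exp_nat_mul, h2]
    congr 3
    push_cast
    field_simp
  rw [LT.term, PP_eq hn h, PP_eq hn h', hf, Tn, Complex.exp_sub,
    show M n ((y : ℂ) / n + 1 / 2 + ζ) + M n ((y : ℂ) / n + 1 / 2 - ζ) +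
      M n ((y : ℂ) / n + 1 / 2 + ζ') + M n ((y : ℂ) / n + 1 / 2 - ζ') =
      (M n ((y : ℂ) / n + 1 / 2 + ζ) + M n ((y : ℂ) / n + 1 / 2 - ζ)) +
      (M n ((y : ℂ) / n + 1 / 2 + ζ') + M n ((y : ℂ) / n + 1 / 2 - ζ')) by ring,
    Complex.exp_add (M n ((y : ℂ) / n + 1 / 2 + ζ) + M n ((y : ℂ) / n + 1 / 2 - ζ))]
  have := Complex.exp_ne_zero (4 * VOL.M n ((y : ℂ) / n + 1 / (2 * n)))
  field_simp

/-! ### Expansion -/

/-- the closed vertical strip at distance `δ` from the edges -/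
def Sd (δ : ℝ) : Set ℂ := {z | δ ≤ z.re ∧ z.re ≤ 1 - δ}

theorem Sd_sub {δ : ℝ} (hδ : 0 < δ) : Sd δ ⊆ VOL.strip := fun _ h =>
  ⟨lt_of_lt_of_le hδ h.1, lt_of_le_of_lt h.2 (by linarith only [hδ])⟩

theorem Sd_convex (δ : ℝ) : Convex ℝ (Sd δ) := by
  have h1 : Convex ℝ {z : ℂ | δ ≤ z.re} := convex_halfSpace_re_ge δ
  have h2 : Convex ℝ {z : ℂ | z.re ≤ 1 - δ} := convex_halfSpace_re_le (1 - δ)
  exact h1.inter h2

theorem sin_Sd {δ x : ℝ} (hδ : 0 < δ) (hδ2 : δ ≤ 1 / 2) (h1 : δ ≤ x) (h2 : x ≤ 1 - δ) :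
    Real.sin (Real.pi * δ) ≤ Real.sin (Real.pi * x) := by
  have hpi := Real.pi_pos
  rcases le_total x (1 / 2) with h | h
  · apply Real.sin_le_sin_of_le_of_le_pi_div_two
    · nlinarith only [hpi, hδ]
    · nlinarith only [hδ, hδ2, hpi, h]
    · nlinarith only [hδ, hδ2, h1, hpi]
  · have e : Real.sin (Real.pi * x) = Real.sin (Real.pi * (1 - x)) := by
      rw [mul_sub, mul_one, Real.sin_pi_sub]
    rw [e]
    apply Real.sin_le_sin_of_le_of_le_pi_div_two
    · nlinarith only [hpi, hδ]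
    · nlinarith only [hδ, hδ2, hpi, h]
    · nlinarith only [hδ, hδ2, h2, hpi]

theorem ph_lip {δ : ℝ} (hδ : 0 < δ) (hδ2 : δ ≤ 1 / 2) {z w : ℂ} (hz : z ∈ Sd δ) (hw : w ∈ Sd δ) :
    ‖VOL.ph z - VOL.ph w‖ ≤ Real.pi / Real.sin (Real.pi * δ) * ‖z - w‖ := by
  have hs : 0 < Real.sin (Real.pi * δ) := VOL.sin_pi_pos hδ (by linarith only [hδ, hδ2])
  refine (Sd_convex δ).norm_image_sub_le_of_norm_hasDerivWithin_le (𝕜 := ℂ) (f := VOL.ph)
    (f' := VOL.ph') (C := Real.pi / Real.sin (Real.pi * δ)) (x := w) (y := z)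
    (fun v hv => (VOL.hasDerivAt_ph (Sd_sub hδ hv)).hasDerivWithinAt) (fun v hv => ?_) hw hz
  refine (VOL.norm_ph'_le (Sd_sub hδ hv)).trans ?_
  exact div_le_div_of_nonneg_left Real.pi_pos.le hs (sin_Sd hδ hδ2 hv.1 hv.2)

theorem Fh_taylor {δ : ℝ} (hδ : 0 < δ) (hδ2 : δ ≤ 1 / 2) {z w : ℂ} (hz : z ∈ Sd δ)
    (hw : w ∈ Sd δ) : ‖VOL.Fh z - VOL.Fh w - (z - w) * VOL.ph w‖ ≤
      Real.pi / Real.sin (Real.pi * δ) * ‖z - w‖ ^ 2 := by
  have hs : 0 < Real.sin (Real.pi * δ) := VOL.sin_pi_pos hδ (by linarith only [hδ, hδ2])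
  have hc : 0 ≤ Real.pi / Real.sin (Real.pi * δ) := div_nonneg Real.pi_pos.le hs.le
  have hseg : segment ℝ w z ⊆ Sd δ := (Sd_convex δ).segment_subset hw hz
  have h1 := (convex_segment w z).norm_image_sub_le_of_norm_hasDerivWithin_le (𝕜 := ℂ)
    (f := fun v => VOL.Fh v - v * VOL.ph w) (f' := fun v => VOL.ph v - 1 * VOL.ph w)
    (C := Real.pi / Real.sin (Real.pi * δ) * ‖z - w‖) (x := w) (y := z)
    (fun v hv => ((VOL.hasDerivAt_Fh (Sd_sub hδ (hseg hv))).sub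
      ((hasDerivAt_id v).mul_const (VOL.ph w))).hasDerivWithinAt)
    (fun v hv => by
      rw [one_mul]
      refine (ph_lip hδ hδ2 (hseg hv) hw).trans ?_
      apply mul_le_mul_of_nonneg_left _ hc
      obtain ⟨a, b, ha, hb, hab, rfl⟩ := hv
      have e : a • w + b • z - w = b • (z - w) := by
        have : a = 1 - b := by linarith only [hab]
        rw [this, sub_smul, one_smul, smul_sub]
        ring
      rw [e, norm_smul, Real.norm_of_nonneg hb]
      have hb1 : b ≤ 1 := by linarith only [ha, hab]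
      exact mul_le_of_le_one_left (norm_nonneg _) hb1)
    (left_mem_segment ℝ w z) (right_mem_segment ℝ w z)
  have e2 : VOL.Fh z - VOL.Fh w - (z - w) * VOL.ph w =
      VOL.Fh z - z * VOL.ph w - (VOL.Fh w - w * VOL.ph w) := by ring
  rw [e2]
  refine h1.trans (le_of_eq ?_)
  ring

theorem norm_J_Sd {δ : ℝ} (hδ : 0 < δ) (hδ2 : δ ≤ 1 / 2) {n : ℝ} (hn0 : 0 < n) {z : ℂ}
    (hz : z ∈ Sd δ) : ‖VOL.J n z‖ ≤ 1 / (2 * Real.pi * Real.sin (Real.pi * δ)) / n := by
  have hs : 0 < Real.sin (Real.pi * δ) := VOL.sin_pi_pos hδ (by linarith only [hδ, hδ2])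
  have hpi := Real.pi_pos
  refine (VOL.norm_J_le hn0 (Sd_sub hδ hz)).trans ?_
  rw [div_div]
  apply div_le_div_of_nonneg_left (by norm_num) (by positivity)
  have := sin_Sd hδ hδ2 hz.1 hz.2
  calc 2 * Real.pi * Real.sin (Real.pi * δ) * n = 2 * Real.pi * n * Real.sin (Real.pi * δ) := by ring
    _ ≤ 2 * Real.pi * n * Real.sin (Real.pi * z.re) :=
      mul_le_mul_of_nonneg_left this (by positivity)

theorem re_add_half (w ζ : ℂ) : (w + 1 / 2 + ζ).re = w.re + 1 / 2 + ζ.re := by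
  rw [Complex.add_re, Complex.add_re]; norm_num

theorem re_sub_half (w ζ : ℂ) : (w + 1 / 2 - ζ).re = w.re + 1 / 2 - ζ.re := by
  rw [Complex.sub_re, Complex.add_re]; norm_num

/-- `Tn` is `n tp - 2 ph w` up to `O(1/n)` -/
theorem Tn_expand : ∃ C : ℝ, 0 ≤ C ∧ ∀ n : ℕ, 8 ≤ n → ∀ w ζ ζ' : ℂ, 1 / 8 ≤ w.re → w.re ≤ 3 / 8 →
    |ζ.re| ≤ 1 / 16 → |ζ'.re| ≤ 1 / 16 →
    ‖Tn n w ζ ζ' - (n * tp w ζ ζ' - 2 * ph w)‖ ≤ C / n := by
  have hδ : (0 : ℝ) < 1 / 16 := by norm_num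
  have hδ2 : (1 / 16 : ℝ) ≤ 1 / 2 := by norm_num
  have hpi := Real.pi_pos
  set sδ : ℝ := Real.sin (Real.pi * (1 / 16)) with hsδ
  have hs : 0 < sδ := VOL.sin_pi_pos hδ (by norm_num)
  refine ⟨8 * (1 / (2 * Real.pi * sδ)) + Real.pi / sδ, by positivity, ?_⟩
  intro n hn w ζ ζ' h1 h2 h3 h4
  have hnR : (8 : ℝ) ≤ n := by exact_mod_cast hn
  have hn0 : (0 : ℝ) < n := by linarith only [hnR]
  have hnc0 : (n : ℂ) ≠ 0 := by exact_mod_cast hn0.ne'
  obtain ⟨a1, a2⟩ := abs_le.mp h3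
  obtain ⟨b1, b2⟩ := abs_le.mp h4
  have h2n : 1 / (2 * (n : ℝ)) ≤ 1 / 16 := by
    apply div_le_div_of_nonneg_left (by norm_num) (by norm_num)
    linarith only [hnR]
  have h2n0 : 0 < 1 / (2 * (n : ℝ)) := by positivity
  have m1 : w + 1 / 2 + ζ ∈ Sd (1 / 16) := ⟨by rw [re_add_half]; linarith only [h1, a1, h2n, h2n0], by rw [re_add_half]; linarith only [h2, a2]⟩
  have m2 : w + 1 / 2 - ζ ∈ Sd (1 / 16) := ⟨by rw [re_sub_half]; linarith only [h1, a2, h2n, h2n0], by rw [re_sub_half]; linarith only [h2, a1]⟩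
  have m1' : w + 1 / 2 + ζ' ∈ Sd (1 / 16) :=
    ⟨by rw [re_add_half]; linarith only [h1, b1, h2n, h2n0], by rw [re_add_half]; linarith only [h2, b2]⟩
  have m2' : w + 1 / 2 - ζ' ∈ Sd (1 / 16) :=
    ⟨by rw [re_sub_half]; linarith only [h1, b2, h2n, h2n0], by rw [re_sub_half]; linarith only [h2, b1]⟩
  have ecast : (1 : ℂ) / (2 * n) = ((1 / (2 * (n : ℝ)) : ℝ) : ℂ) := by push_cast; rfl
  have m3 : w + 1 / (2 * n) ∈ Sd (1 / 16) := by
    rw [ecast]
    refine ⟨?_, ?_⟩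
    · rw [Complex.add_re, Complex.ofReal_re]; linarith only [h1, h2n, h2n0]
    · rw [Complex.add_re, Complex.ofReal_re]; linarith only [h2, h2n, h2n0]
  have m4 : w ∈ Sd (1 / 16) := ⟨by linarith only [h1, h2n, h2n0], by linarith only [h2, h2n, h2n0]⟩
  have hT := Fh_taylor hδ hδ2 m3 m4
  rw [add_sub_cancel_left] at hT
  have hnn : ‖(1 : ℂ) / (2 * n)‖ = 1 / (2 * (n : ℝ)) := by
    rw [ecast, Complex.norm_real, Real.norm_of_nonneg h2n0.le]
  rw [hnn] at hT
  set T : ℂ := VOL.Fh (w + 1 / (2 * n)) - VOL.Fh w - (1 / (2 * n)) * VOL.ph w with hTd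
  have hM : ∀ z, VOL.M n z = n * VOL.Fh z + VOL.J n z := fun z => rfl
  have hFh : VOL.Fh (w + 1 / (2 * n)) = VOL.Fh w + (1 / (2 * n)) * VOL.ph w + T := by
    rw [hTd]; ring
  have hid : Tn n w ζ ζ' - (n * tp w ζ ζ' - 2 * ph w) = VOL.J n (w + 1 / 2 + ζ) +
      VOL.J n (w + 1 / 2 - ζ) + VOL.J n (w + 1 / 2 + ζ') + VOL.J n (w + 1 / 2 - ζ') -
      4 * VOL.J n (w + 1 / (2 * n)) - 4 * n * T := by
    rw [Tn, tp, hM, hM, hM, hM, hM, hFh]
    field_simp
    ring
  rw [hid]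
  have j1 := norm_J_Sd hδ hδ2 hn0 m1
  have j2 := norm_J_Sd hδ hδ2 hn0 m2
  have j3 := norm_J_Sd hδ hδ2 hn0 m1'
  have j4 := norm_J_Sd hδ hδ2 hn0 m2'
  have j5 := norm_J_Sd hδ hδ2 hn0 m3
  rw [← hsδ] at j1 j2 j3 j4 j5 hT
  have t1 : ‖4 * (n : ℂ) * T‖ ≤ Real.pi / sδ / n := by
    rw [norm_mul, norm_mul, Complex.norm_natCast]
    have e0 : ‖(4 : ℂ)‖ = 4 := by norm_num
    rw [e0]
    calc 4 * n * ‖T‖ ≤ 4 * n * (Real.pi / sδ * (1 / (2 * n)) ^ 2) :=
          mul_le_mul_of_nonneg_left hT (by positivity)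
      _ = Real.pi / sδ / n := by
          field_simp
          ring
  have t2 : ‖4 * VOL.J n (w + 1 / (2 * n))‖ ≤ 4 * (1 / (2 * Real.pi * sδ) / n) := by
    rw [norm_mul, show ‖(4 : ℂ)‖ = 4 by norm_num]
    exact mul_le_mul_of_nonneg_left j5 (by norm_num)
  calc _ ≤ 1 / (2 * Real.pi * sδ) / n + 1 / (2 * Real.pi * sδ) / n +
        1 / (2 * Real.pi * sδ) / n + 1 / (2 * Real.pi * sδ) / n +
        4 * (1 / (2 * Real.pi * sδ) / n) + Real.pi / sδ / n := by
        refine (norm_sub_le _ _).trans (add_le_add ?_ t1)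
        refine (norm_sub_le _ _).trans (add_le_add ?_ t2)
        refine (norm_add_le _ _).trans (add_le_add ?_ j4)
        refine (norm_add_le _ _).trans (add_le_add ?_ j3)
        exact (norm_add_le _ _).trans (add_le_add j1 j2)
    _ = (8 * (1 / (2 * Real.pi * sδ)) + Real.pi / sδ) / n := by ring

theorem strip_of {n : ℕ} (hn : 8 ≤ n) {w ζ : ℂ} (h0 : 0 < w.re) (h1 : w.re < 3 / 8 + 1 / 32)
    (h2 : |ζ.re| ≤ 1 / 16) : w + 1 / 2 + ζ ∈ VOL.strip ∧ w + 1 / 2 - ζ ∈ VOL.strip ∧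
      w + 1 / (2 * n) ∈ VOL.strip := by
  have hnR : (8 : ℝ) ≤ n := by exact_mod_cast hn
  obtain ⟨a1, a2⟩ := abs_le.mp h2
  have h2n : 1 / (2 * (n : ℝ)) ≤ 1 / 16 := by
    apply div_le_div_of_nonneg_left (by norm_num) (by norm_num)
    linarith only [hnR]
  have h2n0 : 0 < 1 / (2 * (n : ℝ)) := by positivity
  have ecast : (1 : ℂ) / (2 * n) = ((1 / (2 * (n : ℝ)) : ℝ) : ℂ) := by push_cast; rfl
  refine ⟨⟨?_, ?_⟩, ⟨?_, ?_⟩, ⟨?_, ?_⟩⟩
  · rw [re_add_half]; linarith only [h0, a1, h2n, h2n0]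
  · rw [re_add_half]; linarith only [h1, a2, h2n, h2n0]
  · rw [re_sub_half]; linarith only [h0, a2, h2n, h2n0]
  · rw [re_sub_half]; linarith only [h1, a1, h2n, h2n0]
  · rw [ecast, Complex.add_re, Complex.ofReal_re]; linarith only [h0, h2n0]
  · rw [ecast, Complex.add_re, Complex.ofReal_re]; linarith only [h1, h2n, h2n0]

/-- `Tn` is holomorphic in `w` and continuous in all variables -/
theorem Tn_differentiable {n : ℕ} (hn : 8 ≤ n) {w ζ ζ' : ℂ} (h0 : 0 < w.re) (h1 : w.re < 3 / 8 + 1 / 32)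
    (h2 : |ζ.re| ≤ 1 / 16) (h3 : |ζ'.re| ≤ 1 / 16) :
    DifferentiableAt ℂ (fun w => Tn n w ζ ζ') w := by
  have hn0 : (0 : ℝ) < n := by
    have : (8 : ℝ) ≤ n := by exact_mod_cast hn
    linarith only [h0, h1, this]
  obtain ⟨s1, s2, s3⟩ := strip_of hn h0 h1 h2
  obtain ⟨s1', s2', -⟩ := strip_of hn h0 h1 h3
  unfold Tn
  have dM : ∀ {z : ℂ}, z ∈ VOL.strip → DifferentiableAt ℂ (VOL.M n) z := fun hz =>
    (VOL.hasDerivAt_M hn0 hz).differentiableAt
  have d1 : DifferentiableAt ℂ (fun w => VOL.M n (w + 1 / 2 + ζ)) w :=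
    (dM s1).comp w ((differentiableAt_id.add_const (1 / 2)).add_const ζ)
  have d2 : DifferentiableAt ℂ (fun w => VOL.M n (w + 1 / 2 - ζ)) w :=
    (dM s2).comp w ((differentiableAt_id.add_const (1 / 2)).sub_const ζ)
  have d1' : DifferentiableAt ℂ (fun w => VOL.M n (w + 1 / 2 + ζ')) w :=
    (dM s1').comp w ((differentiableAt_id.add_const (1 / 2)).add_const ζ')
  have d2' : DifferentiableAt ℂ (fun w => VOL.M n (w + 1 / 2 - ζ')) w :=
    (dM s2').comp w ((differentiableAt_id.add_const (1 / 2)).sub_const ζ')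
  have d3 : DifferentiableAt ℂ (fun w => VOL.M n (w + 1 / (2 * n))) w :=
    (dM s3).comp w (differentiableAt_id.add_const _)
  exact (((d1.add d2).add d1').add d2').sub (d3.const_mul 4)

theorem Tn_continuousOn {n : ℕ} (hn : 8 ≤ n) :
    ContinuousOn (fun p : ℂ × ℂ × ℂ => Tn n p.1 p.2.1 p.2.2)
      {p | 0 < p.1.re ∧ p.1.re ≤ 3 / 8 ∧ |p.2.1.re| ≤ 1 / 16 ∧ |p.2.2.re| ≤ 1 / 16} := by
  have hn0 : (0 : ℝ) < n := by
    have : (8 : ℝ) ≤ n := by exact_mod_cast hn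
    linarith only [this]
  rintro ⟨w, ζ, ζ'⟩ ⟨h0, h1, h2, h3⟩
  simp only at h0 h1 h2 h3
  obtain ⟨s1, s2, s3⟩ := strip_of hn h0 (by linarith only [h0, h1]) h2
  obtain ⟨s1', s2', -⟩ := strip_of hn h0 (by linarith only [h0, h1]) h3
  have cM : ∀ {z : ℂ}, z ∈ VOL.strip → ContinuousAt (VOL.M n) z := fun hz =>
    (VOL.hasDerivAt_M hn0 hz).continuousAt
  unfold Tn
  apply ContinuousAt.continuousWithinAt
  have d1 : ContinuousAt (fun p : ℂ × ℂ × ℂ => VOL.M n (p.1 + 1 / 2 + p.2.1)) (w, ζ, ζ') :=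
    ContinuousAt.comp (f := fun p : ℂ × ℂ × ℂ => p.1 + 1 / 2 + p.2.1) (cM s1) (by fun_prop)
  have d2 : ContinuousAt (fun p : ℂ × ℂ × ℂ => VOL.M n (p.1 + 1 / 2 - p.2.1)) (w, ζ, ζ') :=
    ContinuousAt.comp (f := fun p : ℂ × ℂ × ℂ => p.1 + 1 / 2 - p.2.1) (cM s2) (by fun_prop)
  have d1' : ContinuousAt (fun p : ℂ × ℂ × ℂ => VOL.M n (p.1 + 1 / 2 + p.2.2)) (w, ζ, ζ') :=
    ContinuousAt.comp (f := fun p : ℂ × ℂ × ℂ => p.1 + 1 / 2 + p.2.2) (cM s1') (by fun_prop)
  have d2' : ContinuousAt (fun p : ℂ × ℂ × ℂ => VOL.M n (p.1 + 1 / 2 - p.2.2)) (w, ζ, ζ') :=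
    ContinuousAt.comp (f := fun p : ℂ × ℂ × ℂ => p.1 + 1 / 2 - p.2.2) (cM s2') (by fun_prop)
  have d3 : ContinuousAt (fun p : ℂ × ℂ × ℂ => VOL.M n (p.1 + 1 / (2 * n))) (w, ζ, ζ') :=
    ContinuousAt.comp (f := fun p : ℂ × ℂ × ℂ => p.1 + 1 / (2 * n)) (cM s3) (by fun_prop)
  exact (((d1.add d2).add d1').add d2').sub (d3.const_mul 4)

/-- values of the potential at real points -/
theorem tp_conj {w ζ ζ' : ℂ} (h0 : 0 < w.re) (h1 : w.re ≤ 3 / 8) (h2 : |ζ.re| ≤ 1 / 16)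
    (h3 : |ζ'.re| ≤ 1 / 16) :
    tp (starRingEnd ℂ w) (starRingEnd ℂ ζ) (starRingEnd ℂ ζ') = starRingEnd ℂ (tp w ζ ζ') := by
  obtain ⟨s1, s2, -⟩ := strip_of (n := 8) le_rfl h0 (by linarith only [h0, h1]) h2
  obtain ⟨s1', s2', -⟩ := strip_of (n := 8) le_rfl h0 (by linarith only [h0, h1]) h3
  have sw : w ∈ VOL.strip := ⟨h0, by linarith only [h0, h1]⟩
  have c1 := Fh_conj s1
  have c2 := Fh_conj s2
  have c3 := Fh_conj s1'
  have c4 := Fh_conj s2'
  have c5 := Fh_conj sw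
  have e : (starRingEnd ℂ) (1 / 2 : ℂ) = 1 / 2 := by simp [Complex.conj_ofNat]
  simp only [map_add, map_sub, e] at c1 c2 c3 c4
  rw [tp, tp, c1, c2, c3, c4, c5]
  simp [Complex.conj_ofNat]

theorem tp_center : tp (1 / 4) 0 0 = ((ts : ℝ) : ℂ) := by
  have h1 : (1 / 4 : ℂ) ∈ VOL.strip := ⟨by norm_num, by norm_num⟩
  have h2 := Fh_conj h1
  have e : (starRingEnd ℂ) (1 / 4 : ℂ) = 1 / 4 := by simp [Complex.conj_ofNat]
  rw [e] at h2
  have h3 : Fh (1 / 4) = (((Fh (1 / 4)).re : ℝ) : ℂ) := (Complex.conj_eq_iff_re.mp h2.symm).symm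
  have h4 : Fh (3 / 4) = -Fh (1 / 4) := by
    rw [← Fh_one_sub]
    norm_num
  rw [tp, ts]
  norm_num
  rw [h4, ← h3]
  ring

end Pool.Agent.Work.MP_b30479_gtS.LT

end
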