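import Pool.Agent.Work.MP_b30479_gt.TBS.VOL.Ph
import Pool.Agent.Work.MP_b30479_gt.TBS.LT.Defs

section

/-!
# The ring function near the regular ideal octahedron
-/

namespace Pool.Agent.Work.MP_b30479_gtS.VOL

set_option linter.unusedSimpArgs false

open Complex Set

/-- the ring function: `-2F(1/2-α) - F(α-ζ) - F(α+ζ)` -/
noncomputable def Rc (α ζ : ℂ) : ℂ := -2 * Fh (1 / 2 - α) - Fh (α - ζ) - Fh (α + ζ)

/-- its derivative in `α` -/
noncomputable def Ra (α ζ : ℂ) : ℂ := 2 * ph (1 / 2 - α) - ph (α - ζ) - ph (α + ζ)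

/-- its derivative in `ζ` -/
noncomputable def Rz (α ζ : ℂ) : ℂ := ph (α - ζ) - ph (α + ζ)

/-- the closed disc of radius `1/100` around `1/4` -/
def disc : Set ℂ := Metric.closedBall (1 / 4) (1 / 100)

lemma disc_re {w : ℂ} (hw : w ∈ disc) : 24 / 100 ≤ w.re ∧ w.re ≤ 26 / 100 := by
  have h1 : ‖w - 1 / 4‖ ≤ 1 / 100 := by
    rw [← dist_eq_norm]
    exact hw
  have h2 := (Complex.abs_re_le_norm (w - 1 / 4)).trans h1
  have e : (w - 1 / 4 : ℂ).re = w.re - 1 / 4 := by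
    simp [Complex.sub_re]
  rw [e, abs_le] at h2
  constructor <;> linarith only [h2, h2.1, h2.2]

lemma disc_strip {w : ℂ} (hw : w ∈ disc) : w ∈ strip := by
  have := disc_re hw
  exact ⟨by linarith only [this, this.1], by linarith only [this, this.2]⟩

lemma disc_convex : Convex ℝ disc := convex_closedBall _ _

lemma quarter_mem : (1 / 4 : ℂ) ∈ disc := Metric.mem_closedBall_self (by norm_num)

/-- second derivative of `ph` -/
lemma hasDerivAt_ph' {w : ℂ} (hw : w ∈ strip) :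
    HasDerivAt ph' (-(Real.pi ^ 2 / Complex.sin (Real.pi * w) ^ 2)) w := by
  have hs := sin_pi_ne hw
  have h1 : HasDerivAt (fun z : ℂ => Complex.sin (Real.pi * z))
      (Complex.cos (Real.pi * w) * (Real.pi * 1)) w :=
    ((hasDerivAt_id w).const_mul (Real.pi : ℂ)).csin
  have h2 : HasDerivAt (fun z : ℂ => Real.pi * Complex.cos (Real.pi * z))
      (Real.pi * (-Complex.sin (Real.pi * w) * (Real.pi * 1))) w :=
    (((hasDerivAt_id w).const_mul (Real.pi : ℂ)).ccos).const_mul _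
  have h3 := h2.div h1 hs
  have e : (Real.pi * (-Complex.sin (Real.pi * w) * (Real.pi * 1)) * Complex.sin (Real.pi * w) -
      Real.pi * Complex.cos (Real.pi * w) * (Complex.cos (Real.pi * w) * (Real.pi * 1))) /
        Complex.sin (Real.pi * w) ^ 2 = -(Real.pi ^ 2 / Complex.sin (Real.pi * w) ^ 2) := by
    have h4 := Complex.sin_sq_add_cos_sq (Real.pi * w)
    rw [← neg_div]
    congr 1
    linear_combination (-(Real.pi : ℂ) ^ 2) * h4
  rw [← e]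
  exact h3

lemma ph'_quarter : ph' (1 / 4) = Real.pi := by
  unfold ph'
  have e : (Real.pi : ℂ) * (1 / 4) = ((Real.pi / 4 : ℝ) : ℂ) := by
    push_cast
    ring
  rw [e, ← Complex.ofReal_cos, ← Complex.ofReal_sin, Real.cos_pi_div_four, Real.sin_pi_div_four]
  have : (((√2 / 2 : ℝ)) : ℂ) ≠ 0 := by
    have h : (√2 / 2 : ℝ) ≠ 0 := by positivity
    exact_mod_cast h
  field_simp

lemma sin_lower {w : ℂ} (hw : w ∈ disc) : 48 / 100 ≤ ‖Complex.sin (Real.pi * w)‖ := by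
  have h1 := disc_re hw
  have hpi := Real.pi_pos
  have h2 : (Complex.sin (Real.pi * w)).re ≤ ‖Complex.sin (Real.pi * w)‖ :=
    Complex.re_le_norm _
  rw [sin_pi_re] at h2
  have h3 := Real.mul_le_sin (x := Real.pi * w.re) (by nlinarith only [hpi, h1]) (by nlinarith only [hpi, h1])
  have e : 2 / Real.pi * (Real.pi * w.re) = 2 * w.re := by field_simp
  rw [e] at h3
  have h4 := Real.one_le_cosh (Real.pi * w.im)
  nlinarith only [h1, h2, h3, h4, h1.1]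

lemma ph'_near {w : ℂ} (hw : w ∈ disc) : ‖ph' w - Real.pi‖ ≤ Real.pi / 4 := by
  have hpi := Real.pi_pos
  have h1 := disc_convex.norm_image_sub_le_of_norm_hasDerivWithin_le (𝕜 := ℂ) (f := ph')
    (f' := fun v => -(Real.pi ^ 2 / Complex.sin (Real.pi * v) ^ 2))
    (C := Real.pi ^ 2 / (48 / 100) ^ 2) (x := 1 / 4) (y := w)
    (fun v hv => (hasDerivAt_ph' (disc_strip hv)).hasDerivWithinAt)
    (fun v hv => by
      rw [norm_neg, norm_div, norm_pow, norm_pow, Complex.norm_real,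
        Real.norm_of_nonneg hpi.le]
      have := sin_lower hv
      gcongr)
    quarter_mem hw
  rw [ph'_quarter] at h1
  have h2 : ‖w - 1 / 4‖ ≤ 1 / 100 := by
    rw [← dist_eq_norm]
    exact hw
  refine h1.trans ?_
  have h3 : Real.pi ^ 2 / (48 / 100) ^ 2 * ‖w - 1 / 4‖ ≤
      Real.pi ^ 2 / (48 / 100) ^ 2 * (1 / 100) :=
    mul_le_mul_of_nonneg_left h2 (by positivity)
  refine h3.trans ?_
  have h4 := Real.pi_lt_d2
  have h5 : Real.pi ^ 2 ≤ 3.15 * Real.pi := by nlinarith only [hpi, h4]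
  have h6 : Real.pi ^ 2 / (48 / 100) ^ 2 * (1 / 100) = Real.pi ^ 2 * (100 / 2304) := by ring
  rw [h6]
  linarith only [hpi, h5]

/-- the nonlinear part of `ph` -/
noncomputable def eh (w : ℂ) : ℂ := ph w - Real.pi * w

lemma eh_lip {w w' : ℂ} (hw : w ∈ disc) (hw' : w' ∈ disc) :
    ‖eh w' - eh w‖ ≤ Real.pi / 4 * ‖w' - w‖ := by
  apply disc_convex.norm_image_sub_le_of_norm_hasDerivWithin_le (𝕜 := ℂ) (f := eh)
    (f' := fun v => ph' v - Real.pi) (fun v hv => ?_) (fun v hv => ph'_near hv) hw hw'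
  have h1 : HasDerivAt (fun z : ℂ => (Real.pi : ℂ) * z) (Real.pi * 1) v :=
    (hasDerivAt_id v).const_mul _
  have h2 := (hasDerivAt_ph (disc_strip hv)).fun_sub h1
  rw [mul_one] at h2
  exact h2.hasDerivWithinAt

/-- radius of the polydisc -/
def cb (c : ℂ) : Set ℂ := Metric.closedBall c (1 / 200)

lemma cb_disc1 {α : ℂ} (hα : α ∈ cb (1 / 4)) : 1 / 2 - α ∈ disc := by
  have h1 : ‖α - 1 / 4‖ ≤ 1 / 200 := by
    rw [← dist_eq_norm]
    exact hα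
  change dist (1 / 2 - α) (1 / 4) ≤ 1 / 100
  rw [dist_eq_norm]
  have e : (1 / 2 - α - 1 / 4 : ℂ) = -(α - 1 / 4) := by ring
  rw [e, norm_neg]
  linarith only [h1]

lemma cb_disc2 {α ζ : ℂ} (hα : α ∈ cb (1 / 4)) (hζ : ζ ∈ cb 0) : α - ζ ∈ disc := by
  have h1 : ‖α - 1 / 4‖ ≤ 1 / 200 := by
    rw [← dist_eq_norm]
    exact hα
  have h2 : ‖ζ‖ ≤ 1 / 200 := by
    have : dist ζ 0 ≤ 1 / 200 := hζ
    rwa [dist_zero_right] at this
  change dist (α - ζ) (1 / 4) ≤ 1 / 100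
  rw [dist_eq_norm]
  have e : (α - ζ - 1 / 4 : ℂ) = (α - 1 / 4) - ζ := by ring
  rw [e]
  have := norm_sub_le (α - 1 / 4) ζ
  linarith only [h1, h2, this]

lemma cb_disc3 {α ζ : ℂ} (hα : α ∈ cb (1 / 4)) (hζ : ζ ∈ cb 0) : α + ζ ∈ disc := by
  have h1 : ‖α - 1 / 4‖ ≤ 1 / 200 := by
    rw [← dist_eq_norm]
    exact hα
  have h2 : ‖ζ‖ ≤ 1 / 200 := by
    have : dist ζ 0 ≤ 1 / 200 := hζ
    rwa [dist_zero_right] at this
  change dist (α + ζ) (1 / 4) ≤ 1 / 100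
  rw [dist_eq_norm]
  have e : (α + ζ - 1 / 4 : ℂ) = (α - 1 / 4) + ζ := by ring
  rw [e]
  have := norm_add_le (α - 1 / 4) ζ
  linarith only [h1, h2, this]

lemma Rz_eq (α ζ : ℂ) : Rz α ζ = -2 * Real.pi * ζ + (eh (α - ζ) - eh (α + ζ)) := by
  unfold Rz eh
  ring

lemma Ra_eq (α ζ : ℂ) : Ra α ζ = -4 * Real.pi * (α - 1 / 4) +
    (2 * eh (1 / 2 - α) - eh (α - ζ) - eh (α + ζ)) := by
  unfold Ra eh
  ring

lemma Rz_zero (α : ℂ) : Rz α 0 = 0 := by
  unfold Rz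
  simp

lemma Ra_quarter : Ra (1 / 4) 0 = 0 := by
  unfold Ra
  rw [show (1 / 2 - 1 / 4 : ℂ) = 1 / 4 by norm_num]
  simp only [sub_zero, add_zero]
  ring

/-- Lipschitz bound of `Rz` -/
lemma Rz_lip {α ζ α' ζ' : ℂ} (hα : α ∈ cb (1 / 4)) (hζ : ζ ∈ cb 0) (hα' : α' ∈ cb (1 / 4))
    (hζ' : ζ' ∈ cb 0) {d : ℝ} (h1 : ‖α' - α‖ ≤ d) (h2 : ‖ζ' - ζ‖ ≤ d) :
    ‖Rz α' ζ' - Rz α ζ‖ ≤ 3 * Real.pi * d := by
  have hpi := Real.pi_pos
  have b1 := eh_lip (cb_disc2 hα hζ) (cb_disc2 hα' hζ')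
  have b2 := eh_lip (cb_disc3 hα hζ) (cb_disc3 hα' hζ')
  have c1 : ‖α' - ζ' - (α - ζ)‖ ≤ 2 * d := by
    have e : α' - ζ' - (α - ζ) = (α' - α) - (ζ' - ζ) := by ring
    rw [e]
    have := norm_sub_le (α' - α) (ζ' - ζ)
    linarith only [h1, h2, this]
  have c2 : ‖α' + ζ' - (α + ζ)‖ ≤ 2 * d := by
    have e : α' + ζ' - (α + ζ) = (α' - α) + (ζ' - ζ) := by ring
    rw [e]
    have := norm_add_le (α' - α) (ζ' - ζ)
    linarith only [h1, h2, this]
  have d1 : ‖eh (α' - ζ') - eh (α - ζ)‖ ≤ Real.pi / 2 * d := by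
    refine b1.trans ?_
    have := mul_le_mul_of_nonneg_left c1 (by positivity : 0 ≤ Real.pi / 4)
    linarith only [this]
  have d2 : ‖eh (α' + ζ') - eh (α + ζ)‖ ≤ Real.pi / 2 * d := by
    refine b2.trans ?_
    have := mul_le_mul_of_nonneg_left c2 (by positivity : 0 ≤ Real.pi / 4)
    linarith only [this]
  have e : Rz α' ζ' - Rz α ζ = -2 * Real.pi * (ζ' - ζ) +
      ((eh (α' - ζ') - eh (α - ζ)) - (eh (α' + ζ') - eh (α + ζ))) := by
    rw [Rz_eq, Rz_eq]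
    ring
  rw [e]
  have d3 : ‖(-2 * Real.pi * (ζ' - ζ) : ℂ)‖ ≤ 2 * Real.pi * d := by
    rw [norm_mul, norm_mul, norm_neg, Complex.norm_ofNat, Complex.norm_real,
      Real.norm_of_nonneg hpi.le]
    exact mul_le_mul_of_nonneg_left h2 (by positivity)
  have d4 := norm_add_le (-2 * Real.pi * (ζ' - ζ) : ℂ)
    ((eh (α' - ζ') - eh (α - ζ)) - (eh (α' + ζ') - eh (α + ζ)))
  have d5 := norm_sub_le (eh (α' - ζ') - eh (α - ζ)) (eh (α' + ζ') - eh (α + ζ))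
  linarith only [d1, d2, d3, d4, d5]

/-- Lipschitz bound of the nonlinear part of `Ra` -/
lemma Ra_lip {α ζ α' ζ' : ℂ} (hα : α ∈ cb (1 / 4)) (hζ : ζ ∈ cb 0) (hα' : α' ∈ cb (1 / 4))
    (hζ' : ζ' ∈ cb 0) {d : ℝ} (h1 : ‖α' - α‖ ≤ d) (h2 : ‖ζ' - ζ‖ ≤ d) :
    ‖(Ra α' ζ' + 4 * Real.pi * α') - (Ra α ζ + 4 * Real.pi * α)‖ ≤ 3 / 2 * Real.pi * d := by
  have hpi := Real.pi_pos
  have b0 := eh_lip (cb_disc1 hα) (cb_disc1 hα')
  have b1 := eh_lip (cb_disc2 hα hζ) (cb_disc2 hα' hζ')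
  have b2 := eh_lip (cb_disc3 hα hζ) (cb_disc3 hα' hζ')
  have c0 : ‖1 / 2 - α' - (1 / 2 - α)‖ ≤ d := by
    have e : 1 / 2 - α' - (1 / 2 - α) = -(α' - α) := by ring
    rw [e, norm_neg]
    exact h1
  have c1 : ‖α' - ζ' - (α - ζ)‖ ≤ 2 * d := by
    have e : α' - ζ' - (α - ζ) = (α' - α) - (ζ' - ζ) := by ring
    rw [e]
    have := norm_sub_le (α' - α) (ζ' - ζ)
    linarith only [h1, h2, this]
  have c2 : ‖α' + ζ' - (α + ζ)‖ ≤ 2 * d := by
    have e : α' + ζ' - (α + ζ) = (α' - α) + (ζ' - ζ) := by ring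
    rw [e]
    have := norm_add_le (α' - α) (ζ' - ζ)
    linarith only [h1, h2, this]
  have d0 : ‖eh (1 / 2 - α') - eh (1 / 2 - α)‖ ≤ Real.pi / 4 * d := by
    refine b0.trans ?_
    exact mul_le_mul_of_nonneg_left c0 (by positivity : 0 ≤ Real.pi / 4)
  have d1 : ‖eh (α' - ζ') - eh (α - ζ)‖ ≤ Real.pi / 2 * d := by
    refine b1.trans ?_
    have := mul_le_mul_of_nonneg_left c1 (by positivity : 0 ≤ Real.pi / 4)
    linarith only [this]
  have d2 : ‖eh (α' + ζ') - eh (α + ζ)‖ ≤ Real.pi / 2 * d := by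
    refine b2.trans ?_
    have := mul_le_mul_of_nonneg_left c2 (by positivity : 0 ≤ Real.pi / 4)
    linarith only [this]
  have e : (Ra α' ζ' + 4 * Real.pi * α') - (Ra α ζ + 4 * Real.pi * α) =
      2 * (eh (1 / 2 - α') - eh (1 / 2 - α)) -
      ((eh (α' - ζ') - eh (α - ζ)) + (eh (α' + ζ') - eh (α + ζ))) := by
    rw [Ra_eq, Ra_eq]
    ring
  rw [e]
  have d3 : ‖2 * (eh (1 / 2 - α') - eh (1 / 2 - α))‖ ≤ 2 * (Real.pi / 4 * d) := by
    rw [norm_mul, Complex.norm_ofNat]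
    exact mul_le_mul_of_nonneg_left d0 (by norm_num)
  have d4 := norm_sub_le (2 * (eh (1 / 2 - α') - eh (1 / 2 - α)))
    ((eh (α' - ζ') - eh (α - ζ)) + (eh (α' + ζ') - eh (α + ζ)))
  have d5 := norm_add_le (eh (α' - ζ') - eh (α - ζ)) (eh (α' + ζ') - eh (α + ζ))
  linarith only [d1, d2, d3, d4, d5]

end Pool.Agent.Work.MP_b30479_gtS.VOL

end

section

/-!
# The potential of a turning point near its critical point `(1/4, 0, 0)`
-/

namespace Pool.Agent.Work.MP_b30479_gtS.LT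

open Finset VOL AX MeasureTheory

lemma concA_re {u : ℂ} {x d : ℝ} (h : ‖u - x‖ ≤ d) : x - d ≤ u.re ∧ u.re ≤ x + d := by
  have h1 := (Complex.abs_re_le_norm (u - x)).trans h
  rw [Complex.sub_re, Complex.ofReal_re, abs_le] at h1
  constructor <;> linarith only [h1, h1.1, h1.2]

lemma concA_strip_p {w ζ : ℂ} (h : |w.re - 1 / 4| ≤ 1 / 8) (h2 : |ζ.re| ≤ 1 / 16) :
    w + 1 / 2 + ζ ∈ strip := by
  rw [abs_le] at h h2
  have e : (w + 1 / 2 + ζ).re = w.re + 1 / 2 + ζ.re := by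
    simp
  refine ⟨?_, ?_⟩
  · rw [e]
    linarith only [h.1, h2.1, h, h2]
  · rw [e]
    linarith only [h.2, h2.2, h, h2]

lemma concA_strip_m {w ζ : ℂ} (h : |w.re - 1 / 4| ≤ 1 / 8) (h2 : |ζ.re| ≤ 1 / 16) :
    w + 1 / 2 - ζ ∈ strip := by
  have := concA_strip_p (ζ := -ζ) h (by simpa using h2)
  rwa [← sub_eq_add_neg] at this

lemma concA_strip_w {w : ℂ} (h : |w.re - 1 / 4| ≤ 1 / 8) : w ∈ strip := by
  rw [abs_le] at h
  exact ⟨by linarith only [h.1, h], by linarith only [h.2, h]⟩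

theorem hasDerivAt_tp_w {w ζ ζ' : ℂ} (h : |w.re - 1 / 4| ≤ 1 / 8) (h2 : |ζ.re| ≤ 1 / 16)
    (h3 : |ζ'.re| ≤ 1 / 16) : HasDerivAt (fun w => tp w ζ ζ') (tw w ζ ζ') w := by
  have d1 : HasDerivAt (fun w : ℂ => Fh (w + 1 / 2 + ζ)) (ph (w + 1 / 2 + ζ)) w := by
    have e : (fun w : ℂ => Fh (w + 1 / 2 + ζ)) = fun w => Fh (w + (1 / 2 + ζ)) := by
      funext x
      rw [add_assoc]
    rw [e]
    apply HasDerivAt.comp_add_const
    rw [← add_assoc]
    exact hasDerivAt_Fh (concA_strip_p h h2)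
  have d2 : HasDerivAt (fun w : ℂ => Fh (w + 1 / 2 - ζ)) (ph (w + 1 / 2 - ζ)) w := by
    have e : (fun w : ℂ => Fh (w + 1 / 2 - ζ)) = fun w => Fh (w + (1 / 2 - ζ)) := by
      funext x
      rw [add_sub_assoc]
    rw [e]
    apply HasDerivAt.comp_add_const
    rw [← add_sub_assoc]
    exact hasDerivAt_Fh (concA_strip_m h h2)
  have d3 : HasDerivAt (fun w : ℂ => Fh (w + 1 / 2 + ζ')) (ph (w + 1 / 2 + ζ')) w := by
    have e : (fun w : ℂ => Fh (w + 1 / 2 + ζ')) = fun w => Fh (w + (1 / 2 + ζ')) := by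
      funext x
      rw [add_assoc]
    rw [e]
    apply HasDerivAt.comp_add_const
    rw [← add_assoc]
    exact hasDerivAt_Fh (concA_strip_p h h3)
  have d4 : HasDerivAt (fun w : ℂ => Fh (w + 1 / 2 - ζ')) (ph (w + 1 / 2 - ζ')) w := by
    have e : (fun w : ℂ => Fh (w + 1 / 2 - ζ')) = fun w => Fh (w + (1 / 2 - ζ')) := by
      funext x
      rw [add_sub_assoc]
    rw [e]
    apply HasDerivAt.comp_add_const
    rw [← add_sub_assoc]
    exact hasDerivAt_Fh (concA_strip_m h h3)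
  have d5 : HasDerivAt (fun w : ℂ => 4 * Fh w) (4 * ph w) w :=
    (hasDerivAt_Fh (concA_strip_w h)).const_mul 4
  exact (((d1.add d2).add d3).add d4).sub d5

theorem hasDerivAt_tp_z {w ζ ζ' : ℂ} (h : |w.re - 1 / 4| ≤ 1 / 8) (h2 : |ζ.re| ≤ 1 / 16)
    (h3 : |ζ'.re| ≤ 1 / 16) : HasDerivAt (fun ζ => tp w ζ ζ') (tz w ζ) ζ := by
  have _ := h3
  have d1 : HasDerivAt (fun ζ : ℂ => Fh (w + 1 / 2 + ζ)) (ph (w + 1 / 2 + ζ)) ζ :=
    (hasDerivAt_Fh (concA_strip_p h h2)).comp_const_add (w + 1 / 2) ζ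
  have d2 : HasDerivAt (fun ζ : ℂ => Fh (w + 1 / 2 - ζ)) (-ph (w + 1 / 2 - ζ)) ζ :=
    (hasDerivAt_Fh (concA_strip_m h h2)).comp_const_sub (w + 1 / 2) ζ
  have d3 := (((d1.add d2).add_const (Fh (w + 1 / 2 + ζ'))).add_const
    (Fh (w + 1 / 2 - ζ'))).sub_const (4 * Fh w)
  have e : tz w ζ = ph (w + 1 / 2 + ζ) + -ph (w + 1 / 2 - ζ) := by
    unfold tz
    ring
  rw [e]
  exact d3

theorem tp_symm (w ζ ζ' : ℂ) : tp w ζ ζ' = tp w ζ' ζ := by
  unfold tp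
  ring

theorem tw_center : tw (1 / 4) 0 0 = 0 := by
  unfold tw
  have e1 : (1 / 4 + 1 / 2 + 0 : ℂ) = 1 - 1 / 4 := by norm_num
  have e2 : (1 / 4 + 1 / 2 - 0 : ℂ) = 1 - 1 / 4 := by norm_num
  rw [e1, e2, ph_one_sub]
  ring

lemma concA_ph'_3 : ph' (3 / 4) = -Real.pi := by
  unfold ph'
  have e : (Real.pi : ℂ) * (3 / 4) = Real.pi - Real.pi * (1 / 4) := by ring
  rw [e, Complex.cos_pi_sub, Complex.sin_pi_sub]
  have h := ph'_quarter
  unfold ph' at h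
  rw [mul_neg, neg_div, h]

/-- the nonlinear part of `ph` has a small Lipschitz constant near any point -/
lemma concA_lip {x : ℂ} (hx : x ∈ strip) {ε : ℝ} (hε : 0 < ε) : ∃ r : ℝ, 0 < r ∧
    (∀ u : ℂ, ‖u - x‖ ≤ r → u ∈ strip) ∧ ∀ u v : ℂ, ‖u - x‖ ≤ r → ‖v - x‖ ≤ r →
      ‖ph v - ph u - ph' x * (v - u)‖ ≤ ε * ‖v - u‖ := by
  have h1 := continuousAt_ph' hx
  rw [Metric.continuousAt_iff] at h1
  obtain ⟨δ, hδ, h2⟩ := h1 ε hε
  obtain ⟨δ', hδ', h3⟩ := Metric.isOpen_iff.mp strip_open x hx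
  refine ⟨min (δ / 2) (δ' / 2), by positivity, ?_, ?_⟩
  · intro u hu
    apply h3
    rw [Metric.mem_ball, dist_eq_norm]
    have := min_le_right (δ / 2) (δ' / 2)
    linarith only [hδ', hu, this]
  · intro u v hu hv
    have hb : ∀ w : ℂ, ‖w - x‖ ≤ min (δ / 2) (δ' / 2) → w ∈ strip := by
      intro w hw
      apply h3
      rw [Metric.mem_ball, dist_eq_norm]
      have := min_le_right (δ / 2) (δ' / 2)
      linarith only [hδ', hw, this]
    have hc : Convex ℝ (Metric.closedBall x (min (δ / 2) (δ' / 2))) := convex_closedBall _ _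
    have key := hc.norm_image_sub_le_of_norm_hasDerivWithin_le (𝕜 := ℂ)
      (f := fun w => ph w - ph' x * w) (f' := fun w => ph' w - ph' x) (C := ε) (x := u) (y := v)
      (fun w hw => by
        have hw' : ‖w - x‖ ≤ min (δ / 2) (δ' / 2) := by
          rw [← dist_eq_norm]
          exact hw
        have g1 : HasDerivAt (fun w : ℂ => ph' x * w) (ph' x * 1) w :=
          (hasDerivAt_id w).const_mul _
        rw [mul_one] at g1
        exact ((hasDerivAt_ph (hb w hw')).fun_sub g1).hasDerivWithinAt)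
      (fun w hw => by
        have hw' : ‖w - x‖ ≤ min (δ / 2) (δ' / 2) := by
          rw [← dist_eq_norm]
          exact hw
        have h4 : dist w x < δ := by
          rw [dist_eq_norm]
          have := min_le_left (δ / 2) (δ' / 2)
          linarith only [hδ, hw', this]
        have h5 := h2 h4
        rw [dist_eq_norm] at h5
        exact h5.le)
      (by rw [Metric.mem_closedBall, dist_eq_norm]; exact hu)
      (by rw [Metric.mem_closedBall, dist_eq_norm]; exact hv)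
    have e : ph v - ph u - ph' x * (v - u) = (ph v - ph' x * v) - (ph u - ph' x * u) := by ring
    rw [e]
    exact key

/-- second order expansion of `Fh` near any point -/
lemma concA_taylor {x : ℂ} (hx : x ∈ strip) {ε : ℝ} (hε : 0 < ε) : ∃ r : ℝ, 0 < r ∧
    ∀ u h : ℂ, ‖u - x‖ ≤ r → ‖u + h - x‖ ≤ r →
      ‖Fh (u + h) - Fh u - ph u * h - ph' x / 2 * h ^ 2‖ ≤ ε * ‖h‖ ^ 2 := by
  obtain ⟨r, hr, hs, hl⟩ := concA_lip hx hε
  refine ⟨r, hr, fun u h hu huh => ?_⟩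
  have hc : Convex ℝ (segment ℝ u (u + h)) := convex_segment _ _
  have hball : segment ℝ u (u + h) ⊆ Metric.closedBall x r :=
    (convex_closedBall x r).segment_subset
      (by rw [Metric.mem_closedBall, dist_eq_norm]; exact hu)
      (by rw [Metric.mem_closedBall, dist_eq_norm]; exact huh)
  have key := hc.norm_image_sub_le_of_norm_hasDerivWithin_le (𝕜 := ℂ)
    (f := fun w => Fh w - ph' x / 2 * w ^ 2 - (ph u - ph' x * u) * w)
    (f' := fun w => (ph w - ph' x * w) - (ph u - ph' x * u)) (C := ε * ‖h‖) (x := u) (y := u + h)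
    (fun w hw => by
      have hw' : ‖w - x‖ ≤ r := by
        rw [← dist_eq_norm]
        exact hball hw
      have g1 : HasDerivAt (fun w : ℂ => ph' x / 2 * w ^ 2) (ph' x / 2 * (2 * w)) w := by
        have := (hasDerivAt_pow 2 w).const_mul (ph' x / 2)
        simpa using this
      have g2 : HasDerivAt (fun w : ℂ => (ph u - ph' x * u) * w) ((ph u - ph' x * u) * 1) w :=
        (hasDerivAt_id w).const_mul _
      have g3 := ((hasDerivAt_Fh (hs w hw')).fun_sub g1).fun_sub g2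
      have e : ph w - ph' x / 2 * (2 * w) - (ph u - ph' x * u) * 1 =
          (ph w - ph' x * w) - (ph u - ph' x * u) := by ring
      rw [e] at g3
      exact g3.hasDerivWithinAt)
    (fun w hw => by
      have hw' : ‖w - x‖ ≤ r := by
        rw [← dist_eq_norm]
        exact hball hw
      have h1 := hl u w hu hw'
      have e : (ph w - ph' x * w) - (ph u - ph' x * u) = ph w - ph u - ph' x * (w - u) := by ring
      rw [e]
      refine h1.trans ?_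
      apply mul_le_mul_of_nonneg_left _ hε.le
      obtain ⟨t, ht, rfl⟩ : ∃ t ∈ Set.Icc (0 : ℝ) 1, u + t • (u + h - u) = w := by
        rw [segment_eq_image'] at hw
        exact hw
      have e2 : u + t • (u + h - u) - u = (t : ℂ) * h := by
        simp only [Complex.real_smul]
        ring
      rw [e2, norm_mul, Complex.norm_real, Real.norm_of_nonneg ht.1]
      exact mul_le_of_le_one_left (norm_nonneg _) ht.2)
    (left_mem_segment ℝ u (u + h)) (right_mem_segment ℝ u (u + h))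
  have e : Fh (u + h) - Fh u - ph u * h - ph' x / 2 * h ^ 2 =
      (Fh (u + h) - ph' x / 2 * (u + h) ^ 2 - (ph u - ph' x * u) * (u + h)) -
      (Fh u - ph' x / 2 * u ^ 2 - (ph u - ph' x * u) * u) := by ring
  rw [e]
  refine key.trans (le_of_eq ?_)
  have e2 : u + h - u = h := by ring
  rw [e2]
  ring

lemma concA_q1 : (3 / 4 : ℂ) ∈ strip := by
  refine ⟨?_, ?_⟩ <;> norm_num

lemma concA_q2 : (1 / 4 : ℂ) ∈ strip := by
  refine ⟨?_, ?_⟩ <;> norm_num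

lemma concA_near_p {w ζ : ℂ} {r r' : ℝ} (hr : r ≤ r' / 2) (h : ‖w - 1 / 4‖ ≤ r) (h2 : ‖ζ‖ ≤ r) :
    ‖w + 1 / 2 + ζ - 3 / 4‖ ≤ r' := by
  have e : w + 1 / 2 + ζ - 3 / 4 = (w - 1 / 4) + ζ := by ring
  rw [e]
  have := norm_add_le (w - 1 / 4) ζ
  linarith only [hr, h, h2, this]

lemma concA_near_m {w ζ : ℂ} {r r' : ℝ} (hr : r ≤ r' / 2) (h : ‖w - 1 / 4‖ ≤ r) (h2 : ‖ζ‖ ≤ r) :
    ‖w + 1 / 2 - ζ - 3 / 4‖ ≤ r' := by
  have e : w + 1 / 2 - ζ - 3 / 4 = (w - 1 / 4) - ζ := by ring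
  rw [e]
  have := norm_sub_le (w - 1 / 4) ζ
  linarith only [hr, h, h2, this]

/-- second order expansion: for every `ε` there is `r` such that on the polydisc of radius `r`
`tp (p + Δ) - tp p - ∇tp p Δ` is `-4π a² - π b² - π c²` up to `ε |Δ|²` (complex displacements) -/
theorem quad_tp {ε : ℝ} (hε : 0 < ε) : ∃ r : ℝ, 0 < r ∧ r ≤ 1 / 16 ∧ ∀ w ζ ζ' a b c : ℂ,
    ‖w - 1 / 4‖ ≤ r → ‖ζ‖ ≤ r → ‖ζ'‖ ≤ r → ‖w + a - 1 / 4‖ ≤ r → ‖ζ + b‖ ≤ r → ‖ζ' + c‖ ≤ r →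
    ‖tp (w + a) (ζ + b) (ζ' + c) - (tp w ζ ζ' + tw w ζ ζ' * a + tz w ζ * b + tz w ζ' * c -
      (4 * Real.pi * a ^ 2 + Real.pi * b ^ 2 + Real.pi * c ^ 2))‖ ≤
      ε * (‖a‖ ^ 2 + ‖b‖ ^ 2 + ‖c‖ ^ 2) := by
  obtain ⟨r1, hr1, h1⟩ := concA_taylor concA_q1 (ε := ε / 8) (by positivity)
  obtain ⟨r2, hr2, h2⟩ := concA_taylor concA_q2 (ε := ε / 8) (by positivity)
  set r := min (min (r1 / 2) r2) (1 / 16) with hr
  have hra : r ≤ r1 / 2 := (min_le_left _ _).trans (min_le_left _ _)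
  have hrb : r ≤ r2 := (min_le_left _ _).trans (min_le_right _ _)
  refine ⟨r, by positivity, min_le_right _ _, fun w ζ ζ' a b c a1 a2 a3 a4 a5 a6 => ?_⟩
  rw [concA_ph'_3] at h1
  rw [ph'_quarter] at h2
  have b1 := h1 (w + 1 / 2 + ζ) (a + b) (concA_near_p hra a1 a2) (by
    have := concA_near_p hra a4 a5
    have e : w + 1 / 2 + ζ + (a + b) - 3 / 4 = w + a + 1 / 2 + (ζ + b) - 3 / 4 := by ring
    rw [e]
    exact this)
  have b2 := h1 (w + 1 / 2 - ζ) (a - b) (concA_near_m hra a1 a2) (by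
    have := concA_near_m hra a4 a5
    have e : w + 1 / 2 - ζ + (a - b) - 3 / 4 = w + a + 1 / 2 - (ζ + b) - 3 / 4 := by ring
    rw [e]
    exact this)
  have b3 := h1 (w + 1 / 2 + ζ') (a + c) (concA_near_p hra a1 a3) (by
    have := concA_near_p hra a4 a6
    have e : w + 1 / 2 + ζ' + (a + c) - 3 / 4 = w + a + 1 / 2 + (ζ' + c) - 3 / 4 := by ring
    rw [e]
    exact this)
  have b4 := h1 (w + 1 / 2 - ζ') (a - c) (concA_near_m hra a1 a3) (by
    have := concA_near_m hra a4 a6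
    have e : w + 1 / 2 - ζ' + (a - c) - 3 / 4 = w + a + 1 / 2 - (ζ' + c) - 3 / 4 := by ring
    rw [e]
    exact this)
  have b5 := h2 w a (a1.trans hrb) (a4.trans hrb)
  have p1 : ‖a + b‖ ^ 2 + ‖a - b‖ ^ 2 = 2 * (‖a‖ ^ 2 + ‖b‖ ^ 2) := by
    have := parallelogram_law_with_norm ℝ a b
    nlinarith only [this]
  have p2 : ‖a + c‖ ^ 2 + ‖a - c‖ ^ 2 = 2 * (‖a‖ ^ 2 + ‖c‖ ^ 2) := by
    have := parallelogram_law_with_norm ℝ a c
    nlinarith only [this]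
  have e : tp (w + a) (ζ + b) (ζ' + c) - (tp w ζ ζ' + tw w ζ ζ' * a + tz w ζ * b + tz w ζ' * c -
      (4 * Real.pi * a ^ 2 + Real.pi * b ^ 2 + Real.pi * c ^ 2)) =
      (Fh (w + 1 / 2 + ζ + (a + b)) - Fh (w + 1 / 2 + ζ) - ph (w + 1 / 2 + ζ) * (a + b) -
        -Real.pi / 2 * (a + b) ^ 2) +
      (Fh (w + 1 / 2 - ζ + (a - b)) - Fh (w + 1 / 2 - ζ) - ph (w + 1 / 2 - ζ) * (a - b) -
        -Real.pi / 2 * (a - b) ^ 2) +
      (Fh (w + 1 / 2 + ζ' + (a + c)) - Fh (w + 1 / 2 + ζ') - ph (w + 1 / 2 + ζ') * (a + c) -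
        -Real.pi / 2 * (a + c) ^ 2) +
      (Fh (w + 1 / 2 - ζ' + (a - c)) - Fh (w + 1 / 2 - ζ') - ph (w + 1 / 2 - ζ') * (a - c) -
        -Real.pi / 2 * (a - c) ^ 2) -
      4 * (Fh (w + a) - Fh w - ph w * a - Real.pi / 2 * a ^ 2) := by
    unfold tp tw tz
    rw [show w + a + 1 / 2 + (ζ + b) = w + 1 / 2 + ζ + (a + b) by ring,
      show w + a + 1 / 2 - (ζ + b) = w + 1 / 2 - ζ + (a - b) by ring,
      show w + a + 1 / 2 + (ζ' + c) = w + 1 / 2 + ζ' + (a + c) by ring,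
      show w + a + 1 / 2 - (ζ' + c) = w + 1 / 2 - ζ' + (a - c) by ring]
    ring
  rw [e]
  refine (norm_sub_le _ _).trans ?_
  have n1 := norm_add₃_le (a := (Fh (w + 1 / 2 + ζ + (a + b)) - Fh (w + 1 / 2 + ζ) -
      ph (w + 1 / 2 + ζ) * (a + b) - -Real.pi / 2 * (a + b) ^ 2) +
      (Fh (w + 1 / 2 - ζ + (a - b)) - Fh (w + 1 / 2 - ζ) - ph (w + 1 / 2 - ζ) * (a - b) -
        -Real.pi / 2 * (a - b) ^ 2))
    (b := (Fh (w + 1 / 2 + ζ' + (a + c)) - Fh (w + 1 / 2 + ζ') - ph (w + 1 / 2 + ζ') * (a + c) -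
        -Real.pi / 2 * (a + c) ^ 2))
    (c := (Fh (w + 1 / 2 - ζ' + (a - c)) - Fh (w + 1 / 2 - ζ') - ph (w + 1 / 2 - ζ') * (a - c) -
        -Real.pi / 2 * (a - c) ^ 2))
  have n2 := norm_add_le (Fh (w + 1 / 2 + ζ + (a + b)) - Fh (w + 1 / 2 + ζ) -
      ph (w + 1 / 2 + ζ) * (a + b) - -Real.pi / 2 * (a + b) ^ 2)
      (Fh (w + 1 / 2 - ζ + (a - b)) - Fh (w + 1 / 2 - ζ) - ph (w + 1 / 2 - ζ) * (a - b) -
        -Real.pi / 2 * (a - b) ^ 2)
  have n3 : ‖4 * (Fh (w + a) - Fh w - ph w * a - Real.pi / 2 * a ^ 2)‖ =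
      4 * ‖Fh (w + a) - Fh w - ph w * a - Real.pi / 2 * a ^ 2‖ := by
    rw [norm_mul, Complex.norm_ofNat]
  rw [n3]
  have q := sq_nonneg ‖b‖
  have q2 := sq_nonneg ‖c‖
  nlinarith only [b1, b2, b3, b4, b5, n1, n2, hε, p1, p2]

/-- concavity along real displacements, near the centre -/
theorem conc : ∃ r : ℝ, 0 < r ∧ r ≤ 1 / 16 ∧ ∀ w ζ ζ' : ℂ, ∀ a b c : ℝ,
    ‖w - 1 / 4‖ ≤ r → ‖ζ‖ ≤ r → ‖ζ'‖ ≤ r → ‖w + a - 1 / 4‖ ≤ r → ‖ζ + b‖ ≤ r → ‖ζ' + c‖ ≤ r →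
    (tp (w + a) (ζ + b) (ζ' + c)).re ≤ (tp w ζ ζ').re + (tw w ζ ζ').re * a + (tz w ζ).re * b +
      (tz w ζ').re * c - (a ^ 2 + b ^ 2 + c ^ 2) := by
  have hpi := Real.pi_gt_three
  obtain ⟨r, hr, hr2, h⟩ := quad_tp (ε := 1) one_pos
  refine ⟨r, hr, hr2, fun w ζ ζ' a b c a1 a2 a3 a4 a5 a6 => ?_⟩
  have h1 := (Complex.re_le_norm _).trans (h w ζ ζ' a b c a1 a2 a3 a4 a5 a6)
  have e1 : (tw w ζ ζ' * (a : ℂ)).re = (tw w ζ ζ').re * a := Complex.re_mul_ofReal _ _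
  have e2 : (tz w ζ * (b : ℂ)).re = (tz w ζ).re * b := Complex.re_mul_ofReal _ _
  have e3 : (tz w ζ' * (c : ℂ)).re = (tz w ζ').re * c := Complex.re_mul_ofReal _ _
  have e4 : ((4 * Real.pi * (a : ℂ) ^ 2 + Real.pi * (b : ℂ) ^ 2 + Real.pi * (c : ℂ) ^ 2)).re =
      4 * Real.pi * a ^ 2 + Real.pi * b ^ 2 + Real.pi * c ^ 2 := by
    have : (4 * Real.pi * (a : ℂ) ^ 2 + Real.pi * (b : ℂ) ^ 2 + Real.pi * (c : ℂ) ^ 2) =
        ((4 * Real.pi * a ^ 2 + Real.pi * b ^ 2 + Real.pi * c ^ 2 : ℝ) : ℂ) := by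
      push_cast
      ring
    rw [this, Complex.ofReal_re]
  rw [Complex.sub_re, Complex.sub_re, Complex.add_re, Complex.add_re, Complex.add_re, e1, e2, e3,
    e4, Complex.norm_real, Complex.norm_real, Complex.norm_real, Real.norm_eq_abs,
    Real.norm_eq_abs, Real.norm_eq_abs, sq_abs, sq_abs, sq_abs] at h1
  nlinarith only [sq_nonneg a, sq_nonneg b, sq_nonneg c, h1, hpi]

/-- the derivatives near the centre -/
theorem tz_approx {ε : ℝ} (hε : 0 < ε) : ∃ r : ℝ, 0 < r ∧ r ≤ 1 / 16 ∧ ∀ w ζ ζ₁ : ℂ,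
    ‖w - 1 / 4‖ ≤ r → ‖ζ‖ ≤ r → ‖ζ₁‖ ≤ r →
    ‖tz w ζ - tz w ζ₁ + 2 * Real.pi * (ζ - ζ₁)‖ ≤ ε * ‖ζ - ζ₁‖ := by
  obtain ⟨r1, hr1, _, h1⟩ := concA_lip concA_q1 (ε := ε / 2) (by positivity)
  set r := min (r1 / 2) (1 / 16) with hr
  have hra : r ≤ r1 / 2 := min_le_left _ _
  refine ⟨r, by positivity, min_le_right _ _, fun w ζ ζ₁ a1 a2 a3 => ?_⟩
  rw [concA_ph'_3] at h1
  have b1 := h1 (w + 1 / 2 + ζ₁) (w + 1 / 2 + ζ) (concA_near_p hra a1 a3) (concA_near_p hra a1 a2)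
  have b2 := h1 (w + 1 / 2 - ζ₁) (w + 1 / 2 - ζ) (concA_near_m hra a1 a3) (concA_near_m hra a1 a2)
  have e1 : w + 1 / 2 + ζ - (w + 1 / 2 + ζ₁) = ζ - ζ₁ := by ring
  have e2 : w + 1 / 2 - ζ - (w + 1 / 2 - ζ₁) = -(ζ - ζ₁) := by ring
  rw [e1] at b1
  rw [e2, norm_neg] at b2
  have e : tz w ζ - tz w ζ₁ + 2 * Real.pi * (ζ - ζ₁) =
      (ph (w + 1 / 2 + ζ) - ph (w + 1 / 2 + ζ₁) - -Real.pi * (ζ - ζ₁)) -
      (ph (w + 1 / 2 - ζ) - ph (w + 1 / 2 - ζ₁) - -Real.pi * -(ζ - ζ₁)) := by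
    unfold tz
    ring
  rw [e]
  refine (norm_sub_le _ _).trans ?_
  linarith only [b1, b2]

theorem tz_approx_w : ∃ r C : ℝ, 0 < r ∧ r ≤ 1 / 16 ∧ 0 ≤ C ∧ ∀ w w₁ ζ : ℂ,
    ‖w - 1 / 4‖ ≤ r → ‖w₁ - 1 / 4‖ ≤ r → ‖ζ‖ ≤ r → ‖tz w ζ - tz w₁ ζ‖ ≤ C * ‖ζ‖ * ‖w - w₁‖ := by
  -- `ph'` is Lipschitz near `3/4`
  have hd := (hasDerivAt_ph' concA_q1).continuousAt
  have hcont : ContinuousAt (fun w : ℂ => -(Real.pi ^ 2 / Complex.sin (Real.pi * w) ^ 2) : ℂ → ℂ)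
      (3 / 4) := by
    apply ContinuousAt.neg
    apply ContinuousAt.div
    · fun_prop
    · fun_prop
    · exact pow_ne_zero 2 (sin_pi_ne concA_q1)
  rw [Metric.continuousAt_iff] at hcont
  obtain ⟨δ, hδ, h2⟩ := hcont 1 one_pos
  obtain ⟨δ', hδ', h3⟩ := Metric.isOpen_iff.mp strip_open (3 / 4) concA_q1
  set R := min (δ / 2) (δ' / 2) with hR
  have hR0 : 0 < R := by positivity
  set L := ‖(-(Real.pi ^ 2 / Complex.sin (Real.pi * (3 / 4)) ^ 2) : ℂ)‖ + 1 with hL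
  have hL0 : 0 ≤ L := by positivity
  have hlip : ∀ u v : ℂ, ‖u - 3 / 4‖ ≤ R → ‖v - 3 / 4‖ ≤ R → ‖ph' v - ph' u‖ ≤ L * ‖v - u‖ := by
    intro u v hu hv
    apply (convex_closedBall (3 / 4 : ℂ) R).norm_image_sub_le_of_norm_hasDerivWithin_le (𝕜 := ℂ)
      (f := ph') (f' := fun w => -(Real.pi ^ 2 / Complex.sin (Real.pi * w) ^ 2)) (C := L)
    · intro w hw
      have hw' : ‖w - 3 / 4‖ ≤ R := by
        rw [← dist_eq_norm]
        exact hw
      apply HasDerivAt.hasDerivWithinAt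
      apply hasDerivAt_ph'
      apply h3
      rw [Metric.mem_ball, dist_eq_norm]
      have := min_le_right (δ / 2) (δ' / 2)
      linarith only [hR0, hw', this]
    · intro w hw
      have hw' : ‖w - 3 / 4‖ ≤ R := by
        rw [← dist_eq_norm]
        exact hw
      have h4 : dist w (3 / 4) < δ := by
        rw [dist_eq_norm]
        have := min_le_left (δ / 2) (δ' / 2)
        linarith only [hR0, hw', this]
      have h5 := h2 h4
      rw [dist_eq_norm] at h5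
      have h6 := norm_sub_norm_le (-(Real.pi ^ 2 / Complex.sin (Real.pi * w) ^ 2) : ℂ)
        (-(Real.pi ^ 2 / Complex.sin (Real.pi * (3 / 4)) ^ 2))
      rw [hL]
      linarith only [h5, h6]
    · rw [Metric.mem_closedBall, dist_eq_norm]
      exact hu
    · rw [Metric.mem_closedBall, dist_eq_norm]
      exact hv
  set r := min (R / 2) (1 / 16) with hr
  have hra : r ≤ R / 2 := min_le_left _ _
  have hrs : r ≤ 1 / 16 := min_le_right _ _
  refine ⟨r, 2 * L, by positivity, hrs, by positivity, fun w w₁ ζ a1 a2 a3 => ?_⟩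
  have key := (convex_closedBall (1 / 4 : ℂ) r).norm_image_sub_le_of_norm_hasDerivWithin_le
    (𝕜 := ℂ) (f := fun w => tz w ζ)
    (f' := fun w => ph' (w + 1 / 2 + ζ) - ph' (w + 1 / 2 - ζ)) (C := 2 * L * ‖ζ‖) (x := w₁)
    (y := w)
    (fun v hv => by
      have hv' : ‖v - 1 / 4‖ ≤ r := by
        rw [← dist_eq_norm]
        exact hv
      have s1 : |v.re - 1 / 4| ≤ 1 / 8 := by
        have := Complex.abs_re_le_norm (v - 1 / 4)
        have e : (v - 1 / 4 : ℂ).re = v.re - 1 / 4 := by simp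
        rw [e] at this
        linarith only [hrs, hv', this]
      have s2 : |ζ.re| ≤ 1 / 16 := by
        have := Complex.abs_re_le_norm ζ
        linarith only [hrs, a3, this]
      have d1 : HasDerivAt (fun w : ℂ => ph (w + 1 / 2 + ζ)) (ph' (v + 1 / 2 + ζ)) v := by
        have e : (fun w : ℂ => ph (w + 1 / 2 + ζ)) = fun w => ph (w + (1 / 2 + ζ)) := by
          funext x
          rw [add_assoc]
        rw [e]
        apply HasDerivAt.comp_add_const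
        rw [← add_assoc]
        exact hasDerivAt_ph (concA_strip_p s1 s2)
      have d2 : HasDerivAt (fun w : ℂ => ph (w + 1 / 2 - ζ)) (ph' (v + 1 / 2 - ζ)) v := by
        have e : (fun w : ℂ => ph (w + 1 / 2 - ζ)) = fun w => ph (w + (1 / 2 - ζ)) := by
          funext x
          rw [add_sub_assoc]
        rw [e]
        apply HasDerivAt.comp_add_const
        rw [← add_sub_assoc]
        exact hasDerivAt_ph (concA_strip_m s1 s2)
      exact (d1.sub d2).hasDerivWithinAt)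
    (fun v hv => by
      have hv' : ‖v - 1 / 4‖ ≤ r := by
        rw [← dist_eq_norm]
        exact hv
      have h4 := hlip (v + 1 / 2 - ζ) (v + 1 / 2 + ζ) (concA_near_m hra hv' a3)
        (concA_near_p hra hv' a3)
      have e : v + 1 / 2 + ζ - (v + 1 / 2 - ζ) = 2 * ζ := by ring
      rw [e, norm_mul, Complex.norm_ofNat] at h4
      refine h4.trans (le_of_eq ?_)
      ring)
    (by rw [Metric.mem_closedBall, dist_eq_norm]; exact a2)
    (by rw [Metric.mem_closedBall, dist_eq_norm]; exact a1)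
  exact key

theorem tw_approx {ε : ℝ} (hε : 0 < ε) : ∃ r : ℝ, 0 < r ∧ r ≤ 1 / 16 ∧ ∀ w w₁ ζ ζ₁ ζ' ζ'₁ : ℂ,
    ‖w - 1 / 4‖ ≤ r → ‖w₁ - 1 / 4‖ ≤ r → ‖ζ‖ ≤ r → ‖ζ₁‖ ≤ r → ‖ζ'‖ ≤ r → ‖ζ'₁‖ ≤ r →
    ‖tw w ζ ζ' - tw w₁ ζ₁ ζ'₁ + 8 * Real.pi * (w - w₁)‖ ≤
      ε * (‖w - w₁‖ + ‖ζ - ζ₁‖ + ‖ζ' - ζ'₁‖) := by
  obtain ⟨r1, hr1, _, h1⟩ := concA_lip concA_q1 (ε := ε / 8) (by positivity)
  obtain ⟨r2, hr2, _, h2⟩ := concA_lip concA_q2 (ε := ε / 8) (by positivity)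
  set r := min (min (r1 / 2) r2) (1 / 16) with hr
  have hra : r ≤ r1 / 2 := (min_le_left _ _).trans (min_le_left _ _)
  have hrb : r ≤ r2 := (min_le_left _ _).trans (min_le_right _ _)
  refine ⟨r, by positivity, min_le_right _ _, fun w w₁ ζ ζ₁ ζ' ζ'₁ a1 a2 a3 a4 a5 a6 => ?_⟩
  rw [concA_ph'_3] at h1
  rw [ph'_quarter] at h2
  have b1 := h1 (w₁ + 1 / 2 + ζ₁) (w + 1 / 2 + ζ) (concA_near_p hra a2 a4)
    (concA_near_p hra a1 a3)
  have b2 := h1 (w₁ + 1 / 2 - ζ₁) (w + 1 / 2 - ζ) (concA_near_m hra a2 a4)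
    (concA_near_m hra a1 a3)
  have b3 := h1 (w₁ + 1 / 2 + ζ'₁) (w + 1 / 2 + ζ') (concA_near_p hra a2 a6)
    (concA_near_p hra a1 a5)
  have b4 := h1 (w₁ + 1 / 2 - ζ'₁) (w + 1 / 2 - ζ') (concA_near_m hra a2 a6)
    (concA_near_m hra a1 a5)
  have b5 := h2 w₁ w (a2.trans hrb) (a1.trans hrb)
  have c1 : ‖w + 1 / 2 + ζ - (w₁ + 1 / 2 + ζ₁)‖ ≤ ‖w - w₁‖ + ‖ζ - ζ₁‖ := by
    have e : w + 1 / 2 + ζ - (w₁ + 1 / 2 + ζ₁) = (w - w₁) + (ζ - ζ₁) := by ring
    rw [e]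
    exact norm_add_le _ _
  have c2 : ‖w + 1 / 2 - ζ - (w₁ + 1 / 2 - ζ₁)‖ ≤ ‖w - w₁‖ + ‖ζ - ζ₁‖ := by
    have e : w + 1 / 2 - ζ - (w₁ + 1 / 2 - ζ₁) = (w - w₁) - (ζ - ζ₁) := by ring
    rw [e]
    exact norm_sub_le _ _
  have c3 : ‖w + 1 / 2 + ζ' - (w₁ + 1 / 2 + ζ'₁)‖ ≤ ‖w - w₁‖ + ‖ζ' - ζ'₁‖ := by
    have e : w + 1 / 2 + ζ' - (w₁ + 1 / 2 + ζ'₁) = (w - w₁) + (ζ' - ζ'₁) := by ring
    rw [e]
    exact norm_add_le _ _
  have c4 : ‖w + 1 / 2 - ζ' - (w₁ + 1 / 2 - ζ'₁)‖ ≤ ‖w - w₁‖ + ‖ζ' - ζ'₁‖ := by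
    have e : w + 1 / 2 - ζ' - (w₁ + 1 / 2 - ζ'₁) = (w - w₁) - (ζ' - ζ'₁) := by ring
    rw [e]
    exact norm_sub_le _ _
  have d1 := mul_le_mul_of_nonneg_left c1 (by positivity : 0 ≤ ε / 8)
  have d2 := mul_le_mul_of_nonneg_left c2 (by positivity : 0 ≤ ε / 8)
  have d3 := mul_le_mul_of_nonneg_left c3 (by positivity : 0 ≤ ε / 8)
  have d4 := mul_le_mul_of_nonneg_left c4 (by positivity : 0 ≤ ε / 8)
  have e : tw w ζ ζ' - tw w₁ ζ₁ ζ'₁ + 8 * Real.pi * (w - w₁) =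
      (ph (w + 1 / 2 + ζ) - ph (w₁ + 1 / 2 + ζ₁) -
        -Real.pi * (w + 1 / 2 + ζ - (w₁ + 1 / 2 + ζ₁))) +
      (ph (w + 1 / 2 - ζ) - ph (w₁ + 1 / 2 - ζ₁) -
        -Real.pi * (w + 1 / 2 - ζ - (w₁ + 1 / 2 - ζ₁))) +
      (ph (w + 1 / 2 + ζ') - ph (w₁ + 1 / 2 + ζ'₁) -
        -Real.pi * (w + 1 / 2 + ζ' - (w₁ + 1 / 2 + ζ'₁))) +
      (ph (w + 1 / 2 - ζ') - ph (w₁ + 1 / 2 - ζ'₁) -
        -Real.pi * (w + 1 / 2 - ζ' - (w₁ + 1 / 2 - ζ'₁))) -
      4 * (ph w - ph w₁ - Real.pi * (w - w₁)) := by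
    unfold tw
    ring
  rw [e]
  refine (norm_sub_le _ _).trans ?_
  have n1 := norm_add₃_le (a := (ph (w + 1 / 2 + ζ) - ph (w₁ + 1 / 2 + ζ₁) -
        -Real.pi * (w + 1 / 2 + ζ - (w₁ + 1 / 2 + ζ₁))) +
      (ph (w + 1 / 2 - ζ) - ph (w₁ + 1 / 2 - ζ₁) -
        -Real.pi * (w + 1 / 2 - ζ - (w₁ + 1 / 2 - ζ₁))))
    (b := (ph (w + 1 / 2 + ζ') - ph (w₁ + 1 / 2 + ζ'₁) -
        -Real.pi * (w + 1 / 2 + ζ' - (w₁ + 1 / 2 + ζ'₁))))
    (c := (ph (w + 1 / 2 - ζ') - ph (w₁ + 1 / 2 - ζ'₁) -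
        -Real.pi * (w + 1 / 2 - ζ' - (w₁ + 1 / 2 - ζ'₁))))
  have n2 := norm_add_le (ph (w + 1 / 2 + ζ) - ph (w₁ + 1 / 2 + ζ₁) -
        -Real.pi * (w + 1 / 2 + ζ - (w₁ + 1 / 2 + ζ₁)))
      (ph (w + 1 / 2 - ζ) - ph (w₁ + 1 / 2 - ζ₁) -
        -Real.pi * (w + 1 / 2 - ζ - (w₁ + 1 / 2 - ζ₁)))
  have n3 : ‖4 * (ph w - ph w₁ - Real.pi * (w - w₁))‖ =
      4 * ‖ph w - ph w₁ - Real.pi * (w - w₁)‖ := by
    rw [norm_mul, Complex.norm_ofNat]
  rw [n3]
  have q1 := norm_nonneg (ζ - ζ₁)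
  have q2 := norm_nonneg (ζ' - ζ'₁)
  have q3 := norm_nonneg (w - w₁)
  nlinarith only [b1, b2, b3, b4, b5, d1, d2, d3, d4, n1, n2, hε, q1, q2]

end Pool.Agent.Work.MP_b30479_gtS.LT

end

section

/-!
# Existence and uniqueness of the critical point for long twist regions
-/

namespace Pool.Agent.Work.MP_b30479_gtS.LT

open Finset VOL AX MeasureTheory

/-- constants near the centre -/
lemma sadA_consts : ∃ R K : ℝ, 0 < R ∧ R ≤ 1 / 16 ∧ 0 ≤ K ∧
    (∀ w w₁ ζ ζ₁ : ℂ, ∀ d : ℝ, ‖w - 1 / 4‖ ≤ R → ‖w₁ - 1 / 4‖ ≤ R → ‖ζ‖ ≤ R → ‖ζ₁‖ ≤ R →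
      ‖w - w₁‖ ≤ d → ‖ζ - ζ₁‖ ≤ d → ‖tz w ζ - tz w₁ ζ₁‖ ≤ K * d) ∧
    (∀ w w₁ ζ ζ₁ ζ' ζ'₁ : ℂ, ‖w - 1 / 4‖ ≤ R → ‖w₁ - 1 / 4‖ ≤ R → ‖ζ‖ ≤ R → ‖ζ₁‖ ≤ R →
      ‖ζ'‖ ≤ R → ‖ζ'₁‖ ≤ R → ‖tw w ζ ζ' - tw w₁ ζ₁ ζ'₁ + 8 * Real.pi * (w - w₁)‖ ≤
      ‖w - w₁‖ + ‖ζ - ζ₁‖ + ‖ζ' - ζ'₁‖) ∧
    (∀ w ζ : ℂ, ‖w - 1 / 4‖ ≤ R → ‖ζ‖ ≤ R → ‖tz w ζ + 2 * Real.pi * ζ‖ ≤ ‖ζ‖) := by
  obtain ⟨r1, hr1, hr1', h1⟩ := tz_approx one_pos
  obtain ⟨r2, C, hr2, hr2', hC, h2⟩ := tz_approx_w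
  obtain ⟨r3, hr3, hr3', h3⟩ := tw_approx one_pos
  have hpi := Real.pi_pos
  set R := min (min r1 r2) r3 with hR
  have R1 : R ≤ r1 := (min_le_left _ _).trans (min_le_left _ _)
  have R2 : R ≤ r2 := (min_le_left _ _).trans (min_le_right _ _)
  have R3 : R ≤ r3 := min_le_right _ _
  refine ⟨R, 2 * Real.pi + 1 + C, by positivity, R1.trans hr1', by positivity, ?_, ?_, ?_⟩
  · intro w w₁ ζ ζ₁ d a1 a2 a3 a4 a5 a6
    have b1 := h1 w ζ ζ₁ (a1.trans R1) (a3.trans R1) (a4.trans R1)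
    have b2 := h2 w w₁ ζ₁ (a1.trans R2) (a2.trans R2) (a4.trans R2)
    have hd : 0 ≤ d := (norm_nonneg _).trans a6
    have c1 : ‖tz w ζ - tz w ζ₁‖ ≤ (2 * Real.pi + 1) * d := by
      have e : tz w ζ - tz w ζ₁ = (tz w ζ - tz w ζ₁ + 2 * Real.pi * (ζ - ζ₁)) -
        2 * Real.pi * (ζ - ζ₁) := by ring
      rw [e]
      refine (norm_sub_le _ _).trans ?_
      have e2 : ‖(2 * Real.pi * (ζ - ζ₁) : ℂ)‖ = 2 * Real.pi * ‖ζ - ζ₁‖ := by
        rw [norm_mul, norm_mul, Complex.norm_ofNat, Complex.norm_real,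
          Real.norm_of_nonneg hpi.le]
      rw [e2]
      nlinarith only [a6, b1, hr1, hr1', hpi, norm_nonneg (ζ - ζ₁)]
    have c2 : ‖tz w ζ₁ - tz w₁ ζ₁‖ ≤ C * d := by
      refine b2.trans ?_
      have h5 : ‖ζ₁‖ ≤ 1 := by linarith only [hr1, hr1', R1, a4]
      calc C * ‖ζ₁‖ * ‖w - w₁‖ ≤ C * 1 * d := by gcongr
        _ = C * d := by ring
    have e : tz w ζ - tz w₁ ζ₁ = (tz w ζ - tz w ζ₁) + (tz w ζ₁ - tz w₁ ζ₁) := by ring
    rw [e]
    refine (norm_add_le _ _).trans ?_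
    linarith only [c1, c2]
  · intro w w₁ ζ ζ₁ ζ' ζ'₁ a1 a2 a3 a4 a5 a6
    have := h3 w w₁ ζ ζ₁ ζ' ζ'₁ (a1.trans R3) (a2.trans R3) (a3.trans R3) (a4.trans R3)
      (a5.trans R3) (a6.trans R3)
    linarith only [this]
  · intro w ζ a1 a2
    have := h1 w ζ 0 (a1.trans R1) (a2.trans R1) (by rw [norm_zero]; exact hr1.le)
    have e : tz w 0 = 0 := by
      unfold tz
      simp
    rw [e] at this
    simpa using this

lemma sadA_sum {M : ℕ} {g : Fin M → Fin (M + 1)} (hg : Function.Injective g) (f : Fin M → ℂ)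
    (i : Fin (M + 1)) {K : ℝ} (hK : 0 ≤ K) (hf : ∀ j, g j = i → ‖f j‖ ≤ K) :
    ‖∑ j, (if g j = i then f j else 0)‖ ≤ K := by
  by_cases h : ∃ j0, g j0 = i
  · obtain ⟨j0, hj0⟩ := h
    have e : ∑ j, (if g j = i then f j else 0) = ∑ j, (if j = j0 then f j else 0) := by
      apply Finset.sum_congr rfl
      intro j _
      have : g j = i ↔ j = j0 := by
        rw [← hj0]
        exact hg.eq_iff
      simp only [this]
    rw [e, Finset.sum_ite_eq' univ j0 f]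
    simp only [mem_univ, if_true]
    exact hf j0 hj0
  · have e : ∑ j, (if g j = i then f j else 0) = 0 := by
      apply Finset.sum_eq_zero
      intro j _
      rw [if_neg]
      intro hj
      exact h ⟨j, hj⟩
    rw [e, norm_zero]
    exact hK

lemma sadA_dz_sub {M : ℕ} (y y' : Fin M → ℂ) (ζ ζ' : Fin (M + 1) → ℂ) (i : Fin (M + 1)) {K : ℝ}
    (hK : 0 ≤ K) (h : ∀ j, ‖tz (y j) (ζ i) - tz (y' j) (ζ' i)‖ ≤ K) :
    ‖dz y ζ i - dz y' ζ' i‖ ≤ 2 * K := by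
  unfold dz
  have e : (∑ j : Fin M, ((if j.castSucc = i then tz (y j) (ζ i) else 0) +
      (if j.succ = i then tz (y j) (ζ i) else 0))) -
      (∑ j : Fin M, ((if j.castSucc = i then tz (y' j) (ζ' i) else 0) +
      (if j.succ = i then tz (y' j) (ζ' i) else 0))) =
      (∑ j : Fin M, (if j.castSucc = i then tz (y j) (ζ i) - tz (y' j) (ζ' i) else 0)) +
      (∑ j : Fin M, (if j.succ = i then tz (y j) (ζ i) - tz (y' j) (ζ' i) else 0)) := by
    rw [← Finset.sum_sub_distrib, ← Finset.sum_add_distrib]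
    apply Finset.sum_congr rfl
    intro j _
    split_ifs <;> ring
  rw [e]
  refine (norm_add_le _ _).trans ?_
  have h1 := sadA_sum (Fin.castSucc_injective M) (fun j => tz (y j) (ζ i) - tz (y' j) (ζ' i)) i hK
    (fun j _ => h j)
  have h2 := sadA_sum (Fin.succ_injective M) (fun j => tz (y j) (ζ i) - tz (y' j) (ζ' i)) i hK
    (fun j _ => h j)
  linarith only [h1, h2]

/-- number of neighbours -/
noncomputable def nbr {M : ℕ} (i : Fin (M + 1)) : ℝ :=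
  ∑ j : Fin M, ((if j.castSucc = i then (1 : ℝ) else 0) + (if j.succ = i then 1 else 0))

lemma nbr_ge {M : ℕ} (hM : 1 ≤ M) (i : Fin (M + 1)) : 1 ≤ nbr i := by
  unfold nbr
  rcases Nat.eq_zero_or_pos i.val with h | h
  · have h1 : (⟨0, hM⟩ : Fin M).castSucc = i := by
      apply Fin.ext
      simp [h]
    refine le_trans ?_ (Finset.single_le_sum (f := fun j : Fin M =>
      ((if j.castSucc = i then (1 : ℝ) else 0) + (if j.succ = i then 1 else 0)))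
      (fun j _ => by split_ifs <;> norm_num) (mem_univ (⟨0, hM⟩ : Fin M)))
    simp only [h1, if_true]
    split_ifs <;> norm_num
  · have hi : i.val - 1 < M := by
      have := i.isLt
      omega
    have h1 : (⟨i.val - 1, hi⟩ : Fin M).succ = i := by
      apply Fin.ext
      simp
      omega
    refine le_trans ?_ (Finset.single_le_sum (f := fun j : Fin M =>
      ((if j.castSucc = i then (1 : ℝ) else 0) + (if j.succ = i then 1 else 0)))
      (fun j _ => by split_ifs <;> norm_num) (mem_univ (⟨i.val - 1, hi⟩ : Fin M)))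
    simp only [h1, if_true]
    split_ifs <;> norm_num

lemma sadA_dz_lin {M : ℕ} (y : Fin M → ℂ) (ζ : Fin (M + 1) → ℂ) (i : Fin (M + 1))
    (h : ∀ j, ‖tz (y j) (ζ i) + 2 * Real.pi * ζ i‖ ≤ ‖ζ i‖) :
    ‖dz y ζ i + 2 * Real.pi * nbr i * ζ i‖ ≤ 2 * ‖ζ i‖ := by
  unfold dz nbr
  have e : (∑ j : Fin M, ((if j.castSucc = i then tz (y j) (ζ i) else 0) +
      (if j.succ = i then tz (y j) (ζ i) else 0))) +
      2 * Real.pi * ((∑ j : Fin M, ((if j.castSucc = i then (1 : ℝ) else 0) +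
        (if j.succ = i then 1 else 0)) : ℝ) : ℂ) * ζ i =
      (∑ j : Fin M, (if j.castSucc = i then tz (y j) (ζ i) + 2 * Real.pi * ζ i else 0)) +
      (∑ j : Fin M, (if j.succ = i then tz (y j) (ζ i) + 2 * Real.pi * ζ i else 0)) := by
    rw [Complex.ofReal_sum, Finset.mul_sum, Finset.sum_mul, ← Finset.sum_add_distrib,
      ← Finset.sum_add_distrib]
    apply Finset.sum_congr rfl
    intro j _
    split_ifs <;> push_cast <;> ring
  rw [e]
  refine (norm_add_le _ _).trans ?_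
  have h1 := sadA_sum (Fin.castSucc_injective M) (fun j => tz (y j) (ζ i) + 2 * Real.pi * ζ i) i
    (norm_nonneg (ζ i)) (fun j _ => h j)
  have h2 := sadA_sum (Fin.succ_injective M) (fun j => tz (y j) (ζ i) + 2 * Real.pi * ζ i) i
    (norm_nonneg (ζ i)) (fun j _ => h j)
  linarith only [h1, h2]

/-- the polydisc -/
def pd (M : ℕ) (δ : ℝ) : Set ((Fin M → ℂ) × (Fin (M + 1) → ℂ)) :=
  {x | (∀ j, ‖x.1 j - 1 / 4‖ ≤ δ) ∧ ∀ i, ‖x.2 i‖ ≤ δ}

lemma isClosed_pd (M : ℕ) (δ : ℝ) : IsClosed (pd M δ) := by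
  have h1 : IsClosed {x : (Fin M → ℂ) × (Fin (M + 1) → ℂ) | ∀ j, ‖x.1 j - 1 / 4‖ ≤ δ} := by
    have e : {x : (Fin M → ℂ) × (Fin (M + 1) → ℂ) | ∀ j, ‖x.1 j - 1 / 4‖ ≤ δ} =
        ⋂ j, {x | ‖x.1 j - 1 / 4‖ ≤ δ} := by
      ext x
      simp
    rw [e]
    apply isClosed_iInter
    intro j
    exact isClosed_le (by fun_prop) continuous_const
  have h2 : IsClosed {x : (Fin M → ℂ) × (Fin (M + 1) → ℂ) | ∀ i, ‖x.2 i‖ ≤ δ} := by
    have e : {x : (Fin M → ℂ) × (Fin (M + 1) → ℂ) | ∀ i, ‖x.2 i‖ ≤ δ} =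
        ⋂ i, {x | ‖x.2 i‖ ≤ δ} := by
      ext x
      simp
    rw [e]
    apply isClosed_iInter
    intro i
    exact isClosed_le (by fun_prop) continuous_const
  exact h1.inter h2

/-- the contraction -/
noncomputable def ct {M : ℕ} (b : Fin (M + 1) → ℤ) (x : (Fin M → ℂ) × (Fin (M + 1) → ℂ)) :
    (Fin M → ℂ) × (Fin (M + 1) → ℂ) :=
  (fun j => x.1 j + tw (x.1 j) (x.2 j.castSucc) (x.2 j.succ) / (8 * Real.pi),
    fun i => -(1 + dz x.1 x.2 i / (2 * Real.pi * Complex.I)) / b i)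

lemma ct_fixed_iff {M : ℕ} {b : Fin (M + 1) → ℤ} (hb : ∀ i, b i ≠ 0)
    (x : (Fin M → ℂ) × (Fin (M + 1) → ℂ)) : ct b x = x ↔ Crit b x.1 x.2 := by
  have hpic : (Real.pi : ℂ) ≠ 0 := by exact_mod_cast Real.pi_ne_zero
  have hI := Complex.I_ne_zero
  have e1 : ∀ j, (ct b x).1 j = x.1 j ↔ tw (x.1 j) (x.2 j.castSucc) (x.2 j.succ) = 0 := by
    intro j
    have e : (ct b x).1 j = x.1 j + tw (x.1 j) (x.2 j.castSucc) (x.2 j.succ) / (8 * Real.pi) :=
      rfl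
    rw [e, add_eq_left, div_eq_zero_iff]
    constructor
    · intro h
      exact h.resolve_right (by simp [hpic])
    · intro h
      exact Or.inl h
  have e2 : ∀ i, (ct b x).2 i = x.2 i ↔
      2 * Real.pi * Complex.I * (b i * x.2 i + 1) + dz x.1 x.2 i = 0 := by
    intro i
    have hbi : (b i : ℂ) ≠ 0 := by exact_mod_cast hb i
    have e : (ct b x).2 i = -(1 + dz x.1 x.2 i / (2 * Real.pi * Complex.I)) / b i := rfl
    rw [e]
    constructor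
    · intro h
      rw [← h]
      field_simp
      ring
    · intro h
      have h3 : dz x.1 x.2 i = -(2 * Real.pi * Complex.I * (b i * x.2 i + 1)) := by
        linear_combination h
      rw [h3]
      field_simp
      ring
  constructor
  · intro h
    exact ⟨fun j => (e1 j).mp (by rw [h]), fun i => (e2 i).mp (by rw [h])⟩
  · intro h
    apply Prod.ext
    · funext j
      exact (e1 j).mpr (h.crit_y j)
    · funext i
      exact (e2 i).mpr (h.crit_z i)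

lemma sadA_lip {R K : ℝ} (_ : 0 < R) (hK : 0 ≤ K)
    (h1 : ∀ w w₁ ζ ζ₁ : ℂ, ∀ d : ℝ, ‖w - 1 / 4‖ ≤ R → ‖w₁ - 1 / 4‖ ≤ R → ‖ζ‖ ≤ R → ‖ζ₁‖ ≤ R →
      ‖w - w₁‖ ≤ d → ‖ζ - ζ₁‖ ≤ d → ‖tz w ζ - tz w₁ ζ₁‖ ≤ K * d)
    (h2 : ∀ w w₁ ζ ζ₁ ζ' ζ'₁ : ℂ, ‖w - 1 / 4‖ ≤ R → ‖w₁ - 1 / 4‖ ≤ R → ‖ζ‖ ≤ R → ‖ζ₁‖ ≤ R →
      ‖ζ'‖ ≤ R → ‖ζ'₁‖ ≤ R → ‖tw w ζ ζ' - tw w₁ ζ₁ ζ'₁ + 8 * Real.pi * (w - w₁)‖ ≤
      ‖w - w₁‖ + ‖ζ - ζ₁‖ + ‖ζ' - ζ'₁‖)
    {M : ℕ} {b : Fin (M + 1) → ℤ} (hb : ∀ i, 2 * K + 1 ≤ |(b i : ℝ)|)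
    {x y : (Fin M → ℂ) × (Fin (M + 1) → ℂ)} (hx : x ∈ pd M R) (hy : y ∈ pd M R) :
    dist (ct b x) (ct b y) ≤ 1 / 2 * dist x y := by
  have hpi := Real.pi_gt_three
  have hpi0 := Real.pi_pos
  set d := dist x y with hd
  have hd0 : 0 ≤ d := dist_nonneg
  have g1 : ∀ j, ‖x.1 j - y.1 j‖ ≤ d := fun j => by
    rw [← dist_eq_norm]
    exact (dist_le_pi_dist x.1 y.1 j).trans (le_max_left _ _)
  have g2 : ∀ i, ‖x.2 i - y.2 i‖ ≤ d := fun i => by
    rw [← dist_eq_norm]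
    exact (dist_le_pi_dist x.2 y.2 i).trans (le_max_right _ _)
  rw [Prod.dist_eq]
  apply max_le
  · rw [dist_pi_le_iff (by positivity)]
    intro j
    rw [dist_eq_norm]
    have b1 := h2 (x.1 j) (y.1 j) (x.2 j.castSucc) (y.2 j.castSucc) (x.2 j.succ) (y.2 j.succ)
      (hx.1 j) (hy.1 j) (hx.2 _) (hy.2 _) (hx.2 _) (hy.2 _)
    have hpic : (Real.pi : ℂ) ≠ 0 := by exact_mod_cast Real.pi_ne_zero
    have e : (ct b x).1 j - (ct b y).1 j = (tw (x.1 j) (x.2 j.castSucc) (x.2 j.succ) -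
        tw (y.1 j) (y.2 j.castSucc) (y.2 j.succ) + 8 * Real.pi * (x.1 j - y.1 j)) /
        (8 * Real.pi) := by
      unfold ct
      simp only
      field_simp
      ring
    rw [e, norm_div]
    have e2 : ‖(8 * Real.pi : ℂ)‖ = 8 * Real.pi := by
      rw [norm_mul, Complex.norm_ofNat, Complex.norm_real, Real.norm_of_nonneg hpi0.le]
    rw [e2, div_le_iff₀ (by positivity)]
    have k1 := g1 j
    have k2 := g2 j.castSucc
    have k3 := g2 j.succ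
    nlinarith only [hd0, b1, k1, k2, k3, hpi]
  · rw [dist_pi_le_iff (by positivity)]
    intro i
    rw [dist_eq_norm]
    have k := sadA_dz_sub x.1 y.1 x.2 y.2 i (K := K * d) (by positivity) (fun j =>
      h1 _ _ _ _ d (hx.1 j) (hy.1 j) (hx.2 i) (hy.2 i) (g1 j) (g2 i))
    have hbi : 0 < |(b i : ℝ)| := lt_of_lt_of_le (by linarith only [hK]) (hb i)
    have hbr : (b i : ℝ) ≠ 0 := abs_pos.mp hbi
    have hbc : (b i : ℂ) ≠ 0 := by exact_mod_cast hbr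
    have hpic : (Real.pi : ℂ) ≠ 0 := by exact_mod_cast Real.pi_ne_zero
    have hI := Complex.I_ne_zero
    have e : (ct b x).2 i - (ct b y).2 i = -(dz x.1 x.2 i - dz y.1 y.2 i) /
        (2 * Real.pi * Complex.I * b i) := by
      unfold ct
      simp only
      field_simp
      ring
    have e2 : ‖(2 * Real.pi * Complex.I * b i : ℂ)‖ = 2 * Real.pi * |(b i : ℝ)| := by
      rw [norm_mul, norm_mul, norm_mul, Complex.norm_I, Complex.norm_ofNat, Complex.norm_real,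
        Real.norm_of_nonneg hpi0.le, mul_one, Complex.norm_intCast]
    rw [e, norm_div, norm_neg, e2, div_le_iff₀ (by positivity)]
    have hbi' := hb i
    have h5 : 2 * (K * d) ≤ 1 / 2 * d * (2 * Real.pi * (2 * K + 1)) := by
      have : 0 ≤ K * d := by positivity
      nlinarith only [hd0, this, hpi]
    have h6 : 1 / 2 * d * (2 * Real.pi * (2 * K + 1)) ≤
        1 / 2 * d * (2 * Real.pi * |(b i : ℝ)|) := by gcongr
    linarith only [k, h5, h6]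

lemma pd_mono {M : ℕ} {δ R : ℝ} (h : δ ≤ R) : pd M δ ⊆ pd M R := fun _ hx =>
  ⟨fun j => (hx.1 j).trans h, fun i => (hx.2 i).trans h⟩

lemma center_pd (M : ℕ) {δ : ℝ} (hδ : 0 ≤ δ) :
    ((fun _ => 1 / 4, fun _ => 0) : (Fin M → ℂ) × (Fin (M + 1) → ℂ)) ∈ pd M δ := by
  refine ⟨fun j => ?_, fun i => ?_⟩
  · simpa using hδ
  · simpa using hδ

lemma sadA_abs {A : ℕ} {b : ℤ} (h : (A : ℤ) ≤ |b|) : (A : ℝ) ≤ |(b : ℝ)| := by
  have h2 : ((A : ℤ) : ℝ) ≤ ((|b| : ℤ) : ℝ) := by exact_mod_cast h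
  rw [Int.cast_abs] at h2
  simpa using h2

/-- smallness of `b_i Im ζ_i` at a critical point near the centre -/
theorem crit_small {ε : ℝ} (hε : 0 < ε) : ∃ η : ℝ, 0 < η ∧ ∀ (M : ℕ) (b : Fin (M + 1) → ℤ)
    (y : Fin M → ℂ) (ζ : Fin (M + 1) → ℂ), Crit b y ζ → (∀ j, ‖y j - 1 / 4‖ ≤ η) →
    (∀ i, ‖ζ i‖ ≤ η) → ∀ i, |(b i : ℝ) * (ζ i).im| ≤ ε ∧ ‖(b i : ℂ) * ζ i + 1‖ ≤ ε := by
  obtain ⟨R, K, hR, hR', hK, h1, _, h3⟩ := sadA_consts
  have hpi := Real.pi_gt_three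
  have hpi0 := Real.pi_pos
  refine ⟨min R (ε / (K + 1)), by positivity, fun M b y ζ hc hy hζ i => ?_⟩
  have hηR : min R (ε / (K + 1)) ≤ R := min_le_left _ _
  have hηε : min R (ε / (K + 1)) ≤ ε / (K + 1) := min_le_right _ _
  have hzi := hζ i
  have hd0 : ‖dz y ζ i - dz y (fun _ => 0) i‖ ≤ 2 * (K * ‖ζ i‖) := by
    apply sadA_dz_sub y y ζ (fun _ => 0) i (by positivity)
    intro j
    apply h1
    · exact (hy j).trans hηR
    · exact (hy j).trans hηR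
    · exact hzi.trans hηR
    · rw [norm_zero]
      exact hR.le
    · simp
    · simp
  have hz0 : dz y (fun _ => 0) i = 0 := by
    unfold dz
    apply Finset.sum_eq_zero
    intro j _
    have : tz (y j) 0 = 0 := by
      unfold tz
      simp
    simp [this]
  rw [hz0, sub_zero] at hd0
  have hcz := hc.crit_z i
  have e1 : 2 * Real.pi * Complex.I * ((b i : ℂ) * ζ i + 1) = -dz y ζ i := by
    linear_combination hcz
  have e2 : 2 * Real.pi * ‖(b i : ℂ) * ζ i + 1‖ = ‖dz y ζ i‖ := by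
    have := congrArg norm e1
    rw [norm_neg, norm_mul, norm_mul, norm_mul, Complex.norm_I, Complex.norm_ofNat,
      Complex.norm_real, Real.norm_of_nonneg hpi0.le, mul_one] at this
    exact this
  have h4 : ‖(b i : ℂ) * ζ i + 1‖ ≤ ε := by
    have h5 : K * ‖ζ i‖ ≤ ε := by
      have h6 : ‖ζ i‖ ≤ ε / (K + 1) := hzi.trans hηε
      calc K * ‖ζ i‖ ≤ (K + 1) * (ε / (K + 1)) := by
            apply mul_le_mul (by linarith only [hR, hR']) h6 (norm_nonneg _) (by positivity)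
        _ = ε := by field_simp
    have h7 := norm_nonneg ((b i : ℂ) * ζ i + 1)
    nlinarith only [hd0, e2, h5, hε, hR, hR', h7, hpi]
  refine ⟨?_, h4⟩
  have e3 : ((b i : ℂ) * ζ i + 1).im = (b i : ℝ) * (ζ i).im := by
    simp
  rw [← e3]
  exact (Complex.abs_im_le_norm _).trans h4

theorem exists_crit {η : ℝ} (hη : 0 < η) : ∃ A : ℕ, ∀ (M : ℕ) (b : Fin (M + 1) → ℤ), 1 ≤ M →
    (∀ i, (A : ℤ) ≤ |b i|) → ∃ (y : Fin M → ℂ) (ζ : Fin (M + 1) → ℂ), Crit b y ζ ∧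
      (∀ j, ‖y j - 1 / 4‖ ≤ η) ∧ (∀ i, ‖ζ i‖ ≤ η) ∧ (∀ i, 0 < (ζ i).im) := by
  obtain ⟨R, K, hR, hR', hK, h1, h2, h3⟩ := sadA_consts
  obtain ⟨η₁, hη₁, hcs⟩ := crit_small (ε := 1 / 4) (by norm_num)
  have hpi := Real.pi_gt_three
  have hpi0 := Real.pi_pos
  set δ := min (min R η) (min η₁ (1 / 16)) with hδd
  have hδ : 0 < δ := by positivity
  have δR : δ ≤ R := (min_le_left _ _).trans (min_le_left _ _)
  have δη : δ ≤ η := (min_le_left _ _).trans (min_le_right _ _)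
  have δη₁ : δ ≤ η₁ := (min_le_right _ _).trans (min_le_left _ _)
  obtain ⟨A, hA⟩ := exists_nat_ge (max (max (2 * K + 1) ((1 + K) / δ)) 6)
  refine ⟨A, fun M b hM hb => ?_⟩
  have hbr : ∀ i, (A : ℝ) ≤ |(b i : ℝ)| := fun i => sadA_abs (hb i)
  have hb1 : ∀ i, 2 * K + 1 ≤ |(b i : ℝ)| := fun i =>
    (((le_max_left _ _).trans (le_max_left _ _)).trans hA).trans (hbr i)
  have hb2 : ∀ i, (1 + K) / δ ≤ |(b i : ℝ)| := fun i =>
    (((le_max_right _ _).trans (le_max_left _ _)).trans hA).trans (hbr i)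
  have hb3 : ∀ i, 6 ≤ |(b i : ℝ)| := fun i =>
    ((le_max_right _ _).trans hA).trans (hbr i)
  have hb0 : ∀ i, b i ≠ 0 := by
    intro i h0
    have := hb3 i
    rw [h0] at this
    norm_num at this
  -- the contraction maps the polydisc to itself
  have hlip : ∀ x ∈ pd M δ, ∀ y ∈ pd M δ, dist (ct b x) (ct b y) ≤ 1 / 2 * dist x y :=
    fun x hx y hy => sadA_lip hR hK h1 h2 hb1 (pd_mono δR hx) (pd_mono δR hy)
  have hmaps : Set.MapsTo (ct b) (pd M δ) (pd M δ) := by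
    intro x hx
    refine ⟨fun j => ?_, fun i => ?_⟩
    · have h4 := hlip x hx _ (center_pd M hδ.le)
      have h5 : ‖(ct b x).1 j - (ct b (fun _ => 1 / 4, fun _ => 0)).1 j‖ ≤
          dist (ct b x) (ct b (fun _ => 1 / 4, fun _ => 0)) := by
        rw [← dist_eq_norm]
        exact (dist_le_pi_dist (ct b x).1 _ j).trans (le_max_left _ _)
      have h6 : (ct b (fun _ => 1 / 4, fun _ => 0)).1 j = 1 / 4 := by
        unfold ct
        simp only
        rw [tw_center]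
        simp
      rw [h6] at h5
      have h7 : dist x ((fun _ => 1 / 4, fun _ => 0) : (Fin M → ℂ) × (Fin (M + 1) → ℂ)) ≤ δ := by
        rw [Prod.dist_eq]
        apply max_le
        · rw [dist_pi_le_iff hδ.le]
          intro j
          rw [dist_eq_norm]
          exact hx.1 j
        · rw [dist_pi_le_iff hδ.le]
          intro i
          rw [dist_eq_norm, sub_zero]
          exact hx.2 i
      linarith only [hδ, h4, h5, h7]
    · have hd0 : ‖dz x.1 x.2 i - dz x.1 (fun _ => 0) i‖ ≤ 2 * (K * 1) := by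
        apply sadA_dz_sub x.1 x.1 x.2 (fun _ => 0) i (by positivity)
        intro j
        apply h1
        · exact (hx.1 j).trans δR
        · exact (hx.1 j).trans δR
        · exact (hx.2 i).trans δR
        · rw [norm_zero]
          exact hR.le
        · simp
        · rw [sub_zero]
          have := (hx.2 i).trans δR
          linarith only [hR, hR', this]
      have hz0 : dz x.1 (fun _ => 0) i = 0 := by
        unfold dz
        apply Finset.sum_eq_zero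
        intro j _
        have : tz (x.1 j) 0 = 0 := by
          unfold tz
          simp
        simp [this]
      rw [hz0, sub_zero] at hd0
      have e : (ct b x).2 i = -(1 + dz x.1 x.2 i / (2 * Real.pi * Complex.I)) / b i := rfl
      have hbi : 0 < |(b i : ℝ)| := lt_of_lt_of_le (by norm_num) (hb3 i)
      have e2 : ‖(2 * Real.pi * Complex.I : ℂ)‖ = 2 * Real.pi := by
        rw [norm_mul, norm_mul, Complex.norm_I, Complex.norm_ofNat, Complex.norm_real,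
          Real.norm_of_nonneg hpi0.le, mul_one]
      rw [e, norm_div, norm_neg, Complex.norm_intCast, div_le_iff₀ hbi]
      have h4 : ‖1 + dz x.1 x.2 i / (2 * Real.pi * Complex.I)‖ ≤ 1 + K := by
        refine (norm_add_le _ _).trans ?_
        rw [norm_one, norm_div, e2]
        have h5 : ‖dz x.1 x.2 i‖ / (2 * Real.pi) ≤ K := by
          rw [div_le_iff₀ (by positivity)]
          nlinarith only [hK, hd0, hR, hR', hpi]
        linarith only [h5]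
      have h5 := hb2 i
      rw [div_le_iff₀ hδ] at h5
      linarith only [h4, h5]
  have hc : IsComplete (pd M δ) := (isClosed_pd M δ).isComplete
  have hk : ContractingWith (1 / 2) (hmaps.restrict (ct b) (pd M δ) (pd M δ)) := by
    refine ⟨by norm_num, ?_⟩
    apply LipschitzWith.of_dist_le_mul
    intro x y
    have h1 := hlip x x.2 y y.2
    have e : (((1 / 2 : NNReal)) : ℝ) = 1 / 2 := by norm_num
    rw [e]
    exact h1
  obtain ⟨x, hx, hf, _⟩ := hk.exists_fixedPoint' hc hmaps (center_pd M hδ.le) (edist_ne_top _ _)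
  have hcrit : Crit b x.1 x.2 := (ct_fixed_iff hb0 x).mp hf
  refine ⟨x.1, x.2, hcrit, fun j => (hx.1 j).trans δη, fun i => (hx.2 i).trans δη, fun i => ?_⟩
  -- positivity of the imaginary parts
  obtain ⟨s1, s2⟩ := hcs M b x.1 x.2 hcrit (fun j => (hx.1 j).trans δη₁)
    (fun i => (hx.2 i).trans δη₁) i
  have hlin := sadA_dz_lin x.1 x.2 i (fun j => h3 _ _ ((hx.1 j).trans δR) ((hx.2 i).trans δR))
  have hn := nbr_ge hM i
  set z := x.2 i with hz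
  set B : ℝ := (b i : ℝ) with hB
  have hcz := hcrit.crit_z i
  set E : ℂ := dz x.1 x.2 i + 2 * Real.pi * nbr i * z with hE
  have e1 : 2 * Real.pi * Complex.I * ((b i : ℂ) * z + 1) = 2 * Real.pi * nbr i * z - E := by
    rw [hE]
    linear_combination hcz
  have e2 : -(2 * Real.pi * (B * z.im)) = 2 * Real.pi * nbr i * z.re - E.re := by
    have h5 := congrArg Complex.re e1
    have l1 : (2 * Real.pi * Complex.I * ((b i : ℂ) * z + 1)).re = -(2 * Real.pi * (B * z.im)) := by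
      have : (2 * Real.pi * Complex.I * ((b i : ℂ) * z + 1)) =
          ((2 * Real.pi : ℝ) : ℂ) * (Complex.I * (((B : ℝ) : ℂ) * z + 1)) := by
        rw [hB]
        push_cast
        ring
      rw [this, Complex.re_ofReal_mul, Complex.I_mul_re]
      simp
    have l2 : (2 * Real.pi * (nbr i : ℂ) * z - E).re = 2 * Real.pi * nbr i * z.re - E.re := by
      have : (2 * Real.pi * (nbr i : ℂ) * z) = ((2 * Real.pi * nbr i : ℝ) : ℂ) * z := by
        push_cast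
        ring
      rw [Complex.sub_re, this, Complex.re_ofReal_mul]
    rw [l1, l2] at h5
    exact h5
  have hEr : |E.re| ≤ 2 * ‖z‖ := (Complex.abs_re_le_norm _).trans hlin
  -- real part of `b z`
  have s3 : |B * z.re + 1| ≤ 1 / 4 := by
    have h5 : ((b i : ℂ) * z + 1).re = B * z.re + 1 := by
      simp [hB]
    rw [← h5]
    exact (Complex.abs_re_le_norm _).trans s2
  rw [abs_le] at s1 s3 hEr
  have hzn : ‖z‖ ≤ |z.re| + |z.im| := Complex.norm_le_abs_re_add_abs_im z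
  have hB6 := hb3 i
  rw [← hB] at hB6
  -- the two signs of `b`
  rcases le_total 0 B with hs | hs
  · rw [abs_of_nonneg hs] at hB6
    have hre : z.re < 0 := by
      by_contra hcon
      push Not at hcon
      nlinarith only [hR', s3, hcon, hR, hB6, s3.2]
    rw [abs_of_neg hre] at hzn
    -- |im| ≤ |re| / 2
    have him : |z.im| ≤ -z.re / 2 := by
      have h6 : |B * z.im| ≤ 1 / 4 := abs_le.mpr s1
      rw [abs_mul, abs_of_nonneg hs] at h6
      have h7 : 3 / 4 ≤ B * (-z.re) := by linarith only [s3, s3.2]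
      have h8 : B * |z.im| ≤ B * (-z.re / 2) := by linarith only [hR, hR', s3, h6]
      exact le_of_mul_le_mul_left h8 (by linarith only [hR, hR', hB6])
    have h9 : 2 * Real.pi * (B * z.im) ≥ 2 * Real.pi * (-z.re) - 3 * (-z.re) := by
      have h10 : 2 * Real.pi * nbr i * z.re ≤ 2 * Real.pi * z.re := by
        have : 2 * Real.pi * (nbr i - 1) * z.re ≤ 0 :=
          mul_nonpos_of_nonneg_of_nonpos (by
            have : 0 ≤ nbr i - 1 := by linarith only [hn]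
            positivity) hre.le
        linarith only [this]
      linarith only [e2, hEr, hzn, him, h10, hEr.1]
    have h11 : 0 < B * z.im := by
      have : 0 < (2 * Real.pi - 3) * (-z.re) := mul_pos (by linarith only [hR, hR', hpi]) (by linarith only [hre])
      nlinarith only [h9, hR, hre, hR', hpi]
    by_contra hcon
    push Not at hcon
    have h12 := mul_nonpos_of_nonneg_of_nonpos hs hcon
    linarith only [h11, h12]
  · rw [abs_of_nonpos hs] at hB6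
    have hre : 0 < z.re := by
      by_contra hcon
      push Not at hcon
      nlinarith only [hR', s3, hcon, hR, hB6, s3.2]
    rw [abs_of_pos hre] at hzn
    have him : |z.im| ≤ z.re / 2 := by
      have h6 : |B * z.im| ≤ 1 / 4 := abs_le.mpr s1
      rw [abs_mul, abs_of_nonpos hs] at h6
      have h7 : 3 / 4 ≤ (-B) * z.re := by linarith only [s3, s3.2]
      have h8 : (-B) * |z.im| ≤ (-B) * (z.re / 2) := by linarith only [hR, hR', s3, h6]
      exact le_of_mul_le_mul_left h8 (by linarith only [hR, hR', hB6])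
    have h9 : 2 * Real.pi * ((-B) * z.im) ≥ 2 * Real.pi * z.re - 3 * z.re := by
      have h10 : 2 * Real.pi * z.re ≤ 2 * Real.pi * nbr i * z.re := by
        have : 0 ≤ 2 * Real.pi * (nbr i - 1) * z.re :=
          mul_nonneg (by
            have : 0 ≤ nbr i - 1 := by linarith only [hn]
            positivity) hre.le
        linarith only [this]
      linarith only [e2, hEr, hzn, him, h10, hEr.2]
    have h11 : 0 < (-B) * z.im := by
      have : 0 < (2 * Real.pi - 3) * z.re := mul_pos (by linarith only [hR, hR', hpi]) hre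
      nlinarith only [h9, hR, hre, hR', hpi]
    by_contra hcon
    push Not at hcon
    have h12 := mul_nonpos_of_nonneg_of_nonpos (by linarith only [hR, hR', hB6] : 0 ≤ -B) hcon
    linarith only [h11, h12]

theorem unique_crit : ∃ η : ℝ, 0 < η ∧ ∃ A : ℕ, ∀ (M : ℕ) (b : Fin (M + 1) → ℤ),
    (∀ i, (A : ℤ) ≤ |b i|) → ∀ (y y' : Fin M → ℂ) (ζ ζ' : Fin (M + 1) → ℂ),
    Crit b y ζ → Crit b y' ζ' → (∀ j, ‖y j - 1 / 4‖ ≤ η) → (∀ j, ‖y' j - 1 / 4‖ ≤ η) →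
    (∀ i, ‖ζ i‖ ≤ η) → (∀ i, ‖ζ' i‖ ≤ η) → y = y' ∧ ζ = ζ' := by
  obtain ⟨R, K, hR, hR', hK, h1, h2, h3⟩ := sadA_consts
  obtain ⟨A, hA⟩ := exists_nat_ge (2 * K + 1)
  refine ⟨R, hR, A, fun M b hb y y' ζ ζ' c c' a1 a2 a3 a4 => ?_⟩
  have hb1 : ∀ i, 2 * K + 1 ≤ |(b i : ℝ)| := fun i => hA.trans (sadA_abs (hb i))
  have hb0 : ∀ i, b i ≠ 0 := by
    intro i h0
    have := hb1 i
    rw [h0] at this
    norm_num at this
    linarith only [hR, hR', hK, this]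
  have h := sadA_lip hR hK h1 h2 hb1 (x := (y, ζ)) (y := (y', ζ')) ⟨a1, a3⟩ ⟨a2, a4⟩
  rw [(ct_fixed_iff hb0 (y, ζ)).mpr c, (ct_fixed_iff hb0 (y', ζ')).mpr c'] at h
  have h4 : dist (y, ζ) (y', ζ') ≤ 0 := by linarith only [h]
  have h5 := dist_le_zero.mp h4
  exact ⟨congrArg Prod.fst h5, congrArg Prod.snd h5⟩

end Pool.Agent.Work.MP_b30479_gtS.LT

end
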